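import Pool.Agent.Lib.MP_3efbeb_nt.ER.RS.Defs

/-!
# MP_3efbeb_nt, ER, RS: basic lemmas on means (helper12)
-/

set_option autoImplicit false

namespace Pool.Agent.Lib.MP_3efbeb_nt.ER.RS

open Finset

noncomputable section

section basic

variable {α β : Type} [Fintype α] [Fintype β]

theorem av_add (f g : α → ℝ) : av (fun x => f x + g x) = av f + av g := by
  unfold av; rw [sum_add_distrib, add_div]

theorem av_sub (f g : α → ℝ) : av (fun x => f x - g x) = av f - av g := by
  unfold av; rw [sum_sub_distrib, sub_div]

theorem av_neg (f : α → ℝ) : av (fun x => - f x) = - av f := by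
  unfold av; rw [sum_neg_distrib, neg_div]

theorem av_mul_left (c : ℝ) (f : α → ℝ) : av (fun x => c * f x) = c * av f := by
  unfold av; rw [← mul_sum, mul_div_assoc]

theorem av_mul_right (c : ℝ) (f : α → ℝ) : av (fun x => f x * c) = av f * c := by
  unfold av; rw [← sum_mul, div_mul_eq_mul_div]

theorem av_const [Nonempty α] (c : ℝ) : av (fun _ : α => c) = c := by
  unfold av
  rw [sum_const, card_univ, nsmul_eq_mul]
  have : (Fintype.card α : ℝ) ≠ 0 := by exact_mod_cast Fintype.card_ne_zero
  field_simp

theorem av_zero : av (fun _ : α => (0 : ℝ)) = 0 := by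
  unfold av; simp

theorem av_sum {ι : Type} (s : Finset ι) (f : ι → α → ℝ) :
    av (fun x => ∑ i ∈ s, f i x) = ∑ i ∈ s, av (f i) := by
  unfold av
  rw [sum_comm, sum_div]

theorem av_mono {f g : α → ℝ} (h : ∀ x, f x ≤ g x) : av f ≤ av g := by
  unfold av
  exact div_le_div_of_nonneg_right (sum_le_sum fun x _ => h x) (Nat.cast_nonneg _)

theorem av_nonneg {f : α → ℝ} (h : ∀ x, 0 ≤ f x) : 0 ≤ av f := by
  unfold av
  exact div_nonneg (sum_nonneg fun x _ => h x) (Nat.cast_nonneg _)

theorem av_le_const [Nonempty α] {f : α → ℝ} {c : ℝ} (h : ∀ x, f x ≤ c) : av f ≤ c := by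
  calc av f ≤ av (fun _ : α => c) := av_mono h
    _ = c := av_const c

theorem const_le_av [Nonempty α] {f : α → ℝ} {c : ℝ} (h : ∀ x, c ≤ f x) : c ≤ av f := by
  calc c = av (fun _ : α => c) := (av_const c).symm
    _ ≤ av f := av_mono h

theorem av_congr {f g : α → ℝ} (h : ∀ x, f x = g x) : av f = av g := by
  have : f = g := funext h
  rw [this]

theorem abs_av_le (f : α → ℝ) : |av f| ≤ av (fun x => |f x|) := by
  unfold av
  rw [abs_div, abs_of_nonneg (Nat.cast_nonneg _ : (0 : ℝ) ≤ (Fintype.card α : ℝ))]
  exact div_le_div_of_nonneg_right (abs_sum_le_sum_abs _ _) (Nat.cast_nonneg _)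

theorem abs_av_le_of {f g : α → ℝ} (h : ∀ x, |f x| ≤ g x) : |av f| ≤ av g :=
  (abs_av_le f).trans (av_mono h)

theorem av_equiv (e : α ≃ β) (f : β → ℝ) : av (fun x => f (e x)) = av f := by
  unfold av
  rw [Fintype.card_congr e, Equiv.sum_comp e f]

theorem av_prod (f : α × β → ℝ) : av f = av (fun x : α => av (fun y : β => f (x, y))) := by
  unfold av
  rw [Fintype.card_prod, Fintype.sum_prod_type, ← sum_div]
  push_cast
  rw [div_div, mul_comm (Fintype.card α : ℝ)]

theorem av_comm (f : α → β → ℝ) : av (fun x : α => av (fun y : β => f x y)) = av (fun y : β => av (fun x : α => f x y)) := by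
  rw [← av_prod (fun q : α × β => f q.1 q.2), ← av_prod (fun q : β × α => f q.2 q.1),
    ← av_equiv (Equiv.prodComm β α) (fun q : α × β => f q.1 q.2)]
  rfl

/-- the product of two means -/
theorem av_mul_av (f : α → ℝ) (g : β → ℝ) : av f * av g = av (fun x : α => av (fun y : β => f x * g y)) := by
  rw [← av_mul_right]
  exact av_congr fun x => (av_mul_left (f x) g).symm

/-- weighted Cauchy-Schwarz inequality -/
theorem av_cs_weight {W f : α → ℝ} (hW : ∀ x, 0 ≤ W x) :
    (av (fun x => W x * f x)) ^ 2 ≤ av W * av (fun x => W x * f x ^ 2) := by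
  unfold av
  have h := sum_mul_sq_le_sq_mul_sq univ (fun x => Real.sqrt (W x)) (fun x => Real.sqrt (W x) * f x)
  have h1 : ∀ x, Real.sqrt (W x) * (Real.sqrt (W x) * f x) = W x * f x := fun x => by
    rw [← mul_assoc, Real.mul_self_sqrt (hW x)]
  have h2 : ∀ x, Real.sqrt (W x) ^ 2 = W x := fun x => Real.sq_sqrt (hW x)
  have h3 : ∀ x, (Real.sqrt (W x) * f x) ^ 2 = W x * f x ^ 2 := fun x => by rw [mul_pow, Real.sq_sqrt (hW x)]
  simp only [h1, h2, h3] at h
  rw [div_pow, div_mul_div_comm, ← sq]
  exact div_le_div_of_nonneg_right h (by positivity)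

/-- Cauchy-Schwarz inequality -/
theorem av_cs (f g : α → ℝ) : (av (fun x => f x * g x)) ^ 2 ≤ av (fun x => f x ^ 2) * av (fun x => g x ^ 2) := by
  unfold av
  have h := sum_mul_sq_le_sq_mul_sq univ f g
  rw [div_pow, div_mul_div_comm, ← sq]
  exact div_le_div_of_nonneg_right h (by positivity)

/-- the square of a mean -/
theorem av_sq_le [Nonempty α] (f : α → ℝ) : (av f) ^ 2 ≤ av (fun x => f x ^ 2) := by
  have h := av_cs_weight (W := fun _ : α => (1 : ℝ)) (f := f) (fun _ => zero_le_one)
  simp only [one_mul] at h
  rwa [av_const, one_mul] at h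

/-- the mean of an indicator function -/
theorem av_ind (p : α → Prop) [DecidablePred p] :
    av (fun x => if p x then (1 : ℝ) else 0) = ((univ.filter p).card : ℝ) / Fintype.card α := by
  unfold av
  rw [sum_boole]

end basic

section coord

variable {k : ℕ} {V : Type} [Fintype V] [Nonempty V]

/-- resampling one coordinate -/
theorem av_update (i : Fin k) (F : (Fin k → V) → ℝ) :
    av F = av (fun x => av (fun v => F (Function.update x i v))) := by
  have h1 : av (fun x => av (fun v => F (Function.update x i v)))
      = av (fun q : (Fin k → V) × V => F (Function.update q.1 i q.2)) :=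
    (av_prod (fun q : (Fin k → V) × V => F (Function.update q.1 i q.2))).symm
  have h2 : av (fun q : (Fin k → V) × V => F (Function.update q.1 i q.2)) = av (fun q : (Fin k → V) × V => F q.1) := by
    have := av_equiv (⟨fun q => (Function.update q.1 i q.2, q.1 i), fun q => (Function.update q.1 i q.2, q.1 i),
      fun q => by simp, fun q => by simp⟩ : ((Fin k → V) × V) ≃ ((Fin k → V) × V)) (fun q => F q.1)
    simpa using this
  rw [h1, h2, av_prod]
  exact (av_congr fun x => av_const (F x)).symm

/-- a function of one coordinate -/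
theorem av_coord (i : Fin k) (h : V → ℝ) : av (fun x : Fin k → V => h (x i)) = av h := by
  rw [av_update i]
  have : (fun x : Fin k → V => av (fun v => h (Function.update x i v i))) = fun _ => av h := by
    funext x
    exact av_congr fun v => by simp
  rw [this]
  exact av_const _

/-- pull a factor that does not depend on the coordinate `i` out of the resampling -/
theorem av_pull (i : Fin k) (K G : (Fin k → V) → ℝ) (hK : Ind i K) :
    av (fun x => K x * G x) = av (fun x => K x * av (fun v => G (Function.update x i v))) := by
  rw [av_update i]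
  refine av_congr fun x => ?_
  rw [← av_mul_left]
  exact av_congr fun v => by rw [hK x v]

/-- splitting the doubled variables -/
def splitX (w : Fin k → Bool) : (Fin k → Bool → V) ≃ (Fin k → V) × (Fin k → V) where
  toFun X := (fun i => X i (w i), fun i => X i (!w i))
  invFun q := fun i b => if b = w i then q.1 i else q.2 i
  left_inv X := by
    funext i b
    by_cases h : b = w i
    · simp [h]
    · have : b = !w i := by cases b <;> cases hw : w i <;> simp_all
      simp [this]
  right_inv q := by
    ext i
    · simp
    · simp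

omit [Fintype V] [Nonempty V] in
theorem splitX_fst (w : Fin k → Bool) (X : Fin k → Bool → V) : (splitX w X).1 = pt X w := rfl

/-- the mean over the doubled variables of a function of one corner -/
theorem av_pt (w : Fin k → Bool) (G : (Fin k → V) → ℝ) : av (fun X : Fin k → Bool → V => G (pt X w)) = av G := by
  have h := av_equiv (splitX (V := V) w) (fun q => G q.1)
  rw [show (fun X : Fin k → Bool → V => G (pt X w)) = fun X => G ((splitX w X).1) from rfl, h, av_prod]
  exact av_congr fun x => av_const (G x)

/-- the mean of a product of two means in the coordinate `j`, in the doubled variables -/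
theorem av_dbl (j : Fin k) (K G0 G1 : (Fin k → V) → ℝ) (hK : Ind j K) :
    av (fun x => K x * (av (fun v => G0 (Function.update x j v)) * av (fun v => G1 (Function.update x j v))))
      = av (fun X : Fin k → Bool → V => K (pt X z0) * (G0 (pt X z0) * G1 (pt X (ej j true)))) := by
  have h := av_equiv (splitX (V := V) (z0 (k := k))) (fun q => K q.1 * (G0 q.1 * G1 (Function.update q.1 j (q.2 j))))
  have h1 : (fun X : Fin k → Bool → V => K (pt X z0) * (G0 (pt X z0) * G1 (pt X (ej j true))))
      = fun X => (fun q : (Fin k → V) × (Fin k → V) => K q.1 * (G0 q.1 * G1 (Function.update q.1 j (q.2 j))))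
        (splitX z0 X) := by
    funext X
    have h2 : pt X (ej j true) = Function.update (pt X z0) j (X j true) := by
      funext i
      by_cases hi : i = j
      · subst hi; simp [pt, ej]
      · simp [pt, ej, Function.update_of_ne hi]
    simp only [h2]
    rfl
  rw [h1, h, av_prod]
  have h3 : ∀ x : Fin k → V, av (fun y : Fin k → V => K x * (G0 x * G1 (Function.update x j (y j))))
      = K x * (G0 x * av (fun v => G1 (Function.update x j v))) := by
    intro x
    rw [av_mul_left, av_mul_left, av_coord j (fun v => G1 (Function.update x j v))]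
  simp only [h3]
  rw [av_pull j K (fun x => G0 x * av (fun v => G1 (Function.update x j v))) hK]
  refine av_congr fun x => ?_
  congr 1
  have h4 : ∀ v : V, G0 (Function.update x j v) * av (fun v' => G1 (Function.update (Function.update x j v) j v'))
      = G0 (Function.update x j v) * av (fun v' => G1 (Function.update x j v')) := by
    intro v
    congr 1
    exact av_congr fun v' => by rw [Function.update_idem]
  simp only [h4]
  rw [av_mul_right]

end coord

/-! ### the forms -/

theorem psi_update {k N : ℕ} (a : Fin k → ZMod N) (j : Fin k) (x : Fin k → ZMod N) (v : ZMod N) :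
    psi a j (Function.update x j v) = psi a j x := by
  unfold psi
  refine sum_congr rfl fun i _ => ?_
  by_cases hi : i = j
  · subst hi; simp
  · rw [Function.update_of_ne hi]

theorem ind_psi {k N : ℕ} (a : Fin k → ZMod N) (j : Fin k) {β : Type} (F : ZMod N → β) :
    Ind j (fun x => F (psi a j x)) := fun x v => congrArg F (psi_update a j x v)

theorem mem_Om {k : ℕ} {S : Finset (Fin k)} {w : Fin k → Bool} : w ∈ Om S ↔ ∀ i, w i = true → i ∈ S := by
  unfold Om; simp

theorem pt_update {k : ℕ} {V : Type} (X : Fin k → Bool → V) (i : Fin k) (c : Bool → V) (w : Fin k → Bool) :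
    pt (Function.update X i c) w = Function.update (pt X w) i (c (w i)) := by
  funext l
  by_cases hl : l = i
  · subst hl; simp [pt]
  · simp [pt, Function.update_of_ne hl]

theorem pt_sw {k : ℕ} {V : Type} (X : Fin k → Bool → V) (i : Fin k) (w : Fin k → Bool) :
    pt (sw i X) w = pt X (Function.update w i (!w i)) := by
  funext l
  by_cases hl : l = i
  · subst hl; simp [pt, sw]
  · simp [pt, sw, Function.update_of_ne hl]

end

end Pool.Agent.Lib.MP_3efbeb_nt.ER.RS
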