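import Pool.Agent.Lib.MP_3efbeb_nt.ER.RS.Spec
import Pool.Agent.Lib.MP_3efbeb_nt.ER.RS.AV

/-!
# MP_3efbeb_nt, ER, RS: BOXB (helper22)

The linear forms condition makes the cut norm of `ν - 1` small.
-/

set_option autoImplicit false

namespace Pool.Agent.Lib.MP_3efbeb_nt.ER.RS

open Finset

noncomputable section

namespace BOXBaux

theorem ej_false {k : ℕ} (j : Fin k) : ej j false = z0 := by
  unfold ej
  funext l
  by_cases hl : l = j
  · subst hl; simp [z0]
  · simp [Function.update_of_ne hl]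

/-- the choice of `η` -/
theorem choice (C : ℝ) (hC : 0 ≤ C) (E : ℝ) (hE : 0 < E) :
    ∃ η : ℝ, 0 < η ∧ η ≤ 1 ∧ C * η ≤ E := by
  have hC1 : (0 : ℝ) < C + 1 := by linarith
  refine ⟨min 1 (E / (C + 1)), lt_min one_pos (div_pos hE hC1), min_le_left _ _, ?_⟩
  have h1 : C * min 1 (E / (C + 1)) ≤ C * (E / (C + 1)) := mul_le_mul_of_nonneg_left (min_le_right _ _) hC
  have h2 : C * (E / (C + 1)) ≤ (C + 1) * (E / (C + 1)) :=
    mul_le_mul_of_nonneg_right (by linarith) (div_pos hE hC1).le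
  have h3 : (C + 1) * (E / (C + 1)) = E := by field_simp
  linarith

end BOXBaux

open BOXBaux

/-- BOXB -/
theorem specBOXB (hSTR : SpecSTR) (hREP : SpecREP) : SpecBOXB := by
  intro m ε hε
  obtain ⟨C, hC, hS⟩ := hSTR (m + 1)
  obtain ⟨η, hη0, hη1, hCη⟩ := choice C hC (ε ^ 2 ^ m) (pow_pos hε _)
  refine ⟨η, hη0, hη1, ?_⟩
  intro N _ hN a ha ν hν hLF
  refine (hREP m N hN a ha (fun i => ν i - 1) ε).2 ?_
  intro j u hu hb
  let A : Fin (m + 1) → Bool → (Fin (m + 1) → ZMod N) → ℝ := fun i b x => if b = true then 1 else u i x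
  have hAI : ∀ i, i ≠ j → ∀ b, Ind i (A i b) := by
    intro i _ b x v
    show (if b = true then (1 : ℝ) else u i (Function.update x i v)) = if b = true then 1 else u i x
    rw [hu i x v]
  have hAB : ∀ i, i ≠ j → ∀ b x, |A i b x| ≤ 1 + ν (psi a i x) := by
    intro i _ b x
    show |(if b = true then (1 : ℝ) else u i x)| ≤ 1 + ν (psi a i x)
    have h0 := hν (psi a i x)
    have h1 := hb i x
    split_ifs
    · rw [abs_one]; linarith
    · rw [abs_of_nonneg h1.1]; linarith [h1.2]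
  have key := hS N a ν η hν hη0.le hη1 hLF j A hAI hAB
  have hprod : ∀ X : Fin (m + 1) → Bool → ZMod N,
      (∏ i ∈ univ.erase j, ∏ b : Bool, A i b (pt X (ej j b))) = ∏ i ∈ univ.erase j, u i (pt X z0) := by
    intro X
    refine prod_congr rfl fun i _ => ?_
    rw [Fintype.prod_bool]
    show (if true = true then (1 : ℝ) else u i (pt X (ej j true)))
      * (if false = true then (1 : ℝ) else u i (pt X (ej j false))) = u i (pt X z0)
    rw [ej_false]
    simp
  have hav : av (fun X : Fin (m + 1) → Bool → ZMod N => (ν (psi a j (pt X z0)) - 1) *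
      ∏ i ∈ univ.erase j, ∏ b : Bool, A i b (pt X (ej j b)))
      = av (fun x : Fin (m + 1) → ZMod N => (ν (psi a j x) - 1) * ∏ i ∈ univ.erase j, u i x) := by
    rw [← av_pt (z0 (k := m + 1)) (fun x : Fin (m + 1) → ZMod N => (ν (psi a j x) - 1) * ∏ i ∈ univ.erase j, u i x)]
    exact av_congr fun X => by rw [hprod X]
  rw [hav, Nat.add_sub_cancel] at key
  have hle := key.trans hCη
  exact le_of_pow_le_pow_left₀ (pow_ne_zero m two_ne_zero) hε.le hle

end

end Pool.Agent.Lib.MP_3efbeb_nt.ER.RS
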