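import Pool.Agent.Lib.MP_3efbeb_nt.ER.RS.Spec
import Pool.Agent.Lib.MP_3efbeb_nt.ER.RS.AV

/-!
# MP_3efbeb_nt, ER, RS: module CL, the relative counting lemma (helper24)
-/

set_option autoImplicit false

namespace Pool.Agent.Lib.MP_3efbeb_nt.ER.RS

open Finset

theorem CL_LF_mono {k N : ℕ} [NeZero N] {a : Fin k → ZMod N} {ν : ZMod N → ℝ} {η η' : ℝ} (h : LF a ν η)
    (hle : η ≤ η') : LF a ν η' := fun T hT => (h T hT).trans hle

theorem CL_Cut_mono {k N : ℕ} [NeZero N] {a : Fin k → ZMod N} {F : ZMod N → ℝ} {ε ε' : ℝ} (h : Cut a F ε)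
    (hle : ε ≤ ε') : Cut a F ε' := fun j u h1 h2 => (h j u h1 h2).trans hle

theorem CL_aux (hSTR : SpecSTR) (hCLA : SpecCLA) (k : ℕ) : ∀ (l : ℕ) (τ : ℝ), 0 < τ →
    ∃ ε η : ℝ, 0 < ε ∧ 0 < η ∧ η ≤ 1 ∧ ∀ (N : ℕ) [NeZero N] (a : Fin k → ZMod N) (ν f g : ZMod N → ℝ),
      (∀ i, 0 ≤ f i ∧ f i ≤ ν i) → (∀ i, 0 ≤ g i ∧ g i ≤ 1) → LF a ν η → Cut a (fun i => f i - g i) ε →
      ∀ D : Finset (Fin k), (univ \ D).card = l → ∀ u, Dn u → |cnt a D u f - cnt a D u g| ≤ τ := by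
  intro l
  induction l with
  | zero =>
    intro τ hτ
    refine ⟨1, 1, one_pos, one_pos, le_refl 1, ?_⟩
    intro N _ a ν f g _ _ _ _ D hD u _
    have h0 : univ \ D = ∅ := card_eq_zero.mp hD
    unfold cnt
    rw [h0]
    simp only [prod_empty, sub_self, abs_zero]
    exact hτ.le
  | succ l ih =>
    intro τ hτ
    have hβ : (0 : ℝ) < τ ^ 2 / 128 := by positivity
    obtain ⟨ε1, η1, hε1, hη1, hη1', hih⟩ := ih (τ ^ 2 / 128) hβ
    obtain ⟨C, hC, hstr⟩ := hSTR k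
    have hB : (0 : ℝ) < (τ ^ 2 / 128) ^ 2 ^ (k - 1) / (C + 1) := by positivity
    refine ⟨min ε1 (τ / 2), min η1 (min (τ ^ 2 / 96) ((τ ^ 2 / 128) ^ 2 ^ (k - 1) / (C + 1))), ?_, ?_, ?_, ?_⟩
    · exact lt_min hε1 (by positivity)
    · exact lt_min hη1 (lt_min (by positivity) hB)
    · exact (min_le_left _ _).trans hη1'
    intro N _ a ν f g hf hg hLF hCut D hD u hu
    set η : ℝ := min η1 (min (τ ^ 2 / 96) ((τ ^ 2 / 128) ^ 2 ^ (k - 1) / (C + 1))) with hη_def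
    have hη0 : 0 < η := lt_min hη1 (lt_min (by positivity) hB)
    have hηa : η ≤ η1 := min_le_left _ _
    have hηb : η ≤ τ ^ 2 / 96 := (min_le_right _ _).trans (min_le_left _ _)
    have hηc : η ≤ (τ ^ 2 / 128) ^ 2 ^ (k - 1) / (C + 1) := (min_le_right _ _).trans (min_le_right _ _)
    have hη1 : η ≤ 1 := hηa.trans hη1'
    have hν : ∀ i, 0 ≤ ν i := fun i => (hf i).1.trans (hf i).2
    have hCη : C * η ≤ (τ ^ 2 / 128) ^ 2 ^ (k - 1) := by
      have hC1 : (0 : ℝ) < C + 1 := by linarith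
      have h1 : η * (C + 1) ≤ (τ ^ 2 / 128) ^ 2 ^ (k - 1) := (le_div_iff₀ hC1).mp hηc
      nlinarith
    have hne : (univ \ D).Nonempty := by
      rw [← card_pos, hD]; exact Nat.succ_pos l
    obtain ⟨j, hj⟩ := hne
    have hjD : j ∉ D := (mem_sdiff.mp hj).2
    have hcard : (univ \ insert j D).card = l := by
      have h1 : univ \ insert j D = (univ \ D).erase j := by
        ext i
        simp only [mem_sdiff, mem_univ, true_and, mem_insert, not_or, mem_erase]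
      rw [h1, card_erase_of_mem hj, hD]
      rfl
    have hstep : ∀ u, Dn u → |cnt a (insert j D) u f - cnt a (insert j D) u g| ≤ τ ^ 2 / 128 :=
      hih N a ν f g hf hg (CL_LF_mono hLF hηa) (CL_Cut_mono hCut (min_le_left _ _)) (insert j D) hcard
    have hβ' : ∀ (j : Fin k) (A : Fin k → Bool → (Fin k → ZMod N) → ℝ),
        (∀ i, i ≠ j → ∀ b, Ind i (A i b)) → (∀ i, i ≠ j → ∀ b x, |A i b x| ≤ 1 + ν (psi a i x)) →
        |av (fun X : Fin k → Bool → ZMod N => (ν (psi a j (pt X z0)) - 1) *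
          ∏ i ∈ univ.erase j, ∏ b : Bool, A i b (pt X (ej j b)))| ≤ τ ^ 2 / 128 := by
      intro j A hA1 hA2
      have h1 := hstr N a ν η hν hη0.le hη1 hLF j A hA1 hA2
      exact le_of_pow_le_pow_left₀ (by positivity) hβ.le (h1.trans hCη)
    have hfin := hCLA k N a ν f g η (τ / 2) (τ ^ 2 / 128) (τ ^ 2 / 128) hf hg hη0.le hη1 hLF
      (CL_Cut_mono hCut (min_le_right _ _)) hβ' D j hjD hstep u hu
    have hsq : Real.sqrt (8 * (τ ^ 2 / 128) + 6 * η + 8 * (τ ^ 2 / 128)) ≤ τ / 2 := by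
      rw [Real.sqrt_le_left (by positivity)]
      nlinarith
    linarith

theorem specCL (hSTR : SpecSTR) (hCLA : SpecCLA) : SpecCL := by
  intro k τ hτ
  obtain ⟨ε, η, hε, hη, hη1, h⟩ := CL_aux hSTR hCLA k k τ hτ
  refine ⟨ε, η, hε, hη, hη1, ?_⟩
  intro N _ a ν f g hf hg hLF hCut
  have h1 := h N a ν f g hf hg hLF hCut ∅ (by simp) (fun _ _ => 0)
    ⟨fun i x v => rfl, fun i x => ⟨le_refl _, zero_le_one⟩⟩
  simpa only [cnt, prod_empty, one_mul, sdiff_empty] using h1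

end Pool.Agent.Lib.MP_3efbeb_nt.ER.RS
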