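import Pool.Agent.Lib.MP_3efbeb_nt.ER.RS.Spec
import Pool.Agent.Lib.MP_3efbeb_nt.ER.RS.AV

/-!
# MP_3efbeb_nt, ER/RS: one step of the counting lemma (helper53)
-/

set_option autoImplicit false

namespace Pool.Agent.Lib.MP_3efbeb_nt.ER.RS

open Finset

noncomputable section

namespace CLAM

variable {k N : ℕ} [NeZero N]

/-- the product of the other factors -/
def w (a : Fin k → ZMod N) (D I : Finset (Fin k)) (u : Fin k → (Fin k → ZMod N) → ℝ) (h : ZMod N → ℝ)
    (x : Fin k → ZMod N) : ℝ := (∏ i ∈ D, u i x) * ∏ i ∈ I, h (psi a i x)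

/-- its mean over the coordinate `j` -/
def hp (a : Fin k → ZMod N) (D I : Finset (Fin k)) (u : Fin k → (Fin k → ZMod N) → ℝ) (h : ZMod N → ℝ)
    (j : Fin k) (x : Fin k → ZMod N) : ℝ := av (fun v => w a D I u h (Function.update x j v))

lemma hp_ind (a : Fin k → ZMod N) (D I : Finset (Fin k)) (u : Fin k → (Fin k → ZMod N) → ℝ) (h : ZMod N → ℝ)
    (j : Fin k) : Ind j (hp a D I u h j) := by
  intro x v
  unfold hp
  exact av_congr (fun v' => by rw [Function.update_idem])

lemma prod_split (D : Finset (Fin k)) (j : Fin k) (hj : j ∉ D) (p q : Fin k → ℝ) :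
    ∏ i ∈ univ.erase j, (if i ∈ D then p i else q i) = (∏ i ∈ D, p i) * ∏ i ∈ univ \ insert j D, q i := by
  have h1 : univ.erase j = D ∪ (univ \ insert j D) := by
    ext i
    simp only [mem_erase, mem_univ, and_true, mem_union, mem_sdiff, true_and, mem_insert, not_or]
    constructor
    · intro h
      by_cases hi : i ∈ D
      · exact Or.inl hi
      · exact Or.inr ⟨h, hi⟩
    · rintro (h | h)
      · rintro rfl; exact hj h
      · exact h.1
  have h2 : Disjoint D (univ \ insert j D) := by
    rw [disjoint_left]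
    intro i hi hi2
    rw [mem_sdiff] at hi2
    exact hi2.2 (mem_insert_of_mem hi)
  rw [h1, prod_union h2]
  congr 1
  · exact prod_congr rfl (fun i hi => if_pos hi)
  · refine prod_congr rfl (fun i hi => if_neg ?_)
    rw [mem_sdiff] at hi
    exact fun h => hi.2 (mem_insert_of_mem h)

lemma cnt_eq (a : Fin k → ZMod N) (D : Finset (Fin k)) (j : Fin k) (hj : j ∉ D)
    (u : Fin k → (Fin k → ZMod N) → ℝ) (h : ZMod N → ℝ) :
    cnt a D u h = av (fun x => h (psi a j x) * hp a D (univ \ insert j D) u h j x) := by
  rw [show (fun x => h (psi a j x) * hp a D (univ \ insert j D) u h j x)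
    = fun x => h (psi a j x) * av (fun v => w a D (univ \ insert j D) u h (Function.update x j v)) from rfl,
    ← av_pull j (fun x => h (psi a j x)) (w a D (univ \ insert j D) u h) (ind_psi a j h)]
  unfold cnt
  refine av_congr (fun x => ?_)
  unfold w
  have e : univ \ D = insert j (univ \ insert j D) := by
    ext i
    simp only [mem_sdiff, mem_univ, true_and, mem_insert, not_or]
    constructor
    · intro hi
      by_cases hij : i = j
      · exact Or.inl hij
      · exact Or.inr ⟨hij, hi⟩
    · rintro (rfl | h)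
      · exact hj
      · exact h.2
  rw [e, prod_insert (by simp)]
  ring

lemma cnt_ins (a : Fin k → ZMod N) (D : Finset (Fin k)) (j : Fin k) (hj : j ∉ D)
    (u : Fin k → (Fin k → ZMod N) → ℝ) (h : ZMod N → ℝ) (K : (Fin k → ZMod N) → ℝ) (hK : Ind j K) :
    cnt a (insert j D) (Function.update u j K) h = av (fun x => K x * hp a D (univ \ insert j D) u h j x) := by
  rw [show (fun x => K x * hp a D (univ \ insert j D) u h j x)
    = fun x => K x * av (fun v => w a D (univ \ insert j D) u h (Function.update x j v)) from rfl,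
    ← av_pull j K (w a D (univ \ insert j D) u h) hK]
  unfold cnt
  refine av_congr (fun x => ?_)
  unfold w
  rw [prod_insert hj, Function.update_self]
  have e : ∏ i ∈ D, Function.update u j K i x = ∏ i ∈ D, u i x := by
    refine prod_congr rfl (fun i hi => ?_)
    have : i ≠ j := fun h => hj (h ▸ hi)
    rw [Function.update_of_ne this]
  rw [e]
  ring

lemma ej_false (j : Fin k) : ej j false = z0 := by
  unfold ej
  funext i
  by_cases h : i = j
  · subst h; simp [z0]
  · simp [Function.update_of_ne h]

/-- the fourth step -/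
lemma four (a : Fin k → ZMod N) (ν : ZMod N → ℝ) (β : ℝ) (hν : ∀ i, 0 ≤ ν i)
    (hβ : ∀ (j : Fin k) (A : Fin k → Bool → (Fin k → ZMod N) → ℝ),
      (∀ i, i ≠ j → ∀ b, Ind i (A i b)) → (∀ i, i ≠ j → ∀ b x, |A i b x| ≤ 1 + ν (psi a i x)) →
      |av (fun X : Fin k → Bool → ZMod N => (ν (psi a j (pt X z0)) - 1) *
        ∏ i ∈ univ.erase j, ∏ b : Bool, A i b (pt X (ej j b)))| ≤ β)
    (D : Finset (Fin k)) (j : Fin k) (hj : j ∉ D) (u : Fin k → (Fin k → ZMod N) → ℝ) (hu : Dn u)
    (p q : ZMod N → ℝ) (hp1 : ∀ i, |p i| ≤ 1 + ν i) (hq1 : ∀ i, |q i| ≤ 1 + ν i) :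
    |av (fun x => (ν (psi a j x) - 1) * (hp a D (univ \ insert j D) u p j x * hp a D (univ \ insert j D) u q j x))|
      ≤ β := by
  have h1 := av_dbl j (fun x => ν (psi a j x) - 1) (w a D (univ \ insert j D) u p) (w a D (univ \ insert j D) u q)
    (ind_psi a j (fun t => ν t - 1))
  have h2 := hβ j (fun i b => if i ∈ D then u i else fun x => (if b then q else p) (psi a i x))
    (by
      intro i hi b
      by_cases hiD : i ∈ D
      · simp only [if_pos hiD]; exact hu.1 i
      · simp only [if_neg hiD]; exact ind_psi a i (if b then q else p))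
    (by
      intro i hi b x
      by_cases hiD : i ∈ D
      · simp only [if_pos hiD]
        have := hu.2 i x
        rw [abs_of_nonneg this.1]
        have := hν (psi a i x)
        linarith [(hu.2 i x).2]
      · simp only [if_neg hiD]
        cases b
        · simpa using hp1 (psi a i x)
        · simpa using hq1 (psi a i x))
  have h3 : (fun X : Fin k → Bool → ZMod N => (ν (psi a j (pt X z0)) - 1) *
      (w a D (univ \ insert j D) u p (pt X z0) * w a D (univ \ insert j D) u q (pt X (ej j true))))
      = fun X : Fin k → Bool → ZMod N => (ν (psi a j (pt X z0)) - 1) *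
        ∏ i ∈ univ.erase j, ∏ b : Bool,
          (if i ∈ D then u i else fun x => (if b then q else p) (psi a i x)) (pt X (ej j b)) := by
    funext X
    congr 1
    simp only [Fintype.prod_bool, if_true]
    rw [prod_mul_distrib]
    have e1 : ∏ i ∈ univ.erase j, (if i ∈ D then u i else fun x => q (psi a i x)) (pt X (ej j true))
        = w a D (univ \ insert j D) u q (pt X (ej j true)) := by
      unfold w
      rw [← prod_split D j hj]
      exact prod_congr rfl (fun i _ => by split_ifs <;> rfl)
    have e2 : ∏ i ∈ univ.erase j, (if i ∈ D then u i else fun x => (if false = true then q else p) (psi a i x))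
        (pt X (ej j false)) = w a D (univ \ insert j D) u p (pt X z0) := by
      unfold w
      rw [ej_false, ← prod_split D j hj]
      exact prod_congr rfl (fun i _ => by split_ifs <;> first | rfl | simp_all)
    rw [e1, e2]
    ring
  rw [h3] at h1
  have h4 : av (fun x => (ν (psi a j x) - 1) * (hp a D (univ \ insert j D) u p j x * hp a D (univ \ insert j D) u q j x))
      = av (fun X : Fin k → Bool → ZMod N => (ν (psi a j (pt X z0)) - 1) *
        ∏ i ∈ univ.erase j, ∏ b : Bool,
          (if i ∈ D then u i else fun x => (if b then q else p) (psi a i x)) (pt X (ej j b))) := h1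
  rw [h4]
  exact h2

lemma av_nu (a : Fin k → ZMod N) (ν : ZMod N → ℝ) (η : ℝ) (hLF : LF a ν η) (j : Fin k) :
    av (fun x : Fin k → ZMod N => ν (psi a j x)) ≤ 1 + η := by
  have h := hLF {(j, z0)} (by
    intro q hq
    rw [mem_singleton] at hq
    subst hq; rfl)
  have e : prT a ν {(j, z0)} = fun X : Fin k → Bool → ZMod N => ν (psi a j (pt X z0)) := by
    funext X; unfold prT; rw [prod_singleton]
  rw [e, av_pt z0 (fun x => ν (psi a j x))] at h
  linarith [(abs_le.mp h).2]

end CLAM

open CLAM in
/-- CLA. -/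
theorem specCLA (hCON : SpecCON) : SpecCLA := by
  intro k N _ a ν f g η ε β e hf hg hη0 hη1 hLF hCut hβ D j hj he u hu
  set I := univ \ insert j D with hI
  have hν0 : ∀ i, 0 ≤ ν i := fun i => (hf i).1.trans (hf i).2
  set f' := hp a D I u f j with hf'
  set g' := hp a D I u g j with hg'
  have hjI : j ∉ I := by simp [hI]
  -- bounds for f', g'
  have hD : ∀ x, 0 ≤ ∏ i ∈ D, u i x ∧ ∏ i ∈ D, u i x ≤ 1 := fun x =>
    ⟨prod_nonneg (fun i _ => (hu.2 i x).1), prod_le_one (fun i _ => (hu.2 i x).1) (fun i _ => (hu.2 i x).2)⟩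
  have hf'0 : ∀ x, 0 ≤ f' x := fun x => av_nonneg (fun v =>
    mul_nonneg (hD _).1 (prod_nonneg (fun i _ => (hf _).1)))
  have hg'0 : ∀ x, 0 ≤ g' x := fun x => av_nonneg (fun v =>
    mul_nonneg (hD _).1 (prod_nonneg (fun i _ => (hg _).1)))
  have hg'1 : ∀ x, g' x ≤ 1 := fun x => av_le_const (fun v =>
    mul_le_one₀ (hD _).2 (prod_nonneg (fun i _ => (hg _).1))
      (prod_le_one (fun i _ => (hg _).1) (fun i _ => (hg _).2)))
  set ν' : (Fin k → ZMod N) → ℝ := fun x => av (fun v => ∏ i ∈ I, ν (psi a i (Function.update x j v))) with hν'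
  have hfν : ∀ x, f' x ≤ ν' x := fun x => av_mono (fun v => by
    unfold w
    calc (∏ i ∈ D, u i (Function.update x j v)) * ∏ i ∈ I, f (psi a i (Function.update x j v))
        ≤ 1 * ∏ i ∈ I, f (psi a i (Function.update x j v)) :=
          mul_le_mul_of_nonneg_right (hD _).2 (prod_nonneg (fun i _ => (hf _).1))
      _ ≤ ∏ i ∈ I, ν (psi a i (Function.update x j v)) := by
          rw [one_mul]
          exact prod_le_prod (fun i _ => (hf _).1) (fun i _ => (hf _).2))
  have hcon := hCON k N a ν η hLF j I hjI
  -- the decomposition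
  have hcf : cnt a D u f = av (fun x => f (psi a j x) * f' x) := cnt_eq a D j hj u f
  have hcg : cnt a D u g = av (fun x => g (psi a j x) * g' x) := cnt_eq a D j hj u g
  set F : (Fin k → ZMod N) → ℝ := fun x => f' x - g' x with hF
  have hdec : cnt a D u f - cnt a D u g
      = av (fun x => f (psi a j x) * F x) + av (fun x => (f (psi a j x) - g (psi a j x)) * g' x) := by
    rw [hcf, hcg, ← av_sub, ← av_add]
    exact av_congr (fun x => by rw [hF]; ring)
  -- (2)
  have h2 : |av (fun x => (f (psi a j x) - g (psi a j x)) * g' x)| ≤ ε := by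
    have e1 : av (fun x => (f (psi a j x) - g (psi a j x)) * g' x)
        = av (fun x => (f (psi a j x) - g (psi a j x)) * w a D I u g x) :=
      (av_pull j (fun x => f (psi a j x) - g (psi a j x)) (w a D I u g) (ind_psi a j (fun t => f t - g t))).symm
    have h := hCut j (fun i => if i ∈ D then u i else fun x => g (psi a i x))
      (by
        intro i
        by_cases hiD : i ∈ D
        · simp only [if_pos hiD]; exact hu.1 i
        · simp only [if_neg hiD]; exact ind_psi a i g)
      (by
        intro i x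
        by_cases hiD : i ∈ D
        · simp only [if_pos hiD]; exact hu.2 i x
        · simp only [if_neg hiD]; exact hg _)
    have e2 : (fun x : Fin k → ZMod N => (f (psi a j x) - g (psi a j x)) *
        ∏ i ∈ univ.erase j, (if i ∈ D then u i else fun x => g (psi a i x)) x)
        = fun x => (f (psi a j x) - g (psi a j x)) * w a D I u g x := by
      funext x
      congr 1
      unfold w
      rw [hI, ← prod_split D j hj]
      exact prod_congr rfl (fun i _ => by split_ifs <;> rfl)
    rw [e1, ← e2]
    exact h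
  -- (5)
  set s := av (fun x => F x ^ 2) with hs
  have hs0 : 0 ≤ s := av_nonneg (fun x => sq_nonneg _)
  have hsle : s ≤ 4 * e + 3 * η := by
    set fh : (Fin k → ZMod N) → ℝ := fun x => min (f' x) 1 with hfh
    have hf'i : Ind j f' := hp_ind a D I u f j
    have hfhi : Ind j fh := fun x v => by rw [hfh]; simp only; rw [hf'i x v]
    have hg'i : Ind j g' := hp_ind a D I u g j
    have hdn : ∀ K : (Fin k → ZMod N) → ℝ, Ind j K → (∀ x, 0 ≤ K x ∧ K x ≤ 1) →
        |av (fun x => K x * f' x) - av (fun x => K x * g' x)| ≤ e := by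
      intro K hK hK1
      have h := he (Function.update u j K) ⟨fun i => by
          by_cases hij : i = j
          · subst hij; rw [Function.update_self]; exact hK
          · rw [Function.update_of_ne hij]; exact hu.1 i, fun i x => by
          by_cases hij : i = j
          · subst hij; rw [Function.update_self]; exact hK1 x
          · rw [Function.update_of_ne hij]; exact hu.2 i x⟩
      rw [cnt_ins a D j hj u f K hK, cnt_ins a D j hj u g K hK] at h
      exact h
    have hd1 := hdn fh hfhi (fun x => ⟨le_min (hf'0 x) zero_le_one, min_le_right _ _⟩)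
    have hd2 := hdn g' hg'i (fun x => ⟨hg'0 x, hg'1 x⟩)
    have e1 : s = (av (fun x => fh x * f' x) - av (fun x => fh x * g' x))
        - (av (fun x => g' x * f' x) - av (fun x => g' x * g' x)) + av (fun x => F x * (f' x - fh x)) := by
      rw [hs, ← av_sub, ← av_sub, ← av_sub, ← av_add]
      exact av_congr (fun x => by rw [hF]; ring)
    have e2 : (av (fun x => F x * (f' x - fh x))) ^ 2 ≤ s * (3 * η) := by
      refine (av_cs F (fun x => f' x - fh x)).trans ?_
      refine mul_le_mul_of_nonneg_left ?_ hs0
      refine (av_mono (fun x => ?_)).trans hcon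
      have b1 : 0 ≤ f' x - fh x := by
        have := min_le_left (f' x) 1
        rw [hfh]; simp only; linarith
      have b2 : f' x - fh x ≤ |ν' x - 1| := by
        rw [hfh]; simp only
        rcases le_total (f' x) 1 with h | h
        · rw [min_eq_left h, sub_self]; exact abs_nonneg _
        · rw [min_eq_right h]
          exact (sub_le_sub_right (hfν x) 1).trans (le_abs_self _)
      calc (f' x - fh x) ^ 2 ≤ |ν' x - 1| ^ 2 := pow_le_pow_left₀ b1 b2 2
        _ = (ν' x - 1) ^ 2 := sq_abs _
    have e3 : av (fun x => F x * (f' x - fh x)) ≤ (s + 3 * η) / 2 := by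
      have : (av (fun x => F x * (f' x - fh x))) ^ 2 ≤ ((s + 3 * η) / 2) ^ 2 := by nlinarith [sq_nonneg (s - 3 * η)]
      exact (le_abs_self _).trans (abs_le_of_sq_le_sq this (by positivity))
    have e4 := (abs_le.mp hd1).2
    have e5 := (abs_le.mp hd2).1
    linarith
  -- (4)
  have h4 : av (fun x => ν (psi a j x) * F x ^ 2) ≤ s + 4 * β := by
    have hfb : ∀ i, |f i| ≤ 1 + ν i := fun i => by
      rw [abs_of_nonneg (hf i).1]; linarith [(hf i).2]
    have hgb : ∀ i, |g i| ≤ 1 + ν i := fun i => by
      rw [abs_of_nonneg (hg i).1]; linarith [(hg i).2, hν0 i]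
    have a1 := (abs_le.mp (four a ν β hν0 hβ D j hj u hu f f hfb hfb)).2
    have a2 := (abs_le.mp (four a ν β hν0 hβ D j hj u hu f g hfb hgb)).1
    have a3 := (abs_le.mp (four a ν β hν0 hβ D j hj u hu g f hgb hfb)).1
    have a4 := (abs_le.mp (four a ν β hν0 hβ D j hj u hu g g hgb hgb)).2
    have e1 : av (fun x => ν (psi a j x) * F x ^ 2) = s
        + (av (fun x => (ν (psi a j x) - 1) * (f' x * f' x)) - av (fun x => (ν (psi a j x) - 1) * (f' x * g' x))
          - av (fun x => (ν (psi a j x) - 1) * (g' x * f' x)) + av (fun x => (ν (psi a j x) - 1) * (g' x * g' x))) := by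
      rw [hs, ← av_sub, ← av_sub, ← av_add, ← av_add]
      exact av_congr (fun x => by rw [hF]; ring)
    rw [e1]
    linarith
  -- (3)
  have h3 : (av (fun x => f (psi a j x) * F x)) ^ 2 ≤ 8 * e + 6 * η + 8 * β := by
    have b1 : |av (fun x => f (psi a j x) * F x)| ≤ av (fun x => ν (psi a j x) * |F x|) :=
      abs_av_le_of (fun x => by
        rw [abs_mul, abs_of_nonneg (hf _).1]
        exact mul_le_mul_of_nonneg_right (hf _).2 (abs_nonneg _))
    have b2 := av_cs_weight (W := fun x : Fin k → ZMod N => ν (psi a j x)) (f := fun x => |F x|) (fun x => hν0 _)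
    simp only [sq_abs] at b2
    have b3 := av_nu a ν η hLF j
    have b4 : 0 ≤ av (fun x : Fin k → ZMod N => ν (psi a j x)) := av_nonneg (fun x => hν0 _)
    have b5 : 0 ≤ av (fun x => ν (psi a j x) * F x ^ 2) := av_nonneg (fun x => mul_nonneg (hν0 _) (sq_nonneg _))
    have b6 : (av (fun x => f (psi a j x) * F x)) ^ 2 ≤ (av (fun x => ν (psi a j x) * |F x|)) ^ 2 := by
      rw [← sq_abs]
      exact pow_le_pow_left₀ (abs_nonneg _) b1 2
    calc (av (fun x => f (psi a j x) * F x)) ^ 2
        ≤ av (fun x : Fin k → ZMod N => ν (psi a j x)) * av (fun x => ν (psi a j x) * F x ^ 2) := b6.trans b2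
      _ ≤ 2 * av (fun x => ν (psi a j x) * F x ^ 2) := mul_le_mul_of_nonneg_right (by linarith) b5
      _ ≤ 2 * (s + 4 * β) := by linarith
      _ ≤ 8 * e + 6 * η + 8 * β := by linarith
  have h6 : |av (fun x => f (psi a j x) * F x)| ≤ Real.sqrt (8 * e + 6 * η + 8 * β) := Real.abs_le_sqrt h3
  rw [hdec]
  calc |av (fun x => f (psi a j x) * F x) + av (fun x => (f (psi a j x) - g (psi a j x)) * g' x)|
      ≤ |av (fun x => f (psi a j x) * F x)| + |av (fun x => (f (psi a j x) - g (psi a j x)) * g' x)| := abs_add_le _ _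
    _ ≤ ε + Real.sqrt (8 * e + 6 * η + 8 * β) := by linarith

end

end Pool.Agent.Lib.MP_3efbeb_nt.ER.RS
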