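import Pool.Agent.Lib.MP_3efbeb_nt.ER.RS.Spec
import Pool.Agent.Lib.MP_3efbeb_nt.ER.RS.AV

/-!
# MP_3efbeb_nt, ER, RS: CON
-/

set_option autoImplicit false

namespace Pool.Agent.Lib.MP_3efbeb_nt.ER.RS

open Finset

noncomputable section

namespace CONM

variable {k N : ℕ} [NeZero N]

/-- the product of the values of `ν` at the forms in `I` -/
def PP (a : Fin k → ZMod N) (ν : ZMod N → ℝ) (I : Finset (Fin k)) (x : Fin k → ZMod N) : ℝ :=
  ∏ i ∈ I, ν (psi a i x)

theorem av_PP (a : Fin k → ZMod N) (ν : ZMod N → ℝ) (I : Finset (Fin k)) :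
    av (PP a ν I) = av (prT a ν (I ×ˢ {z0})) := by
  rw [← av_pt z0 (PP a ν I)]
  refine av_congr fun X => ?_
  unfold PP prT
  rw [Finset.prod_product]
  exact Finset.prod_congr rfl fun i _ => by rw [Finset.prod_singleton]

theorem z0_ne_ej (j : Fin k) : (z0 : Fin k → Bool) ≠ ej j true := by
  intro h
  have := congrFun h j
  simp [z0, ej] at this

theorem av_PP2 (a : Fin k → ZMod N) (ν : ZMod N → ℝ) (I : Finset (Fin k)) (j : Fin k) :
    av (fun x => (av (fun v => PP a ν I (Function.update x j v))) ^ 2) =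
      av (prT a ν (I ×ˢ {z0, ej j true})) := by
  have h := av_dbl j (fun _ => (1 : ℝ)) (PP a ν I) (PP a ν I) (fun _ _ => rfl)
  have h1 : av (fun x => (av (fun v => PP a ν I (Function.update x j v))) ^ 2) =
      av (fun x => (1 : ℝ) * (av (fun v => PP a ν I (Function.update x j v)) *
        av (fun v => PP a ν I (Function.update x j v)))) :=
    av_congr fun x => by ring
  rw [h1, h]
  refine av_congr fun X => ?_
  unfold PP prT
  rw [Finset.prod_product, one_mul, ← Finset.prod_mul_distrib]
  exact Finset.prod_congr rfl fun i _ => by rw [Finset.prod_pair (z0_ne_ej j)]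

end CONM

open CONM

theorem specCON : SpecCON := by
  intro k N _ a ν η hLF j I hj
  have hA1 : Adm (I ×ˢ ({z0} : Finset (Fin k → Bool))) := by
    intro q hq
    rw [Finset.mem_product, Finset.mem_singleton] at hq
    rw [hq.2]
    rfl
  have hA2 : Adm (I ×ˢ ({z0, ej j true} : Finset (Fin k → Bool))) := by
    intro q hq
    rw [Finset.mem_product, Finset.mem_insert, Finset.mem_singleton] at hq
    rcases hq.2 with h | h
    · rw [h]; rfl
    · rw [h]
      have hne : q.1 ≠ j := fun he => hj (he ▸ hq.1)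
      unfold ej
      rw [Function.update_of_ne hne]
      rfl
  have h1 := abs_le.mp (hLF _ hA1)
  have h2 := abs_le.mp (hLF _ hA2)
  have e1 : av (fun x : Fin k → ZMod N => av (fun v => PP a ν I (Function.update x j v))) =
      av (prT a ν (I ×ˢ {z0})) := by
    rw [← av_update j (PP a ν I)]
    exact av_PP a ν I
  have e2 := av_PP2 a ν I j
  have key : av (fun x : Fin k → ZMod N =>
      (av (fun v => PP a ν I (Function.update x j v)) - 1) ^ 2) =
      av (prT a ν (I ×ˢ {z0, ej j true})) - 2 * av (prT a ν (I ×ˢ {z0})) + 1 := by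
    rw [← e1, ← e2, ← av_mul_left, ← av_sub]
    have h3 : (1 : ℝ) = av (fun _ : Fin k → ZMod N => (1 : ℝ)) := (av_const 1).symm
    conv_rhs => rw [h3]
    rw [← av_add]
    exact av_congr fun x => by ring
  show av (fun x : Fin k → ZMod N =>
      (av (fun v => PP a ν I (Function.update x j v)) - 1) ^ 2) ≤ 3 * η
  rw [key]
  linarith [h1.1, h1.2, h2.1, h2.2]

end

end Pool.Agent.Lib.MP_3efbeb_nt.ER.RS
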