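import Pool.Agent.Lib.MP_3efbeb_nt.ER.RS.Spec
import Pool.Agent.Lib.MP_3efbeb_nt.ER.RS.AV

/-!
# MP_3efbeb_nt, ER, RS, module CS1 (helper5): one weighted Cauchy-Schwarz step
-/

set_option autoImplicit false

namespace Pool.Agent.Lib.MP_3efbeb_nt.ER.RS

open Finset

noncomputable section

namespace CS1H5

/-- the mean over two copies -/
theorem av_bool {V : Type} [Fintype V] [Nonempty V] (g : V → V → ℝ) :
    av (fun c : Bool → V => g (c false) (c true)) = av (fun u : V => av (fun v : V => g u v)) := by
  have h := av_equiv (Equiv.boolArrowEquivProd V) (fun q : V × V => g q.1 q.2)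
  rw [av_prod] at h
  exact h

end CS1H5

theorem specCS1H5 : SpecCS1 := by
  intro k V _ _ i U W R hU hW hR hUW
  set r : (Fin k → Bool → V) → ℝ := fun X => av (fun v : V => R (Function.update X i (fun _ => v))) with hr
  have hW0 : ∀ X, 0 ≤ W X := fun X => (abs_nonneg _).trans (hUW X)
  have hRc : ∀ X (c : Bool → V), R (Function.update X i c) = R (Function.update X i (fun _ => c false)) :=
    fun X c => hR X _ _ rfl
  have hin : ∀ X, av (fun c : Bool → V => R (Function.update X i c)) = r X := by
    intro X
    have h0 : (fun c : Bool → V => R (Function.update X i c))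
        = fun c => (fun (u _ : V) => R (Function.update X i (fun _ => u))) (c false) (c true) := by
      funext c
      exact hRc X c
    rw [h0, CS1H5.av_bool (fun (u _ : V) => R (Function.update X i (fun _ => u)))]
    exact av_congr fun u => av_const _
  have h1 : av (fun X => U X * R X) = av (fun X => U X * r X) := by
    rw [av_pull i U R hU]
    exact av_congr fun X => by rw [hin]
  have h2 : av (fun X => W X * (R X * R (sw i X))) = av (fun X => W X * r X ^ 2) := by
    rw [av_pull i W (fun X => R X * R (sw i X)) hW]
    refine av_congr fun X => ?_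
    congr 1
    have hsw : ∀ c : Bool → V, sw i (Function.update X i c) = Function.update X i (fun b => c (!b)) := by
      intro c
      unfold sw
      rw [Function.update_idem]
      simp
    have h0 : ∀ c : Bool → V, R (Function.update X i c) * R (sw i (Function.update X i c))
        = R (Function.update X i (fun _ => c false)) * R (Function.update X i (fun _ => c true)) := by
      intro c
      rw [hsw, hRc X c, hRc X (fun b => c (!b))]
      rfl
    simp only [h0]
    rw [CS1H5.av_bool (fun u v => R (Function.update X i (fun _ => u)) * R (Function.update X i (fun _ => v))),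
      ← av_mul_av, sq]
  rw [h1, h2]
  have h3 : |av (fun X => U X * r X)| ≤ av (fun X => W X * |r X|) :=
    abs_av_le_of fun X => by
      rw [abs_mul]
      exact mul_le_mul_of_nonneg_right (hUW X) (abs_nonneg _)
  calc (av (fun X => U X * r X)) ^ 2 = |av (fun X => U X * r X)| ^ 2 := (sq_abs _).symm
    _ ≤ (av (fun X => W X * |r X|)) ^ 2 := pow_le_pow_left₀ (abs_nonneg _) h3 2
    _ ≤ av W * av (fun X => W X * |r X| ^ 2) := av_cs_weight hW0
    _ = av W * av (fun X => W X * r X ^ 2) := by simp only [sq_abs]

end

end Pool.Agent.Lib.MP_3efbeb_nt.ER.RS
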