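import Mathlib

/-!
# MP_3efbeb_nt, ER/RS: abstract dense model theorem (helper53)

`core`: for every `ε > 0` there is `η > 0` such that for every finite nonempty `Z` and every family `Φ` of functions
`Z → [-1, 1]` containing `1` and such that `|⟨F, φ φ'⟩| ≤ t` whenever `|⟨F, ·⟩| ≤ t` on `Φ`: if `0 ≤ f ≤ ν` and
`|⟨ν - 1, ·⟩| ≤ η` on `Φ`, then there is `g : Z → [0, 1]` with `|⟨f - g, ·⟩| ≤ ε` on `Φ`.
-/

set_option autoImplicit false

namespace Pool.Agent.Lib.MP_3efbeb_nt.ER.RS

open Finset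
open scoped Classical

noncomputable section

namespace DMTM

universe u

/-- normalised inner product -/
def ip {Z : Type u} [Fintype Z] (F φ : Z → ℝ) : ℝ := (∑ z, F z * φ z) / (Fintype.card Z : ℝ)

/-- `|⟨F, φ⟩| ≤ t` for all `φ` in the family -/
def Bx {Z : Type u} [Fintype Z] (Φ : Set (Z → ℝ)) (F : Z → ℝ) (t : ℝ) : Prop := ∀ φ ∈ Φ, |ip F φ| ≤ t

section basic
variable {Z : Type u} [Fintype Z]

lemma ip_add_left (F G φ : Z → ℝ) : ip (fun z => F z + G z) φ = ip F φ + ip G φ := by
  unfold ip; rw [← add_div, ← Finset.sum_add_distrib]; congr 1; exact Finset.sum_congr rfl (fun z _ => by ring)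

lemma ip_sub_left (F G φ : Z → ℝ) : ip (fun z => F z - G z) φ = ip F φ - ip G φ := by
  unfold ip; rw [← sub_div, ← Finset.sum_sub_distrib]; congr 1; exact Finset.sum_congr rfl (fun z _ => by ring)

lemma ip_smul_left (a : ℝ) (F φ : Z → ℝ) : ip (fun z => a * F z) φ = a * ip F φ := by
  unfold ip; rw [← mul_div_assoc, Finset.mul_sum]; congr 1; exact Finset.sum_congr rfl (fun z _ => by ring)

lemma ip_smul_right (a : ℝ) (F φ : Z → ℝ) : ip F (fun z => a * φ z) = a * ip F φ := by
  unfold ip; rw [← mul_div_assoc, Finset.mul_sum]; congr 1; exact Finset.sum_congr rfl (fun z _ => by ring)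

lemma ip_mono [Nonempty Z] {F G φ γ : Z → ℝ} (h : ∀ z, F z * φ z ≤ G z * γ z) : ip F φ ≤ ip G γ := by
  unfold ip
  have hc : (0 : ℝ) < (Fintype.card Z : ℝ) := by exact_mod_cast Fintype.card_pos
  exact div_le_div_of_nonneg_right (Finset.sum_le_sum (fun z _ => h z)) hc.le

lemma abs_ip_le [Nonempty Z] {F φ : Z → ℝ} : |ip F φ| ≤ ip (fun z => |F z|) (fun z => |φ z|) := by
  unfold ip
  have hc : (0 : ℝ) < (Fintype.card Z : ℝ) := by exact_mod_cast Fintype.card_pos
  rw [abs_div, abs_of_pos hc]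
  gcongr
  refine (Finset.abs_sum_le_sum_abs _ _).trans ?_
  exact Finset.sum_le_sum (fun z _ => by rw [abs_mul])

lemma ip_sum_right {ι : Type*} (s : Finset ι) (F : Z → ℝ) (φ : ι → Z → ℝ) :
    ip F (fun z => ∑ i ∈ s, φ i z) = ∑ i ∈ s, ip F (φ i) := by
  unfold ip
  rw [← Finset.sum_div]
  congr 1
  rw [Finset.sum_comm]
  exact Finset.sum_congr rfl (fun z _ => by rw [Finset.mul_sum])

end basic

/-- separation step -/
lemma sep {Z : Type u} [Fintype Z] [Nonempty Z] (Φ : Set (Z → ℝ)) (h1 : (fun _ => (1 : ℝ)) ∈ Φ)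
    (f : Z → ℝ) (ε : ℝ) (hε : 0 < ε)
    (hno : ¬ ∃ g : Z → ℝ, (∀ z, 0 ≤ g z ∧ g z ≤ 1) ∧ Bx Φ (fun z => f z - g z) ε) :
    ∃ ψ : Z → ℝ, (∀ k t, Bx Φ k t → |ip k ψ| ≤ t) ∧
      ∀ g : Z → ℝ, (∀ z, 0 ≤ g z ∧ g z ≤ 1) → ip g ψ + ε ≤ ip f ψ := by
  have hcard : (0 : ℝ) < (Fintype.card Z : ℝ) := by exact_mod_cast Fintype.card_pos
  set s : Set (Z → ℝ) := Set.Icc 0 1 with hs
  set T : Set (Z → ℝ) := {h | Bx Φ (fun z => f z - h z) ε} with hT
  have hsc : Convex ℝ s := convex_Icc _ _
  have hsk : IsCompact s := isCompact_Icc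
  have hTc : Convex ℝ T := by
    intro x hx y hy a b ha hb hab φ hφ
    have e : ip (fun z => f z - (a • x + b • y) z) φ
        = a * ip (fun z => f z - x z) φ + b * ip (fun z => f z - y z) φ := by
      rw [← ip_smul_left, ← ip_smul_left, ← ip_add_left]
      congr 1
      funext z
      simp only [Pi.add_apply, Pi.smul_apply, smul_eq_mul]
      have : f z = (a + b) * f z := by rw [hab, one_mul]
      linear_combination this
    rw [e]
    have e1 := hx φ hφ
    have e2 := hy φ hφ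
    calc |a * ip (fun z => f z - x z) φ + b * ip (fun z => f z - y z) φ|
        ≤ |a * ip (fun z => f z - x z) φ| + |b * ip (fun z => f z - y z) φ| := abs_add_le _ _
      _ = a * |ip (fun z => f z - x z) φ| + b * |ip (fun z => f z - y z) φ| := by
          rw [abs_mul, abs_mul, abs_of_nonneg ha, abs_of_nonneg hb]
      _ ≤ a * ε + b * ε := by gcongr
      _ = ε := by rw [← add_mul, hab, one_mul]
  have hTcl : IsClosed T := by
    have : T = ⋂ φ ∈ Φ, {h : Z → ℝ | |ip (fun z => f z - h z) φ| ≤ ε} := by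
      ext h
      simp only [hT, Set.mem_ofPred_eq, Set.mem_iInter, Bx]
    rw [this]
    refine isClosed_biInter (fun φ _ => ?_)
    refine isClosed_le ?_ continuous_const
    unfold ip
    fun_prop
  have hdisj : Disjoint s T := by
    rw [Set.disjoint_left]
    intro g hg hgT
    refine hno ⟨g, fun z => ⟨?_, ?_⟩, hgT⟩
    · exact hg.1 z
    · exact hg.2 z
  obtain ⟨L, u, v, hu, huv, hv⟩ := geometric_hahn_banach_compact_closed hsc hsk hTc hTcl hdisj
  set ψ0 : Z → ℝ := fun z => L (Pi.single z 1) * (Fintype.card Z : ℝ) with hψ0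
  have hL : ∀ h : Z → ℝ, L h = ip h ψ0 := by
    intro h
    have e : h = ∑ z, h z • (Pi.single z (1 : ℝ) : Z → ℝ) := by
      funext w
      simp [Finset.sum_apply, Pi.single_apply]
    conv_lhs => rw [e]
    rw [map_sum]
    unfold ip
    rw [Finset.sum_div]
    refine Finset.sum_congr rfl (fun z _ => ?_)
    rw [map_smul, smul_eq_mul, hψ0]
    field_simp
  have hfT : f ∈ T := by
    intro φ hφ
    have : ip (fun z => f z - f z) φ = 0 := by
      unfold ip; simp
    rw [this, abs_zero]; exact hε.le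
  set c : ℝ := L f - v with hc
  have hcpos : 0 < c := by have := hv f hfT; rw [hc]; linarith
  have hk1 : ∀ k : Z → ℝ, Bx Φ k ε → L k < c := by
    intro k hk
    have : (fun z => f z - k z) ∈ T := by
      intro φ hφ
      have e : (fun z => f z - (f z - k z)) = k := by funext z; ring
      simp only [e]
      exact hk φ hφ
    have h2 := hv _ this
    have e : L (fun z => f z - k z) = L f - L k := by
      rw [← map_sub]; rfl
    rw [e] at h2
    rw [hc]; linarith
  have hk2 : ∀ k : Z → ℝ, Bx Φ k ε → |L k| < c := by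
    intro k hk
    rw [abs_lt]
    refine ⟨?_, hk1 k hk⟩
    have : Bx Φ (fun z => - k z) ε := by
      intro φ hφ
      have e : ip (fun z => - k z) φ = - ip k φ := by
        unfold ip
        rw [← neg_div, ← Finset.sum_neg_distrib]
        congr 1
        exact Finset.sum_congr rfl (fun z _ => by ring)
      rw [e, abs_neg]; exact hk φ hφ
    have h3 := hk1 _ this
    have e : L (fun z => - k z) = - L k := by
      rw [← map_neg]; rfl
    rw [e] at h3
    linarith
  refine ⟨fun z => (ε / c) * ψ0 z, ?_, ?_⟩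
  · intro k t hkt
    have ht0 : 0 ≤ t := le_trans (abs_nonneg _) (hkt _ h1)
    rw [ip_smul_right, ← hL, abs_mul, abs_of_pos (div_pos hε hcpos)]
    refine le_of_forall_gt_imp_ge_of_dense ?_
    intro τ hτ
    have hτ0 : 0 < τ := lt_of_le_of_lt ht0 hτ
    have hb : Bx Φ (fun z => (ε / τ) * k z) ε := by
      intro φ hφ
      rw [ip_smul_left, abs_mul, abs_of_pos (div_pos hε hτ0)]
      have := hkt φ hφ
      calc ε / τ * |ip k φ| ≤ ε / τ * τ := by
            have := this.trans hτ.le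
            gcongr
        _ = ε := by field_simp
    have h4 := hk2 _ hb
    have e : L (fun z => (ε / τ) * k z) = (ε / τ) * L k := by
      rw [← smul_eq_mul, ← map_smul]; rfl
    rw [e, abs_mul, abs_of_pos (div_pos hε hτ0)] at h4
    rw [div_mul_eq_mul_div, div_le_iff₀ hcpos]
    rw [div_mul_eq_mul_div, div_lt_iff₀ hτ0] at h4
    nlinarith
  · intro g hg
    have hgs : g ∈ s := ⟨fun z => (hg z).1, fun z => (hg z).2⟩
    have h5 := hu g hgs
    rw [ip_smul_right, ip_smul_right, ← hL, ← hL]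
    have h6 : L g + c ≤ L f := by rw [hc]; linarith
    have h7 : ε / c * (L g + c) ≤ ε / c * L f := by
      have := (div_pos hε hcpos).le
      gcongr
    have h8 : ε / c * c = ε := by field_simp
    rw [mul_add, h8] at h7
    exact h7

/-- powers of the separating function -/
lemma pow_bound {Z : Type u} [Fintype Z] [Nonempty Z] (Φ : Set (Z → ℝ)) (h1 : (fun _ => (1 : ℝ)) ∈ Φ)
    (h3 : ∀ F t, Bx Φ F t → ∀ φ ∈ Φ, ∀ φ' ∈ Φ, |ip F (fun z => φ z * φ' z)| ≤ t)
    (ψ : Z → ℝ) (hψ : ∀ k t, Bx Φ k t → |ip k ψ| ≤ t) (K : ℕ) :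
    ∀ F t, Bx Φ F t → |ip F (fun z => ψ z ^ K)| ≤ t := by
  induction K with
  | zero =>
    intro F t hF
    simpa using hF _ h1
  | succ K ih =>
    intro F t hF
    have hB : Bx Φ (fun z => F z * ψ z ^ K) t := by
      intro φ hφ
      have hB' : Bx Φ (fun z => F z * φ z) t := by
        intro φ' hφ'
        have := h3 F t hF φ hφ φ' hφ'
        have e : ip (fun z => F z * φ z) φ' = ip F (fun z => φ z * φ' z) := by
          unfold ip; congr 1; exact Finset.sum_congr rfl (fun z _ => by ring)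
        rw [e]; exact this
      have := ih _ _ hB'
      have e : ip (fun z => F z * ψ z ^ K) φ = ip (fun z => F z * φ z) (fun z => ψ z ^ K) := by
        unfold ip; congr 1; exact Finset.sum_congr rfl (fun z _ => by ring)
      rw [e]; exact this
    have := hψ _ _ hB
    have e : ip F (fun z => ψ z ^ (K + 1)) = ip (fun z => F z * ψ z ^ K) ψ := by
      unfold ip; congr 1; exact Finset.sum_congr rfl (fun z _ => by ring)
    rw [e]; exact this

/-- DMT, abstract form. -/
theorem core (ε : ℝ) (hε : 0 < ε) : ∃ η : ℝ, 0 < η ∧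
    ∀ (Z : Type u) [Fintype Z] [Nonempty Z] (Φ : Set (Z → ℝ)), (fun _ => (1 : ℝ)) ∈ Φ →
      (∀ φ ∈ Φ, ∀ z, |φ z| ≤ 1) →
      (∀ F t, Bx Φ F t → ∀ φ ∈ Φ, ∀ φ' ∈ Φ, |ip F (fun z => φ z * φ' z)| ≤ t) →
      ∀ ν f : Z → ℝ, (∀ z, 0 ≤ f z) → (∀ z, f z ≤ ν z) → Bx Φ (fun z => ν z - 1) η →
        ∃ g : Z → ℝ, (∀ z, 0 ≤ g z ∧ g z ≤ 1) ∧ Bx Φ (fun z => f z - g z) ε := by
  obtain ⟨P, hP⟩ := exists_polynomial_near_of_continuousOn (-1) 1 (fun x => max x 0)
    (by fun_prop) (ε / 8) (by positivity)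
  set CP : ℝ := ∑ i ∈ Finset.range (P.natDegree + 1), |P.coeff i| with hCP
  have hCP0 : 0 ≤ CP := Finset.sum_nonneg (fun i _ => abs_nonneg _)
  set η : ℝ := min 1 (ε / (4 * (CP + 1))) with hη
  have hη0 : 0 < η := lt_min one_pos (by positivity)
  have hη1 : η ≤ 1 := min_le_left _ _
  have hη2 : η * CP ≤ ε / 4 := by
    have h := min_le_right 1 (ε / (4 * (CP + 1)))
    rw [← hη] at h
    calc η * CP ≤ (ε / (4 * (CP + 1))) * (CP + 1) := by
          have : CP ≤ CP + 1 := by linarith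
          gcongr
      _ = ε / 4 := by field_simp
  refine ⟨η, hη0, ?_⟩
  intro Z _ _ Φ h1 h2 h3 ν f hf0 hfν hν
  by_contra hno
  obtain ⟨ψ, hψ1, hψ2⟩ := sep Φ h1 f ε hε hno
  have hcard : (0 : ℝ) < (Fintype.card Z : ℝ) := by exact_mod_cast Fintype.card_pos
  -- |ψ| ≤ 1
  have hψb : ∀ z, |ψ z| ≤ 1 := by
    intro z
    have hB : Bx Φ (fun w => if w = z then (Fintype.card Z : ℝ) else 0) 1 := by
      intro φ hφ
      have e : ip (fun w => if w = z then (Fintype.card Z : ℝ) else 0) φ = φ z := by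
        unfold ip
        simp only [ite_mul, zero_mul, Finset.sum_ite_eq', Finset.mem_univ, if_true]
        field_simp
      rw [e]; exact h2 φ hφ z
    have h := hψ1 _ _ hB
    have e : ip (fun w => if w = z then (Fintype.card Z : ℝ) else 0) ψ = ψ z := by
      unfold ip
      simp only [ite_mul, zero_mul, Finset.sum_ite_eq', Finset.mem_univ, if_true]
      field_simp
    rwa [e] at h
  -- gap
  have hgap : ε ≤ ip (fun z => ν z - 1) (fun z => max (ψ z) 0) := by
    have hg := hψ2 (fun z => if 0 ≤ ψ z then 1 else 0) (fun z => by split_ifs <;> norm_num)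
    have e1 : ip (fun z => if 0 ≤ ψ z then (1 : ℝ) else 0) ψ = ip (fun _ => (1 : ℝ)) (fun z => max (ψ z) 0) := by
      unfold ip; congr 1
      refine Finset.sum_congr rfl (fun z _ => ?_)
      by_cases h : 0 ≤ ψ z
      · simp [h]
      · push Not at h
        simp [not_le.mpr h, max_eq_right h.le]
    have e2 : ip f ψ ≤ ip ν (fun z => max (ψ z) 0) := by
      refine ip_mono (fun z => ?_)
      have a1 : f z * ψ z ≤ f z * max (ψ z) 0 := mul_le_mul_of_nonneg_left (le_max_left _ _) (hf0 z)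
      have a2 : f z * max (ψ z) 0 ≤ ν z * max (ψ z) 0 := mul_le_mul_of_nonneg_right (hfν z) (le_max_right _ _)
      linarith
    have e3 : ip (fun z => ν z - 1) (fun z => max (ψ z) 0)
        = ip ν (fun z => max (ψ z) 0) - ip (fun _ => (1 : ℝ)) (fun z => max (ψ z) 0) :=
      ip_sub_left ν (fun _ => 1) _
    rw [e3]
    rw [e1] at hg
    linarith
  -- polynomial part
  have hpoly : |ip (fun z => ν z - 1) (fun z => P.eval (ψ z))| ≤ η * CP := by
    have e : (fun z => P.eval (ψ z)) = fun z => ∑ i ∈ Finset.range (P.natDegree + 1), P.coeff i * ψ z ^ i := by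
      funext z; rw [Polynomial.eval_eq_sum_range]
    rw [e, ip_sum_right]
    refine (Finset.abs_sum_le_sum_abs _ _).trans ?_
    rw [hCP, Finset.mul_sum]
    refine Finset.sum_le_sum (fun i _ => ?_)
    rw [ip_smul_right, abs_mul, mul_comm]
    have := pow_bound Φ h1 h3 ψ hψ1 i _ _ hν
    gcongr
  -- error part
  have hone : ip (fun z => ν z - 1) (fun _ => (1 : ℝ)) ≤ η := (abs_le.mp (hν _ h1)).2
  have h11 : ip (fun _ : Z => (1 : ℝ)) (fun _ => (1 : ℝ)) = 1 := by
    unfold ip; simp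
  have hνm : ip ν (fun _ => (1 : ℝ)) ≤ 2 := by
    have e := ip_sub_left ν (fun _ => (1 : ℝ)) (fun _ => (1 : ℝ))
    rw [e, h11] at hone
    linarith
  have herr : |ip (fun z => ν z - 1) (fun z => max (ψ z) 0 - P.eval (ψ z))| ≤ (ε / 8) * 3 := by
    refine abs_ip_le.trans ?_
    have hν0 : ∀ z, 0 ≤ ν z := fun z => (hf0 z).trans (hfν z)
    have a1 : ip (fun z => |ν z - 1|) (fun z => |max (ψ z) 0 - P.eval (ψ z)|)
        ≤ ip (fun z => ν z + 1) (fun _ => ε / 8) := by
      refine ip_mono (fun z => ?_)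
      have b1 : |ν z - 1| ≤ ν z + 1 := by
        rw [abs_le]; constructor <;> linarith [hν0 z]
      have b2 : |max (ψ z) 0 - P.eval (ψ z)| ≤ ε / 8 := by
        have hz := hψb z
        rw [abs_le] at hz
        have := hP (ψ z) ⟨hz.1, hz.2⟩
        rw [abs_sub_comm]; exact this.le
      have := hν0 z
      gcongr
    refine a1.trans ?_
    have a2 : ip (fun z => ν z + 1) (fun _ => ε / 8) = (ε / 8) * (ip ν (fun _ => (1 : ℝ)) + 1) := by
      have e : (fun _ : Z => ε / 8) = fun _ => (ε / 8) * 1 := by funext; ring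
      rw [e, ip_smul_right, ip_add_left, h11]
    rw [a2]
    have : ip ν (fun _ => (1 : ℝ)) + 1 ≤ 3 := by linarith
    gcongr
  have hsplit : ip (fun z => ν z - 1) (fun z => max (ψ z) 0)
      = ip (fun z => ν z - 1) (fun z => P.eval (ψ z))
        + ip (fun z => ν z - 1) (fun z => max (ψ z) 0 - P.eval (ψ z)) := by
    unfold ip
    rw [← add_div, ← Finset.sum_add_distrib]
    congr 1
    exact Finset.sum_congr rfl (fun z _ => by ring)
  have c1 := (abs_le.mp hpoly).2
  have c2 := (abs_le.mp herr).2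
  rw [hsplit] at hgap
  linarith

end DMTM

end

end Pool.Agent.Lib.MP_3efbeb_nt.ER.RS
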