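import Pool.Agent.Lib.MP_3efbeb_nt.ER.RS.Spec
import Pool.Agent.Lib.MP_3efbeb_nt.ER.RS.AV
import Pool.Agent.Lib.MP_3efbeb_nt.ER.RS.DMTCore

/-!
# MP_3efbeb_nt, ER/RS: dense model theorem for the cut norm `Box` (helper53)
-/

set_option autoImplicit false

namespace Pool.Agent.Lib.MP_3efbeb_nt.ER.RS

open Finset

noncomputable section

namespace DMTM

variable {N : ℕ} [NeZero N] {m : ℕ}

/-- the fibre of the sum -/
def fib (m N : ℕ) [NeZero N] (b : ZMod N) : Finset (Fin m → ZMod N) :=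
  univ.filter (fun y : Fin m → ZMod N => ∑ i, y i = b)

lemma mem_fib (b : ZMod N) (y : Fin m → ZMod N) : y ∈ fib m N b ↔ ∑ i, y i = b := by
  unfold fib; simp

lemma card_fib_eq (hm : 1 ≤ m) (b c : ZMod N) : (fib m N b).card = (fib m N c).card := by
  refine Finset.card_bij' (fun y _ => y + Pi.single (⟨0, hm⟩ : Fin m) (c - b))
    (fun y _ => y - Pi.single (⟨0, hm⟩ : Fin m) (c - b)) ?_ ?_ ?_ ?_
  · intro y hy
    rw [mem_fib] at hy ⊢
    simp only [Pi.add_apply, Finset.sum_add_distrib, hy, Finset.sum_pi_single', Finset.mem_univ, if_true]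
    ring
  · intro y hy
    rw [mem_fib] at hy ⊢
    simp only [Pi.sub_apply, Finset.sum_sub_distrib, hy, Finset.sum_pi_single', Finset.mem_univ, if_true]
    ring
  · intro y _; simp
  · intro y _; simp

lemma card_fib (hm : 1 ≤ m) (b : ZMod N) : ((fib m N b).card : ℝ) = (N : ℝ) ^ (m - 1) := by
  have h1 : ∑ c : ZMod N, (fib m N c).card = Fintype.card (Fin m → ZMod N) := by
    rw [← Finset.card_univ]
    exact (Finset.card_eq_sum_card_fiberwise (f := fun y : Fin m → ZMod N => ∑ i, y i)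
      (t := (univ : Finset (ZMod N))) (fun _ _ => by simp)).symm
  have h2 : ∑ c : ZMod N, (fib m N c).card = N * (fib m N b).card := by
    rw [Finset.sum_congr rfl (fun c _ => card_fib_eq hm c b), Finset.sum_const, Finset.card_univ, ZMod.card,
      smul_eq_mul]
  have h3 : Fintype.card (Fin m → ZMod N) = N ^ m := by
    rw [Fintype.card_fun, ZMod.card, Fintype.card_fin]
  have hN : 0 < N := Nat.pos_of_ne_zero (NeZero.ne N)
  have h4 : N * (fib m N b).card = N * N ^ (m - 1) := by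
    rw [← h2, h1, h3]
    conv_lhs => rw [show m = (m - 1) + 1 by omega]
    rw [pow_succ]; ring
  have h5 := Nat.eq_of_mul_eq_mul_left hN h4
  rw [h5]; push_cast; rfl

lemma Npow_pos (m : ℕ) : (0 : ℝ) < (N : ℝ) ^ m := by
  have hN : 0 < N := Nat.pos_of_ne_zero (NeZero.ne N)
  have : (0 : ℝ) < (N : ℝ) := by exact_mod_cast hN
  positivity

/-- admissible families -/
def Good (u : Fin m → (Fin m → ZMod N) → ℝ) : Prop :=
  (∀ i, Ind i (u i)) ∧ ∀ i y, 0 ≤ u i y ∧ u i y ≤ 1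

lemma prod_mem (u : Fin m → (Fin m → ZMod N) → ℝ) (hu : Good u) (y : Fin m → ZMod N) :
    0 ≤ ∏ i, u i y ∧ ∏ i, u i y ≤ 1 :=
  ⟨Finset.prod_nonneg (fun i _ => (hu.2 i y).1), Finset.prod_le_one (fun i _ => (hu.2 i y).1) (fun i _ => (hu.2 i y).2)⟩

lemma phi_eq (u : Fin m → (Fin m → ZMod N) → ℝ) (b : ZMod N) :
    phi m u b = (∑ y ∈ fib m N b, ∏ i, u i y) / (N : ℝ) ^ (m - 1) := rfl

lemma phi_abs (hm : 1 ≤ m) (u : Fin m → (Fin m → ZMod N) → ℝ) (hu : Good u) (b : ZMod N) : |phi m u b| ≤ 1 := by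
  rw [phi_eq, abs_of_nonneg (div_nonneg (Finset.sum_nonneg (fun y _ => (prod_mem u hu y).1)) (Npow_pos _).le),
    div_le_one (Npow_pos _), ← card_fib hm b]
  calc ∑ y ∈ fib m N b, ∏ i, u i y ≤ ∑ y ∈ fib m N b, (1 : ℝ) :=
        Finset.sum_le_sum (fun y _ => (prod_mem u hu y).2)
    _ = ((fib m N b).card : ℝ) := by simp

lemma phi_one (hm : 1 ≤ m) : phi (N := N) m (fun _ _ => 1) = fun _ => 1 := by
  funext b
  rw [phi_eq]
  simp only [Finset.prod_const_one, Finset.sum_const, nsmul_eq_mul, mul_one]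
  rw [card_fib hm b]
  exact div_self (Npow_pos _).ne'

/-- the mean over `y` as an inner product -/
lemma av_eq_ip (hm : 1 ≤ m) (F : ZMod N → ℝ) (u : Fin m → (Fin m → ZMod N) → ℝ) :
    av (fun y : Fin m → ZMod N => F (∑ i, y i) * ∏ i, u i y) = ip F (phi m u) := by
  unfold av ip
  have h3 : (Fintype.card (Fin m → ZMod N) : ℝ) = (N : ℝ) ^ (m - 1) * (N : ℝ) := by
    rw [Fintype.card_fun, ZMod.card, Fintype.card_fin]
    conv_lhs => rw [show m = (m - 1) + 1 by omega]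
    push_cast
    rw [pow_succ]
  have h4 : ∑ y : Fin m → ZMod N, F (∑ i, y i) * ∏ i, u i y
      = ∑ b : ZMod N, F b * ∑ y ∈ fib m N b, ∏ i, u i y := by
    rw [← Finset.sum_fiberwise (univ : Finset (Fin m → ZMod N)) (fun y => ∑ i, y i)]
    refine Finset.sum_congr rfl (fun b _ => ?_)
    rw [Finset.mul_sum]
    unfold fib
    refine Finset.sum_congr rfl (fun y hy => ?_)
    rw [(Finset.mem_filter.mp hy).2]
  rw [h4, h3, ZMod.card, ← div_div, Finset.sum_div]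
  congr 1
  refine Finset.sum_congr rfl (fun b _ => ?_)
  rw [phi_eq, mul_div_assoc]

/-- the family of test functions -/
def Fam (m N : ℕ) [NeZero N] : Set (ZMod N → ℝ) := {φ | ∃ u : Fin m → (Fin m → ZMod N) → ℝ, Good u ∧ φ = phi m u}

lemma box_iff (hm : 1 ≤ m) (F : ZMod N → ℝ) (t : ℝ) : Box m F t ↔ Bx (Fam m N) F t := by
  constructor
  · rintro h φ ⟨u, hu, rfl⟩
    rw [← av_eq_ip hm]
    exact h u hu.1 hu.2
  · intro h u hu1 hu2
    rw [av_eq_ip hm]
    exact h _ ⟨u, ⟨hu1, hu2⟩, rfl⟩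

/-- the shifted product family -/
def sh (u u' : Fin m → (Fin m → ZMod N) → ℝ) (s : Fin m → ZMod N) : Fin m → (Fin m → ZMod N) → ℝ :=
  fun i y => u i y * u' i (y + s)

lemma sh_good (u u' : Fin m → (Fin m → ZMod N) → ℝ) (hu : Good u) (hu' : Good u') (s : Fin m → ZMod N) :
    Good (sh u u' s) := by
  constructor
  · intro i x v
    unfold sh
    have e : Function.update x i v + s = Function.update (x + s) i (v + s i) := by
      funext l
      by_cases hl : l = i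
      · subst hl; simp
      · simp [Function.update_of_ne hl]
    rw [e, hu.1 i x v, hu'.1 i (x + s) (v + s i)]
  · intro i y
    have h1 := hu.2 i y
    have h2 := hu'.2 i (y + s)
    exact ⟨mul_nonneg h1.1 h2.1, mul_le_one₀ h1.2 h2.1 h2.2⟩

lemma phi_mul (u u' : Fin m → (Fin m → ZMod N) → ℝ) (b : ZMod N) :
    phi m u b * phi m u' b = (∑ s ∈ fib m N 0, phi m (sh u u' s) b) / (N : ℝ) ^ (m - 1) := by
  have h : ∑ s ∈ fib m N 0, phi m (sh u u' s) b
      = ((∑ y ∈ fib m N b, ∏ i, u i y) * ∑ y ∈ fib m N b, ∏ i, u' i y) / (N : ℝ) ^ (m - 1) := by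
    simp only [phi_eq]
    rw [← Finset.sum_div]
    congr 1
    rw [Finset.sum_comm, Finset.sum_mul]
    refine Finset.sum_congr rfl (fun y hy => ?_)
    have e : ∀ s : Fin m → ZMod N, ∏ i, sh u u' s i y = (∏ i, u i y) * ∏ i, u' i (y + s) := by
      intro s; unfold sh; rw [Finset.prod_mul_distrib]
    simp only [e]
    rw [← Finset.mul_sum]
    congr 1
    refine Finset.sum_bij' (fun s _ => y + s) (fun y' _ => y' - y) ?_ ?_ ?_ ?_ ?_
    · intro s hs
      rw [mem_fib] at hs hy ⊢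
      simp only [Pi.add_apply, Finset.sum_add_distrib, hs, hy, add_zero]
    · intro y' hy'
      rw [mem_fib] at hy' hy ⊢
      simp only [Pi.sub_apply, Finset.sum_sub_distrib, hy', hy, sub_self]
    · intro s _; simp
    · intro y' _; simp
    · intro s _; rfl
  rw [h, phi_eq, phi_eq]
  field_simp

lemma prod_closure (hm : 1 ≤ m) (F : ZMod N → ℝ) (t : ℝ) (hF : Bx (Fam m N) F t) :
    ∀ φ ∈ Fam m N, ∀ φ' ∈ Fam m N, |ip F (fun z => φ z * φ' z)| ≤ t := by
  rintro φ ⟨u, hu, rfl⟩ φ' ⟨u', hu', rfl⟩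
  have e : (fun z => phi m u z * phi m u' z)
      = fun z => ((N : ℝ) ^ (m - 1))⁻¹ * ∑ s ∈ fib m N 0, phi m (sh u u' s) z := by
    funext z; rw [phi_mul, div_eq_inv_mul]
  rw [e, ip_smul_right, ip_sum_right, abs_mul, abs_of_pos (inv_pos.mpr (Npow_pos _))]
  have h1 : |∑ s ∈ fib m N 0, ip F (phi m (sh u u' s))| ≤ (N : ℝ) ^ (m - 1) * t := by
    refine (Finset.abs_sum_le_sum_abs _ _).trans ?_
    calc ∑ s ∈ fib m N 0, |ip F (phi m (sh u u' s))| ≤ ∑ s ∈ fib m N 0, t :=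
          Finset.sum_le_sum (fun s _ => hF _ ⟨_, sh_good u u' hu hu' s, rfl⟩)
      _ = (N : ℝ) ^ (m - 1) * t := by rw [Finset.sum_const, nsmul_eq_mul, card_fib hm]
  calc ((N : ℝ) ^ (m - 1))⁻¹ * |∑ s ∈ fib m N 0, ip F (phi m (sh u u' s))|
      ≤ ((N : ℝ) ^ (m - 1))⁻¹ * ((N : ℝ) ^ (m - 1) * t) := by
        have := (inv_pos.mpr (Npow_pos (N := N) (m - 1))).le
        gcongr
    _ = t := by
        have := (Npow_pos (N := N) (m - 1)).ne'
        field_simp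

end DMTM

/-- DMT. The dense model theorem for `Box`. -/
theorem dmt : ∀ m : ℕ, 1 ≤ m → ∀ ε : ℝ, 0 < ε → ∃ η : ℝ, 0 < η ∧ ∀ (N : ℕ) [NeZero N] (ν f : ZMod N → ℝ),
    (∀ x, 0 ≤ f x ∧ f x ≤ ν x) → Box m (fun x => ν x - 1) η →
      ∃ g : ZMod N → ℝ, (∀ x, 0 ≤ g x ∧ g x ≤ 1) ∧ Box m (fun x => f x - g x) ε := by
  intro m hm ε hε
  obtain ⟨η, hη, H⟩ := DMTM.core.{0} ε hε
  refine ⟨η, hη, ?_⟩
  intro N _ ν f hf hν
  obtain ⟨g, hg1, hg2⟩ := H (ZMod N) (DMTM.Fam m N)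
    ⟨fun _ _ => 1, ⟨fun i x v => rfl, fun i y => ⟨zero_le_one, le_refl 1⟩⟩, (DMTM.phi_one hm).symm⟩
    (by
      rintro φ ⟨u, hu, rfl⟩ z
      exact DMTM.phi_abs hm u hu z)
    (fun F t hF => DMTM.prod_closure hm F t hF)
    ν f (fun z => (hf z).1) (fun z => (hf z).2) ((DMTM.box_iff hm _ _).mp hν)
  exact ⟨g, hg1, (DMTM.box_iff hm _ _).mpr hg2⟩

/-- DMT. -/
theorem specDMT : SpecDMT := fun m ε hm hε => dmt m hm ε hε

end

end Pool.Agent.Lib.MP_3efbeb_nt.ER.RS
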