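import Pool.Agent.Lib.MP_3efbeb_nt.ER.RS.Spec
import Pool.Agent.Lib.MP_3efbeb_nt.ER.RS.AV

/-!
# MP_3efbeb_nt, ER/RS: the weighted Gowers-Cauchy-Schwarz inequality (helper53)
-/

set_option autoImplicit false

namespace Pool.Agent.Lib.MP_3efbeb_nt.ER.RS

open Finset

noncomputable section

namespace GCSM

variable {k : ℕ}

lemma Om_false {S : Finset (Fin k)} {i : Fin k} (hi : i ∉ S) {w : Fin k → Bool} (hw : w ∈ Om S) : w i = false := by
  rw [mem_Om] at hw
  by_contra h
  exact hi (hw i (by simpa using h))

/-- splitting of the corners -/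
lemma prod_Om_insert {S : Finset (Fin k)} {i : Fin k} (hi : i ∉ S) (G : (Fin k → Bool) → ℝ) :
    ∏ w ∈ Om (insert i S), G w = (∏ w ∈ Om S, G w) * ∏ w ∈ Om S, G (Function.update w i true) := by
  have h1 : Om (insert i S) = Om S ∪ (Om S).image (fun w => Function.update w i true) := by
    ext w
    rw [mem_union, mem_image, mem_Om, mem_Om]
    constructor
    · intro h
      by_cases hwi : w i = true
      · right
        refine ⟨Function.update w i false, ?_, ?_⟩
        · rw [mem_Om]
          intro l hl
          by_cases hli : l = i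
          · subst hli; simp at hl
          · rw [Function.update_of_ne hli] at hl
            have := h l hl
            rw [mem_insert] at this
            exact this.resolve_left hli
        · rw [Function.update_idem]
          funext l
          by_cases hli : l = i
          · subst hli; simp [hwi]
          · rw [Function.update_of_ne hli]
      · left
        intro l hl
        have := h l hl
        rw [mem_insert] at this
        rcases this with rfl | h'
        · exact absurd hl hwi
        · exact h'
    · rintro (h | ⟨w', hw', rfl⟩)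
      · intro l hl; exact mem_insert_of_mem (h l hl)
      · rw [mem_Om] at hw'
        intro l hl
        by_cases hli : l = i
        · subst hli; exact mem_insert_self _ _
        · rw [Function.update_of_ne hli] at hl
          exact mem_insert_of_mem (hw' l hl)
  have h2 : Disjoint (Om S) ((Om S).image (fun w => Function.update w i true)) := by
    rw [disjoint_left]
    intro w hw hw2
    rw [mem_image] at hw2
    obtain ⟨w', _, rfl⟩ := hw2
    have := Om_false hi hw
    simp at this
  rw [h1, prod_union h2, prod_image]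
  intro w hw w' hw' h
  have e1 := Om_false hi hw
  have e2 := Om_false hi hw'
  funext l
  by_cases hli : l = i
  · subst hli; rw [e1, e2]
  · have := congrFun h l
    simpa [Function.update_of_ne hli] using this

/-- splitting, in terms of `sw` -/
lemma prod_Om_sw {V : Type} {S : Finset (Fin k)} {i : Fin k} (hi : i ∉ S)
    (H : (Fin k → Bool → V) → (Fin k → Bool) → ℝ) (X : Fin k → Bool → V)
    (hH : ∀ w, w i = false → H (sw i X) w = H X (Function.update w i true)) :
    ∏ w ∈ Om (insert i S), H X w = (∏ w ∈ Om S, H X w) * ∏ w ∈ Om S, H (sw i X) w := by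
  rw [prod_Om_insert hi]
  congr 1
  refine prod_congr rfl (fun w hw => ?_)
  rw [hH w (Om_false hi hw)]

lemma pt_sw_false {V : Type} (X : Fin k → Bool → V) (i : Fin k) (w : Fin k → Bool) (hw : w i = false) :
    pt (sw i X) w = pt X (Function.update w i true) := by
  rw [pt_sw, hw]; rfl

lemma pt_sw_false2 {V : Type} (X : Fin k → Bool → V) (i j : Fin k) (hij : i ≠ j) (b : Bool) (w : Fin k → Bool)
    (hw : w i = false) :
    pt (sw i X) (Function.update w j b) = pt X (Function.update (Function.update w i true) j b) := by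
  have h : Function.update w j b i = false := by rw [Function.update_of_ne hij]; exact hw
  rw [pt_sw_false X i _ h, Function.update_comm hij.symm]

variable {V : Type} [Fintype V] [Nonempty V]

/-- the weights -/
def P (j : Fin k) (v : Fin k → (Fin k → V) → ℝ) (S : Finset (Fin k)) (i : Fin k) (X : Fin k → Bool → V) : ℝ :=
  ∏ w ∈ Om S, ∏ b : Bool, v i (pt X (Function.update w j b))

/-- the functions `A` -/
def PA (j : Fin k) (A : Fin k → Bool → (Fin k → V) → ℝ) (S : Finset (Fin k)) (i : Fin k)
    (X : Fin k → Bool → V) : ℝ :=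
  ∏ w ∈ Om S, ∏ b : Bool, A i b (pt X (Function.update w j b))

/-- the functions `F` -/
def PF (F : (Fin k → V) → ℝ) (S : Finset (Fin k)) (X : Fin k → Bool → V) : ℝ := ∏ w ∈ Om S, F (pt X w)

/-- the integrand after eliminating the coordinates in `S` -/
def Q (j : Fin k) (F : (Fin k → V) → ℝ) (A : Fin k → Bool → (Fin k → V) → ℝ) (v : Fin k → (Fin k → V) → ℝ)
    (S : Finset (Fin k)) (X : Fin k → Bool → V) : ℝ :=
  PF F S X * (∏ i ∈ S, P j v (S.erase i) i X) * ∏ i ∈ (univ.erase j) \ S, PA j A S i X

/-- the part used as `R` in the step -/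
def R (j : Fin k) (F : (Fin k → V) → ℝ) (A : Fin k → Bool → (Fin k → V) → ℝ) (v : Fin k → (Fin k → V) → ℝ)
    (S : Finset (Fin k)) (i : Fin k) (X : Fin k → Bool → V) : ℝ :=
  PF F S X * (∏ i ∈ S, P j v (S.erase i) i X) * ∏ i' ∈ ((univ.erase j) \ S).erase i, PA j A S i' X

omit [Fintype V] [Nonempty V] in
lemma PA_insert (j : Fin k) (A : Fin k → Bool → (Fin k → V) → ℝ) {S : Finset (Fin k)} {i : Fin k} (hi : i ∉ S)
    (hij : i ≠ j) (i' : Fin k) (X : Fin k → Bool → V) :
    PA j A (insert i S) i' X = PA j A S i' X * PA j A S i' (sw i X) := by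
  unfold PA
  refine prod_Om_sw hi (fun X w => ∏ b : Bool, A i' b (pt X (Function.update w j b))) X ?_
  intro w hw
  refine prod_congr rfl (fun b _ => ?_)
  rw [pt_sw_false2 X i j hij b w hw]

omit [Fintype V] [Nonempty V] in
lemma P_insert (j : Fin k) (v : Fin k → (Fin k → V) → ℝ) {S : Finset (Fin k)} {i : Fin k} (hi : i ∉ S)
    (hij : i ≠ j) (i' : Fin k) (X : Fin k → Bool → V) :
    P j v (insert i S) i' X = P j v S i' X * P j v S i' (sw i X) :=
  PA_insert j (fun i _ => v i) hi hij i' X

omit [Fintype V] [Nonempty V] in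
lemma PF_insert (F : (Fin k → V) → ℝ) {S : Finset (Fin k)} {i : Fin k} (hi : i ∉ S) (X : Fin k → Bool → V) :
    PF F (insert i S) X = PF F S X * PF F S (sw i X) := by
  unfold PF
  refine prod_Om_sw hi (fun X w => F (pt X w)) X ?_
  intro w hw
  rw [pt_sw_false X i w hw]

omit [Fintype V] [Nonempty V] in
lemma PA_dep (j : Fin k) (A : Fin k → Bool → (Fin k → V) → ℝ) {S : Finset (Fin k)} {i : Fin k} (hi : i ∉ S)
    (hij : i ≠ j) (i' : Fin k) (X : Fin k → Bool → V) (c c' : Bool → V) (h : c false = c' false) :
    PA j A S i' (Function.update X i c) = PA j A S i' (Function.update X i c') := by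
  unfold PA
  refine prod_congr rfl (fun w hw => prod_congr rfl (fun b _ => ?_))
  have e : Function.update w j b i = false := by rw [Function.update_of_ne hij]; exact Om_false hi hw
  rw [pt_update, pt_update, e, h]

omit [Fintype V] [Nonempty V] in
lemma PF_dep (F : (Fin k → V) → ℝ) {S : Finset (Fin k)} {i : Fin k} (hi : i ∉ S) (X : Fin k → Bool → V)
    (c c' : Bool → V) (h : c false = c' false) :
    PF F S (Function.update X i c) = PF F S (Function.update X i c') := by
  unfold PF
  refine prod_congr rfl (fun w hw => ?_)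
  rw [pt_update, pt_update, Om_false hi hw, h]

omit [Fintype V] [Nonempty V] in
lemma PA_ind (j : Fin k) (A : Fin k → Bool → (Fin k → V) → ℝ) (S : Finset (Fin k)) (i : Fin k)
    (hA : ∀ b, Ind i (A i b)) (X : Fin k → Bool → V) (c : Bool → V) :
    PA j A S i (Function.update X i c) = PA j A S i X := by
  unfold PA
  refine prod_congr rfl (fun w _ => prod_congr rfl (fun b _ => ?_))
  rw [pt_update, hA b]

omit [Fintype V] [Nonempty V] in
lemma step_alg (j : Fin k) (F : (Fin k → V) → ℝ) (A : Fin k → Bool → (Fin k → V) → ℝ)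
    (v : Fin k → (Fin k → V) → ℝ) {S : Finset (Fin k)} {i : Fin k} (hi : i ∉ S) (hij : i ≠ j)
    (X : Fin k → Bool → V) :
    P j v S i X * (R j F A v S i X * R j F A v S i (sw i X)) = Q j F A v (insert i S) X := by
  unfold Q R
  rw [PF_insert F hi X, prod_insert hi]
  have e1 : (insert i S).erase i = S := erase_insert hi
  have e2 : ∏ i' ∈ S, P j v ((insert i S).erase i') i' X
      = (∏ i' ∈ S, P j v (S.erase i') i' X) * ∏ i' ∈ S, P j v (S.erase i') i' (sw i X) := by
    rw [← prod_mul_distrib]
    refine prod_congr rfl (fun i' hi' => ?_)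
    have hne : i' ≠ i := fun h => hi (h ▸ hi')
    have e3 : (insert i S).erase i' = insert i (S.erase i') := by
      rw [erase_insert_of_ne hne.symm]
    rw [e3]
    exact P_insert j v (fun h => hi (mem_of_mem_erase h)) hij i' X
  have e4 : (univ.erase j) \ (insert i S) = ((univ.erase j) \ S).erase i := by
    ext l
    simp only [mem_sdiff, mem_erase, mem_univ, and_true, mem_insert, not_or]
    tauto
  have e5 : ∏ i' ∈ (univ.erase j) \ (insert i S), PA j A (insert i S) i' X
      = (∏ i' ∈ ((univ.erase j) \ S).erase i, PA j A S i' X)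
        * ∏ i' ∈ ((univ.erase j) \ S).erase i, PA j A S i' (sw i X) := by
    rw [e4, ← prod_mul_distrib]
    exact prod_congr rfl (fun i' _ => PA_insert j A hi hij i' X)
  rw [e1, e2, e5]
  ring

omit [Fintype V] [Nonempty V] in
lemma Q_split (j : Fin k) (F : (Fin k → V) → ℝ) (A : Fin k → Bool → (Fin k → V) → ℝ)
    (v : Fin k → (Fin k → V) → ℝ) {S : Finset (Fin k)} {i : Fin k} (hi : i ∉ S) (hij : i ≠ j)
    (X : Fin k → Bool → V) :
    Q j F A v S X = PA j A S i X * R j F A v S i X := by
  unfold Q R
  have hm : i ∈ (univ.erase j) \ S := by simp [hi, hij]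
  rw [← mul_prod_erase _ _ hm]
  ring

/-- one step -/
lemma step (hCS1 : SpecCS1) (j : Fin k) (F : (Fin k → V) → ℝ) (A : Fin k → Bool → (Fin k → V) → ℝ)
    (v : Fin k → (Fin k → V) → ℝ)
    (hA : ∀ i, i ≠ j → ∀ b, Ind i (A i b)) (hv : ∀ i, i ≠ j → Ind i (v i))
    (hAv : ∀ i, i ≠ j → ∀ b x, |A i b x| ≤ v i x)
    {S : Finset (Fin k)} {i : Fin k} (hi : i ∉ S) (hij : i ≠ j) :
    (av (Q j F A v S)) ^ 2 ≤ av (P j v S i) * av (Q j F A v (insert i S)) := by
  have h := hCS1 k V i (PA j A S i) (P j v S i) (R j F A v S i)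
    (fun X c => PA_ind j A S i (hA i hij) X c)
    (fun X c => PA_ind j (fun i _ => v i) S i (fun _ => hv i hij) X c)
    (by
      intro X c c' hc
      unfold R
      rw [PF_dep F hi X c c' hc]
      have e1 : ∏ i' ∈ S, P j v (S.erase i') i' (Function.update X i c)
          = ∏ i' ∈ S, P j v (S.erase i') i' (Function.update X i c') := by
        refine prod_congr rfl (fun i' _ => ?_)
        exact PA_dep j (fun i _ => v i) (fun h => hi (mem_of_mem_erase h)) hij i' X c c' hc
      have e2 : ∏ i' ∈ ((univ.erase j) \ S).erase i, PA j A S i' (Function.update X i c)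
          = ∏ i' ∈ ((univ.erase j) \ S).erase i, PA j A S i' (Function.update X i c') :=
        prod_congr rfl (fun i' _ => PA_dep j A hi hij i' X c c' hc)
      rw [e1, e2])
    (by
      intro X
      unfold PA P
      rw [abs_prod]
      refine prod_le_prod (fun w _ => abs_nonneg _) (fun w _ => ?_)
      rw [abs_prod]
      exact prod_le_prod (fun b _ => abs_nonneg _) (fun b _ => hAv i hij b _))
  have e1 : (fun X => PA j A S i X * R j F A v S i X) = Q j F A v S := by
    funext X; rw [Q_split j F A v hi hij]
  have e2 : (fun X => P j v S i X * (R j F A v S i X * R j F A v S i (sw i X))) = Q j F A v (insert i S) := by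
    funext X; exact step_alg j F A v hi hij X
  rw [e1, e2] at h
  exact h

omit [Nonempty V] in
lemma P_nonneg (j : Fin k) (v : Fin k → (Fin k → V) → ℝ) (S : Finset (Fin k)) (i : Fin k)
    (hv : ∀ x, 0 ≤ v i x) : 0 ≤ av (P j v S i) :=
  av_nonneg (fun _ => prod_nonneg (fun _ _ => prod_nonneg (fun _ _ => hv _)))

/-- the iteration -/
lemma iter (hCS1 : SpecCS1) (j : Fin k) (F : (Fin k → V) → ℝ) (A : Fin k → Bool → (Fin k → V) → ℝ)
    (v : Fin k → (Fin k → V) → ℝ) (B : ℝ) (hB1 : 1 ≤ B)
    (hA : ∀ i, i ≠ j → ∀ b, Ind i (A i b)) (hv : ∀ i, i ≠ j → Ind i (v i))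
    (hAv : ∀ i, i ≠ j → ∀ b x, |A i b x| ≤ v i x)
    (hB : ∀ S, S ⊆ univ.erase j → ∀ i, i ≠ j → i ∉ S → av (P j v S i) ≤ B) (l : ℕ) :
    ∀ S, S ⊆ univ.erase j → ((univ.erase j) \ S).card = l →
      |av (Q j F A v S)| ^ 2 ^ l ≤ B ^ 2 ^ l * |av (Q j F A v (univ.erase j))| := by
  induction l with
  | zero =>
    intro S hS hl
    have h1 : (univ.erase j) \ S = ∅ := card_eq_zero.mp hl
    have h2 : S = univ.erase j := by
      refine subset_antisymm hS ?_
      exact sdiff_eq_empty_iff_subset.mp h1
    subst h2
    simp only [pow_zero, pow_one]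
    have := abs_nonneg (av (Q j F A v (univ.erase j)))
    nlinarith
  | succ l ih =>
    intro S hS hl
    have hne : ((univ.erase j) \ S).Nonempty := card_pos.mp (by omega)
    obtain ⟨i, hi⟩ := hne
    rw [mem_sdiff, mem_erase] at hi
    obtain ⟨⟨hij, _⟩, hiS⟩ := hi
    have hS' : insert i S ⊆ univ.erase j := by
      intro x hx
      rw [mem_insert] at hx
      rcases hx with rfl | hx
      · simp [hij]
      · exact hS hx
    have hcard : ((univ.erase j) \ (insert i S)).card = l := by
      have e : (univ.erase j) \ (insert i S) = ((univ.erase j) \ S).erase i := by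
        ext x
        simp only [mem_sdiff, mem_erase, mem_univ, and_true, mem_insert, not_or]
        tauto
      rw [e, card_erase_of_mem (by simp [hij, hiS]), hl]; rfl
    have h1 := step hCS1 j F A v hA hv hAv hiS hij
    have h2 := hB S hS i hij hiS
    have h3 := P_nonneg j v S i (fun x => (abs_nonneg _).trans (hAv i hij true x))
    have h4 := ih _ hS' hcard
    set a := av (Q j F A v S)
    set a' := av (Q j F A v (insert i S))
    set q := |av (Q j F A v (univ.erase j))|
    have h5 : |a| ^ 2 ≤ B * |a'| := by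
      rw [sq_abs]
      calc a ^ 2 ≤ av (P j v S i) * a' := h1
        _ ≤ av (P j v S i) * |a'| := mul_le_mul_of_nonneg_left (le_abs_self _) h3
        _ ≤ B * |a'| := mul_le_mul_of_nonneg_right h2 (abs_nonneg _)
    have hBp : 0 ≤ B ^ 2 ^ l := by positivity
    calc |a| ^ 2 ^ (l + 1) = (|a| ^ 2) ^ 2 ^ l := by rw [← pow_mul, pow_succ, mul_comm]
      _ ≤ (B * |a'|) ^ 2 ^ l := pow_le_pow_left₀ (by positivity) h5 _
      _ = B ^ 2 ^ l * |a'| ^ 2 ^ l := mul_pow _ _ _
      _ ≤ B ^ 2 ^ l * (B ^ 2 ^ l * q) := mul_le_mul_of_nonneg_left h4 hBp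
      _ = B ^ 2 ^ (l + 1) * q := by rw [pow_succ, pow_mul, sq]; ring

lemma Om_empty : Om (∅ : Finset (Fin k)) = {z0} := by
  ext w
  rw [mem_Om, mem_singleton]
  constructor
  · intro h
    funext i
    by_contra hi
    have : w i = true := by
      have := hi
      unfold z0 at this
      simpa using this
    exact absurd (h i this) (notMem_empty i)
  · rintro rfl i hi
    simp [z0] at hi

end GCSM

/-- GCS. -/
theorem specGCS (hCS1 : SpecCS1) : SpecGCS := by
  intro k V _ _ j F A v B hB1 hA hv hAv hB
  have h := GCSM.iter hCS1 j F A v B hB1 hA hv hAv hB (k - 1) ∅ (empty_subset _)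
    (by rw [sdiff_empty, card_erase_of_mem (mem_univ j), card_univ, Fintype.card_fin])
  have e1 : GCSM.Q j F A v ∅ = fun X : Fin k → Bool → V =>
      F (pt X z0) * ∏ i ∈ univ.erase j, ∏ b : Bool, A i b (pt X (ej j b)) := by
    funext X
    unfold GCSM.Q GCSM.PF GCSM.PA
    rw [GCSM.Om_empty, prod_singleton, prod_empty, mul_one, sdiff_empty]
    congr 1
    refine prod_congr rfl (fun i _ => ?_)
    rw [prod_singleton]
    rfl
  have e2 : GCSM.Q j F A v (univ.erase j) = fun X : Fin k → Bool → V =>
      (∏ w ∈ Om (univ.erase j), F (pt X w)) *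
        ∏ i ∈ univ.erase j, ∏ w ∈ univ.filter (fun w : Fin k → Bool => w i = false), v i (pt X w) := by
    funext X
    unfold GCSM.Q GCSM.PF GCSM.P
    rw [sdiff_self, Finset.bot_eq_empty, prod_empty, mul_one]
    congr 1
    refine prod_congr rfl (fun i hi => ?_)
    have hij : i ≠ j := ne_of_mem_erase hi
    have hjn : j ∉ (univ.erase j).erase i := by simp
    have e3 : univ.filter (fun w : Fin k → Bool => w i = false) = Om (insert j ((univ.erase j).erase i)) := by
      ext w
      rw [mem_filter, mem_Om]
      constructor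
      · intro h l hl
        have hli : l ≠ i := by
          rintro rfl
          rw [h.2] at hl; exact absurd hl (by decide)
        by_cases hlj : l = j
        · subst hlj; exact mem_insert_self _ _
        · refine mem_insert_of_mem ?_
          simp [hli, hlj]
      · intro h
        refine ⟨mem_univ _, ?_⟩
        by_contra hc
        have h1 : w i = true := by simpa using hc
        have h2 := h i h1
        simp [hij] at h2
    rw [e3, GCSM.prod_Om_insert hjn, ← prod_mul_distrib]
    refine prod_congr rfl (fun w hw => ?_)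
    have hwj : w j = false := GCSM.Om_false hjn hw
    have e4 : Function.update w j false = w := by
      rw [← hwj]; exact Function.update_eq_self j w
    rw [Fintype.prod_bool, e4, mul_comm]
  rw [e1, e2] at h
  exact h

end

end Pool.Agent.Lib.MP_3efbeb_nt.ER.RS
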