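import Pool.Agent.Lib.MP_3efbeb_nt.ER.RS.VARX

/-!
# MP_3efbeb_nt, ER, RS: GEN (helper82)
-/

set_option autoImplicit false

namespace Pool.Agent.Lib.MP_3efbeb_nt.ER.RS

open Finset

noncomputable section

namespace GENM

theorem surj_of_ne {A : Type} [AddCommGroup A] {N : ℕ} [NeZero N] (hN : N.Prime) (φ : A →+ ZMod N) (x0 : A)
    (h0 : φ x0 ≠ 0) : Function.Surjective φ := by
  have : Fact N.Prime := ⟨hN⟩
  intro b
  refine ⟨(b / φ x0).val • x0, ?_⟩
  rw [map_nsmul, nsmul_eq_mul, ZMod.natCast_val, ZMod.cast_id', id, div_mul_cancel₀ _ h0]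

theorem av_zero_le {A : Type} [AddCommGroup A] [Fintype A] {N : ℕ} [NeZero N] (hN : N.Prime) (φ : A →+ ZMod N)
    (x0 : A) (h0 : φ x0 ≠ 0) : av (fun x => if φ x = 0 then (1 : ℝ) else 0) ≤ 1 / N := by
  rw [VARXM.av_hom φ (surj_of_ne hN φ x0 h0) (fun b => if b = 0 then (1 : ℝ) else 0)]
  unfold av
  rw [Finset.sum_ite_eq' univ (0 : ZMod N) (fun _ => (1 : ℝ)), if_pos (mem_univ _), ZMod.card]

/-- the form as a homomorphism -/
def hom {k N : ℕ} (a : Fin k → ZMod N) (q : Fin k × (Fin k → Bool)) : (Fin k → Bool → ZMod N) →+ ZMod N where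
  toFun X := psi a q.1 (pt X q.2)
  map_zero' := by simp [psi, pt]
  map_add' X Y := by
    simp only [psi, pt, Pi.add_apply, mul_add, sum_add_distrib]

theorem hom_apply {k N : ℕ} (a : Fin k → ZMod N) (q : Fin k × (Fin k → Bool)) (X : Fin k → Bool → ZMod N) :
    hom a q X = psi a q.1 (pt X q.2) := rfl

/-- the value at a basis vector -/
theorem hom_basis {k N : ℕ} (a : Fin k → ZMod N) (q : Fin k × (Fin k → Bool)) (i : Fin k) (b : Bool) :
    hom a q (Pi.single i (Pi.single b 1)) = if q.2 i = b then a q.1 - a i else 0 := by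
  rw [hom_apply]
  unfold psi pt
  rw [Finset.sum_eq_single i]
  · by_cases h : q.2 i = b
    · rw [if_pos h, Pi.single_eq_same, ← h, Pi.single_eq_same, mul_one]
    · rw [if_neg h, Pi.single_eq_same, Pi.single_eq_of_ne h, mul_zero]
  · intro j _ hj
    rw [Pi.single_eq_of_ne hj, Pi.zero_apply, mul_zero]
  · intro h
    exact absurd (mem_univ _) h

end GENM

open GENM in
theorem specGEN : SpecGEN := by
  intro k N _ hN hk a ha
  have : Fact N.Prime := ⟨hN⟩
  refine ⟨fun q q' hne hq hq' => ?_, fun q q' => ?_⟩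
  · have key : ∃ (i : Fin k) (b : Bool), (hom a q - hom a q') (Pi.single i (Pi.single b 1)) ≠ 0 := by
      by_cases h1 : q.1 = q'.1
      · have h2 : q.2 ≠ q'.2 := fun h => hne (Prod.ext h1 h)
        obtain ⟨i, hi⟩ := Function.ne_iff.1 h2
        refine ⟨i, q.2 i, ?_⟩
        rw [AddMonoidHom.sub_apply, hom_basis, hom_basis, if_pos rfl, if_neg (fun h => hi h.symm), sub_zero]
        refine sub_ne_zero.2 (fun h => hi ?_)
        have h3 : q.1 = i := ha h
        rw [← h3, hq, h1, hq']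
      · refine ⟨q.1, q'.2 q.1, ?_⟩
        rw [AddMonoidHom.sub_apply, hom_basis, hom_basis, if_pos rfl]
        have : (if q.2 q.1 = q'.2 q.1 then a q.1 - a q.1 else 0) = 0 := by split_ifs <;> simp
        rw [this, zero_sub]
        exact neg_ne_zero.2 (sub_ne_zero.2 fun h => h1 (ha h).symm)
    obtain ⟨i, b, hib⟩ := key
    have h := av_zero_le hN (hom a q - hom a q') _ hib
    refine le_trans (le_of_eq ?_) h
    refine av_congr fun X => ?_
    simp only [AddMonoidHom.sub_apply, sub_eq_zero, hom_apply]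
  · let ψ : (Fin k → Bool → ZMod N) × (Fin k → Bool → ZMod N) →+ ZMod N :=
      (hom a q).comp (AddMonoidHom.fst (Fin k → Bool → ZMod N) (Fin k → Bool → ZMod N))
        - (hom a q').comp (AddMonoidHom.snd (Fin k → Bool → ZMod N) (Fin k → Bool → ZMod N))
    have key : ∃ x0 : (Fin k → Bool → ZMod N) × (Fin k → Bool → ZMod N), ψ x0 ≠ 0 := by
      have : ∃ i : Fin k, i ≠ q'.1 := by
        by_cases h : q'.1 = ⟨0, by omega⟩
        · refine ⟨⟨1, by omega⟩, fun h' => ?_⟩
          rw [h] at h'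
          have := congrArg Fin.val h'
          simp at this
        · exact ⟨⟨0, by omega⟩, fun h' => h h'.symm⟩
      obtain ⟨i, hi⟩ := this
      refine ⟨(0, Pi.single i (Pi.single (q'.2 i) 1)), ?_⟩
      change hom a q 0 - hom a q' (Pi.single i (Pi.single (q'.2 i) 1)) ≠ 0
      rw [map_zero, hom_basis, if_pos rfl, zero_sub]
      exact neg_ne_zero.2 (sub_ne_zero.2 fun h => hi (ha h).symm)
    obtain ⟨x0, hx0⟩ := key
    have h := av_zero_le hN ψ x0 hx0
    refine le_trans (le_of_eq ?_) h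
    rw [av_prod]
    refine av_congr fun X => av_congr fun X' => ?_
    have e : ψ (X, X') = psi a q.1 (pt X q.2) - psi a q'.1 (pt X' q'.2) := rfl
    rw [e]
    simp only [sub_eq_zero]

end

end Pool.Agent.Lib.MP_3efbeb_nt.ER.RS
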