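import Pool.Agent.Lib.MP_3efbeb_nt.ER.RS.Spec
import Pool.Agent.Lib.MP_3efbeb_nt.ER.RS.AV

/-!
# MP_3efbeb_nt, ER, RS: LFX, expansion of products (helper75)
-/

set_option autoImplicit false

namespace Pool.Agent.Lib.MP_3efbeb_nt.ER.RS

open Finset

theorem specLFX : SpecLFX := by
  intro k N _ a ν η hη0 hη1 hLF
  have h1 : ∀ (T : Finset (Fin k × (Fin k → Bool))) (X : Fin k → Bool → ZMod N),
      ∏ q ∈ T, (1 + ν (psi a q.1 (pt X q.2))) = ∑ t ∈ T.powerset, prT a ν t X :=
    fun T X => Finset.prod_one_add T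
  refine ⟨fun T hT => ?_, fun j T hT hj => ?_⟩
  · rw [av_congr (h1 T), av_sum]
    calc ∑ t ∈ T.powerset, av (fun X => prT a ν t X) ≤ ∑ t ∈ T.powerset, (2 : ℝ) := by
          refine sum_le_sum fun t ht => ?_
          have h2 := abs_le.1 (hLF t (fun q hq => hT q (mem_powerset.1 ht hq)))
          have h3 : av (fun X => prT a ν t X) = av (prT a ν t) := rfl
          linarith [h2.2]
      _ = 2 ^ (T.card + 1) := by
          rw [sum_const, card_powerset, nsmul_eq_mul]
          push_cast
          ring
  · classical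
    set O : Finset (Fin k → Bool) := Om (univ.erase j) with hO
    have hOj : ∀ w ∈ O, w j = false := by
      intro w hw
      rw [hO, mem_Om] at hw
      by_contra hc
      have := hw j (by simpa using hc)
      simp at this
    have hz : (z0 : Fin k → Bool) ∈ O := by
      rw [hO, mem_Om]
      intro i hi
      simp [z0] at hi
    have hinj : Function.Injective fun w : Fin k → Bool => (j, w) := fun w w' h =>
      (Prod.mk.inj h).2
    have h2 : ∀ X : Fin k → Bool → ZMod N, (∏ w ∈ O, (ν (psi a j (pt X w)) - 1)) *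
        ∏ q ∈ T, (1 + ν (psi a q.1 (pt X q.2))) =
        ∑ E ∈ O.powerset, ∑ t ∈ T.powerset, (-1 : ℝ) ^ (O \ E).card *
          prT a ν (E.image (fun w => (j, w)) ∪ t) X := by
      intro X
      rw [h1, prod_congr rfl (fun w _ => sub_eq_add_neg (ν (psi a j (pt X w))) 1), prod_add,
        sum_mul_sum]
      refine sum_congr rfl fun E _ => sum_congr rfl fun t ht => ?_
      have hd : Disjoint (E.image (fun w => (j, w))) t := by
        rw [disjoint_left]
        intro q hq hqt
        obtain ⟨w, _, rfl⟩ := mem_image.1 hq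
        exact hj _ (mem_powerset.1 ht hqt) rfl
      rw [prod_const]
      unfold prT
      rw [prod_union hd, prod_image (fun x _ y _ h => hinj h)]
      ring
    have h3 : av (fun X : Fin k → Bool → ZMod N => (∏ w ∈ O, (ν (psi a j (pt X w)) - 1)) *
        ∏ q ∈ T, (1 + ν (psi a q.1 (pt X q.2)))) =
        ∑ E ∈ O.powerset, ∑ t ∈ T.powerset, (-1 : ℝ) ^ (O \ E).card *
          av (prT a ν (E.image (fun w => (j, w)) ∪ t)) := by
      rw [av_congr h2, av_sum]
      refine sum_congr rfl fun E _ => ?_
      rw [av_sum]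
      exact sum_congr rfl fun t _ => av_mul_left _ _
    have h4 : ∑ E ∈ O.powerset, (-1 : ℝ) ^ (O \ E).card = 0 := by
      have h5 := prod_add (fun _ : Fin k → Bool => (1 : ℝ)) (fun _ => -1) O
      simp only [prod_const_one, prod_const, one_mul] at h5
      rw [← h5]
      rw [show (1 : ℝ) + -1 = 0 by ring]
      exact zero_pow (card_pos.2 ⟨_, hz⟩).ne'
    have h6 : ∑ E ∈ O.powerset, ∑ t ∈ T.powerset, (-1 : ℝ) ^ (O \ E).card *
          av (prT a ν (E.image (fun w => (j, w)) ∪ t)) =
        ∑ E ∈ O.powerset, ∑ t ∈ T.powerset, (-1 : ℝ) ^ (O \ E).card *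
          (av (prT a ν (E.image (fun w => (j, w)) ∪ t)) - 1) := by
      have h7 : ∑ E ∈ O.powerset, ∑ _t ∈ T.powerset, (-1 : ℝ) ^ (O \ E).card = 0 := by
        simp only [sum_const]
        rw [← smul_sum, h4, smul_zero]
      rw [← sub_eq_zero, ← sum_sub_distrib, ← h7]
      refine sum_congr rfl fun E _ => ?_
      rw [← sum_sub_distrib]
      exact sum_congr rfl fun t _ => by ring
    rw [h3, h6]
    calc |∑ E ∈ O.powerset, ∑ t ∈ T.powerset, (-1 : ℝ) ^ (O \ E).card *
          (av (prT a ν (E.image (fun w => (j, w)) ∪ t)) - 1)|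
        ≤ ∑ E ∈ O.powerset, ∑ t ∈ T.powerset, |(-1 : ℝ) ^ (O \ E).card *
          (av (prT a ν (E.image (fun w => (j, w)) ∪ t)) - 1)| :=
          (abs_sum_le_sum_abs _ _).trans (sum_le_sum fun E _ => abs_sum_le_sum_abs _ _)
      _ ≤ ∑ E ∈ O.powerset, ∑ t ∈ T.powerset, η := by
          refine sum_le_sum fun E hE => sum_le_sum fun t ht => ?_
          rw [abs_mul, abs_pow, abs_neg, abs_one, one_pow, one_mul]
          refine hLF _ fun q hq => ?_
          rcases mem_union.1 hq with hq | hq
          · obtain ⟨w, hw, rfl⟩ := mem_image.1 hq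
            exact hOj w (mem_powerset.1 hE hw)
          · exact hT q (mem_powerset.1 ht hq)
      _ = 2 ^ (O.card + T.card) * η := by
          simp only [sum_const, card_powerset, nsmul_eq_mul]
          push_cast
          ring
      _ ≤ 2 ^ (2 ^ k + T.card) * η := by
          have h8 : O.card ≤ 2 ^ k := by
            have := card_le_univ O
            simpa using this
          gcongr
          norm_num

end Pool.Agent.Lib.MP_3efbeb_nt.ER.RS
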