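import Pool.Agent.Lib.MP_3efbeb_nt.ER.RS.Spec
import Pool.Agent.Lib.MP_3efbeb_nt.ER.RS.AV

/-!
# MP_3efbeb_nt, ER, RS: MOM (helper82)
-/

set_option autoImplicit false

namespace Pool.Agent.Lib.MP_3efbeb_nt.ER.RS

open Finset

noncomputable section

namespace MOMM

open Classical in
/-- values of the family in terms of multiplicities -/
theorem prod_mult {ι : Type} {N : ℕ} [NeZero N] (T : Finset ι) (y : ι → ZMod N) (f : ZMod N → ℝ) :
    ∏ q ∈ T, f (y q) = ∏ i, f i ^ (T.filter (fun q => y q = i)).card := by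
  rw [← Finset.prod_fiberwise (s := T) (g := y) (f := fun q => f (y q))]
  refine prod_congr rfl fun i _ => ?_
  rw [prod_congr rfl (g := fun _ => f i) (fun q hq => by rw [(mem_filter.1 hq).2]), prod_const]

open Classical in
theorem sum_mult {ι : Type} {N : ℕ} [NeZero N] (T : Finset ι) (y : ι → ZMod N) :
    ∑ i, (T.filter (fun q => y q = i)).card = T.card := by
  exact (Finset.card_eq_sum_card_fiberwise (f := y) (s := T) (t := (univ : Finset (ZMod N)))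
    (fun x _ => by simp)).symm

open Classical in
/-- the pointwise bound -/
theorem point {ι : Type} {N K0 : ℕ} [NeZero N] (S : Finset ℕ) (ν : ℕ → ZMod N → ℝ)
    (h0 : ∀ n ∈ S, ∀ i, 0 ≤ ν n i)
    (h1 : ∀ T : Finset (ZMod N), T.card ≤ K0 → |(∑ n ∈ S, ∏ i ∈ T, ν n i) - S.card| ≤ S.card / Real.sqrt N)
    (h2 : ∀ m : ZMod N → ℕ, ∑ i, m i ≤ K0 → ∑ n ∈ S, ∏ i, ν n i ^ m i ≤ (N : ℝ) ^ (1 / 4 : ℝ) * S.card)
    (T : Finset ι) (hT : T.card ≤ K0) (y : ι → ZMod N) :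
    |(∑ n ∈ S, ∏ q ∈ T, ν n (y q)) - S.card| ≤ S.card / Real.sqrt N
      + ((N : ℝ) ^ (1 / 4 : ℝ) + 1) * S.card *
        ∑ p ∈ (T ×ˢ T).filter (fun p => p.1 ≠ p.2), (if y p.1 = y p.2 then (1 : ℝ) else 0) := by
  have hs : (0 : ℝ) ≤ S.card := Nat.cast_nonneg _
  have hN4 : (0 : ℝ) ≤ (N : ℝ) ^ (1 / 4 : ℝ) := Real.rpow_nonneg (Nat.cast_nonneg _) _
  have hsq : (0 : ℝ) ≤ S.card / Real.sqrt N := div_nonneg hs (Real.sqrt_nonneg _)
  have hsum0 : (0 : ℝ) ≤ ∑ p ∈ (T ×ˢ T).filter (fun p => p.1 ≠ p.2), (if y p.1 = y p.2 then (1 : ℝ) else 0) :=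
    sum_nonneg fun p _ => by split_ifs <;> norm_num
  by_cases hinj : Set.InjOn y T
  · have e : ∀ n, ∏ q ∈ T, ν n (y q) = ∏ i ∈ T.image y, ν n i := fun n => (prod_image hinj).symm
    simp only [e]
    have hc : (T.image y).card ≤ K0 := card_image_le.trans hT
    have h3 := h1 _ hc
    have : 0 ≤ ((N : ℝ) ^ (1 / 4 : ℝ) + 1) * S.card *
        ∑ p ∈ (T ×ˢ T).filter (fun p => p.1 ≠ p.2), (if y p.1 = y p.2 then (1 : ℝ) else 0) := by
      positivity
    linarith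
  · have h3 : ∃ p ∈ (T ×ˢ T).filter (fun p => p.1 ≠ p.2), y p.1 = y p.2 := by
      unfold Set.InjOn at hinj
      push_neg at hinj
      obtain ⟨q, hq, q', hq', h4, h5⟩ := hinj
      exact ⟨(q, q'), by simp only [mem_filter, mem_product]; exact ⟨⟨hq, hq'⟩, h5⟩, h4⟩
    obtain ⟨p, hp, hpe⟩ := h3
    have h4 : (1 : ℝ) ≤ ∑ p ∈ (T ×ˢ T).filter (fun p => p.1 ≠ p.2), (if y p.1 = y p.2 then (1 : ℝ) else 0) := by
      have h5 := Finset.single_le_sum (f := fun p : ι × ι => if y p.1 = y p.2 then (1 : ℝ) else 0)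
        (fun p _ => by split_ifs <;> norm_num) hp
      simpa [hpe] using h5
    have h5 : ∑ n ∈ S, ∏ q ∈ T, ν n (y q) ≤ (N : ℝ) ^ (1 / 4 : ℝ) * S.card := by
      have h6 := h2 (fun i => (T.filter (fun q => y q = i)).card) (by rw [sum_mult]; exact hT)
      simpa only [← prod_mult] using h6
    have h6 : 0 ≤ ∑ n ∈ S, ∏ q ∈ T, ν n (y q) :=
      sum_nonneg fun n hn => prod_nonneg fun q _ => h0 n hn _
    have h7 : |(∑ n ∈ S, ∏ q ∈ T, ν n (y q)) - S.card| ≤ ((N : ℝ) ^ (1 / 4 : ℝ) + 1) * S.card := by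
      rw [abs_le]
      constructor
      · nlinarith [mul_nonneg hN4 hs]
      · nlinarith [mul_nonneg hN4 hs]
    have h8 : ((N : ℝ) ^ (1 / 4 : ℝ) + 1) * S.card ≤ ((N : ℝ) ^ (1 / 4 : ℝ) + 1) * S.card *
        ∑ p ∈ (T ×ˢ T).filter (fun p => p.1 ≠ p.2), (if y p.1 = y p.2 then (1 : ℝ) else 0) := by
      have : 0 ≤ ((N : ℝ) ^ (1 / 4 : ℝ) + 1) * S.card := by positivity
      nlinarith
    linarith

open Classical in
/-- the mean over the parameters of the forms -/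
theorem meanbound {ι Ω : Type} [Fintype Ω] [Nonempty Ω] {N K0 : ℕ} [NeZero N] (S : Finset ℕ)
    (ν : ℕ → ZMod N → ℝ) (h0 : ∀ n ∈ S, ∀ i, 0 ≤ ν n i)
    (h1 : ∀ T : Finset (ZMod N), T.card ≤ K0 → |(∑ n ∈ S, ∏ i ∈ T, ν n i) - S.card| ≤ S.card / Real.sqrt N)
    (h2 : ∀ m : ZMod N → ℕ, ∑ i, m i ≤ K0 → ∑ n ∈ S, ∏ i, ν n i ^ m i ≤ (N : ℝ) ^ (1 / 4 : ℝ) * S.card)
    (T : Finset ι) (hT : T.card ≤ K0) (y : Ω → ι → ZMod N)
    (hy : ∀ q ∈ T, ∀ q' ∈ T, q ≠ q' → av (fun ω => if y ω q = y ω q' then (1 : ℝ) else 0) ≤ 1 / N) :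
    |(∑ n ∈ S, av (fun ω => ∏ q ∈ T, ν n (y ω q))) - S.card|
      ≤ (1 + 2 * (T.card : ℝ) ^ 2) * S.card / Real.sqrt N := by
  have hs : (0 : ℝ) ≤ S.card := Nat.cast_nonneg _
  have hN1 : (1 : ℝ) ≤ N := by exact_mod_cast Nat.one_le_iff_ne_zero.2 (NeZero.ne N)
  have hN0 : (0 : ℝ) < N := by linarith
  have hsq : 0 < Real.sqrt N := Real.sqrt_pos.2 hN0
  have e1 : (∑ n ∈ S, av (fun ω => ∏ q ∈ T, ν n (y ω q))) - S.card
      = av (fun ω => (∑ n ∈ S, ∏ q ∈ T, ν n (y ω q)) - S.card) := by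
    rw [av_sub, av_sum, av_const]
  rw [e1]
  refine (abs_av_le_of fun ω => point S ν h0 h1 h2 T hT (y ω)).trans ?_
  rw [av_add, av_const, av_mul_left, av_sum]
  have h3 : ∑ p ∈ (T ×ˢ T).filter (fun p => p.1 ≠ p.2), av (fun ω => if y ω p.1 = y ω p.2 then (1 : ℝ) else 0)
      ≤ (T.card : ℝ) ^ 2 / N := by
    have h4 : ∀ p ∈ (T ×ˢ T).filter (fun p => p.1 ≠ p.2),
        av (fun ω => if y ω p.1 = y ω p.2 then (1 : ℝ) else 0) ≤ 1 / N := by
      intro p hp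
      simp only [mem_filter, mem_product] at hp
      exact hy _ hp.1.1 _ hp.1.2 hp.2
    refine (sum_le_sum h4).trans ?_
    rw [sum_const, nsmul_eq_mul, mul_one_div]
    refine div_le_div_of_nonneg_right ?_ hN0.le
    have h5 : ((T ×ˢ T).filter (fun p => p.1 ≠ p.2)).card ≤ T.card * T.card :=
      (card_filter_le _ _).trans (le_of_eq (card_product T T))
    rw [sq]
    exact_mod_cast h5
  have h4 : (N : ℝ) ^ (1 / 4 : ℝ) + 1 ≤ 2 * Real.sqrt N := by
    have h5 : (N : ℝ) ^ (1 / 4 : ℝ) ≤ Real.sqrt N := by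
      rw [Real.sqrt_eq_rpow]
      exact Real.rpow_le_rpow_of_exponent_le hN1 (by norm_num)
    have h6 : 1 ≤ Real.sqrt N := Real.one_le_sqrt.2 hN1
    linarith
  have hN4 : (0 : ℝ) ≤ (N : ℝ) ^ (1 / 4 : ℝ) + 1 := by positivity
  calc S.card / Real.sqrt N + ((N : ℝ) ^ (1 / 4 : ℝ) + 1) * S.card *
        ∑ p ∈ (T ×ˢ T).filter (fun p => p.1 ≠ p.2), av (fun ω => if y ω p.1 = y ω p.2 then (1 : ℝ) else 0)
      ≤ S.card / Real.sqrt N + ((N : ℝ) ^ (1 / 4 : ℝ) + 1) * S.card * ((T.card : ℝ) ^ 2 / N) := by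
        gcongr
    _ ≤ S.card / Real.sqrt N + (2 * Real.sqrt N) * S.card * ((T.card : ℝ) ^ 2 / N) := by
        gcongr
    _ = (1 + 2 * (T.card : ℝ) ^ 2) * S.card / Real.sqrt N := by
        have h7 : (N : ℝ) = Real.sqrt N * Real.sqrt N := (Real.mul_self_sqrt hN0.le).symm
        have h8 : (2 * Real.sqrt N) * S.card * ((T.card : ℝ) ^ 2 / N)
            = 2 * (T.card : ℝ) ^ 2 * S.card / Real.sqrt N := by
          have hh : (T.card : ℝ) ^ 2 / (N : ℝ) * (Real.sqrt N * Real.sqrt N) = (T.card : ℝ) ^ 2 := by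
            rw [← h7, div_mul_cancel₀ _ hN0.ne']
          rw [eq_div_iff hsq.ne']
          linear_combination (2 * (S.card : ℝ)) * hh
        rw [h8]
        ring

theorem sq_av {Ω : Type} [Fintype Ω] (f : Ω → ℝ) : (av f) ^ 2 = av (fun ω : Ω × Ω => f ω.1 * f ω.2) := by
  rw [sq, av_mul_av, av_prod]

end MOMM

open MOMM in
theorem specMOM (hGEN : SpecGEN) : SpecMOM := by
  classical
  intro k hk
  refine ⟨3 + 12 * ((k * 2 ^ k : ℕ) : ℝ) ^ 2, by positivity, ?_⟩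
  intro N _ hN hkN S ν hS h0 h1 h2 T hT
  have hinj : Function.Injective (aN k N) := by
    intro i j h
    unfold aN at h
    have h3 := (ZMod.natCast_eq_natCast_iff' _ _ _).1 h
    rw [Nat.mod_eq_of_lt (by omega), Nat.mod_eq_of_lt (by omega)] at h3
    exact Fin.ext h3
  obtain ⟨g1, g2⟩ := hGEN k N hN hk (aN k N) hinj
  have hTc : T.card ≤ k * 2 ^ k := by
    refine (Finset.card_le_univ T).trans ?_
    simp [Fintype.card_prod]
  have hK0 : 2 * (k * 2 ^ k) = k * 2 ^ (k + 1) := by ring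
  have hs : (0 : ℝ) ≤ S.card := Nat.cast_nonneg _
  have hA := meanbound (ι := Fin k × (Fin k → Bool)) (Ω := Fin k → Bool → ZMod N) S ν h0 h1 h2 T (by omega)
    (fun X q => psi (aN k N) q.1 (pt X q.2)) (fun q hq q' hq' hne => g1 q q' hne (hT q hq) (hT q' hq'))
  have hT2 : (T ×ˢ (univ : Finset Bool)).card = 2 * T.card := by
    rw [card_product, card_univ, Fintype.card_bool, mul_comm]
  have hB := meanbound (ι := (Fin k × (Fin k → Bool)) × Bool)
    (Ω := (Fin k → Bool → ZMod N) × (Fin k → Bool → ZMod N)) S ν h0 h1 h2 (T ×ˢ (univ : Finset Bool))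
    (by rw [hT2]; omega)
    (fun ω p => psi (aN k N) p.1.1 (pt (if p.2 then ω.2 else ω.1) p.1.2)) (by
      rintro ⟨q, b⟩ hq ⟨q', b'⟩ hq' hne
      simp only [mem_product, mem_univ, and_true] at hq hq'
      rw [av_prod]
      cases b <;> cases b'
      · have hne' : q ≠ q' := fun h => hne (by rw [h])
        simp only [Bool.false_eq_true, if_false]
        refine le_trans (le_of_eq ?_) (g1 q q' hne' (hT q hq) (hT q' hq'))
        exact av_congr fun X => av_const _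
      · simp only [Bool.false_eq_true, if_false, if_true]
        exact g2 q q'
      · simp only [Bool.false_eq_true, if_false, if_true]
        refine le_trans (le_of_eq ?_) (g2 q' q)
        refine av_congr fun X => av_congr fun X' => ?_
        simp only [eq_comm]
      · have hne' : q ≠ q' := fun h => hne (by rw [h])
        simp only [if_true]
        rw [av_const]
        exact g1 q q' hne' (hT q hq) (hT q' hq'))
  have eB : ∀ n, av (fun ω : (Fin k → Bool → ZMod N) × (Fin k → Bool → ZMod N) =>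
      ∏ p ∈ T ×ˢ (univ : Finset Bool), ν n (psi (aN k N) p.1.1 (pt (if p.2 then ω.2 else ω.1) p.1.2)))
      = (av (prT (aN k N) (ν n) T)) ^ 2 := by
    intro n
    rw [sq_av]
    refine av_congr fun ω => ?_
    rw [prod_product]
    unfold prT
    rw [← prod_mul_distrib]
    refine prod_congr rfl fun q _ => ?_
    rw [Fintype.prod_bool]
    simp only [Bool.false_eq_true, if_false, if_true]
    ring
  simp only [eB] at hB
  have eA : ∀ n, av (fun X : Fin k → Bool → ZMod N => ∏ q ∈ T, ν n (psi (aN k N) q.1 (pt X q.2)))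
      = av (prT (aN k N) (ν n) T) := fun n => rfl
  simp only [eA] at hA
  have e3 : ∑ n ∈ S, (av (prT (aN k N) (ν n) T) - 1) ^ 2
      = ((∑ n ∈ S, (av (prT (aN k N) (ν n) T)) ^ 2) - S.card)
        - 2 * ((∑ n ∈ S, av (prT (aN k N) (ν n) T)) - S.card) := by
    have : ∀ n ∈ S, (av (prT (aN k N) (ν n) T) - 1) ^ 2
        = (av (prT (aN k N) (ν n) T)) ^ 2 - 2 * av (prT (aN k N) (ν n) T) + 1 := fun n _ => by ring
    rw [sum_congr rfl this, sum_add_distrib, sum_sub_distrib, ← mul_sum, sum_const, nsmul_eq_mul, mul_one]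
    ring
  have hN1 : (1 : ℝ) ≤ N := by exact_mod_cast Nat.one_le_iff_ne_zero.2 (NeZero.ne N)
  have hsq : 0 < Real.sqrt N := Real.sqrt_pos.2 (by linarith)
  have hTr : (T.card : ℝ) ≤ ((k * 2 ^ k : ℕ) : ℝ) := by exact_mod_cast hTc
  have hTr2 : (T.card : ℝ) ^ 2 ≤ ((k * 2 ^ k : ℕ) : ℝ) ^ 2 := pow_le_pow_left₀ (Nat.cast_nonneg _) hTr 2
  have hq : 0 ≤ (S.card : ℝ) / Real.sqrt N := div_nonneg hs hsq.le
  rw [e3]
  have hA' := (abs_le.1 hA).1
  have hB' := (abs_le.1 hB).2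
  rw [hT2] at hB'
  push_cast at hB'
  have e4 : (1 + 2 * (2 * (T.card : ℝ)) ^ 2) * S.card / Real.sqrt N
      = (1 + 8 * (T.card : ℝ) ^ 2) * (S.card / Real.sqrt N) := by ring
  have e5 : (1 + 2 * (T.card : ℝ) ^ 2) * S.card / Real.sqrt N
      = (1 + 2 * (T.card : ℝ) ^ 2) * (S.card / Real.sqrt N) := by ring
  rw [e4] at hB'
  rw [e5] at hA'
  rw [mul_div_assoc]
  nlinarith [mul_le_mul_of_nonneg_right hTr2 hq]

end

end Pool.Agent.Lib.MP_3efbeb_nt.ER.RS
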