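import Pool.Agent.Lib.MP_3efbeb_nt.ER.RS.Spec
import Pool.Agent.Lib.MP_3efbeb_nt.ER.RS.AV

/-!
# MP_3efbeb_nt, ER, RS, module PROB (helper41): from the linear forms condition for most samples to the count
-/

set_option autoImplicit false

namespace Pool.Agent.Lib.MP_3efbeb_nt.ER.RS

open Finset
open scoped Classical

noncomputable section

namespace PROBM

variable {N : ℕ} [NeZero N]

theorem av_eq (f : ZMod N → ℝ) : av f = (∑ i, f i) / (N : ℝ) := by
  unfold av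
  rw [ZMod.card]

/-- second moment of the mean of the weight -/
theorem second (K0 : ℕ) (hK : 2 ≤ K0) (S : Finset ℕ) (ν : ℕ → ZMod N → ℝ)
    (hν : ∀ n ∈ S, ∀ i, 0 ≤ ν n i)
    (h1 : ∀ T : Finset (ZMod N), T.card ≤ K0 → |(∑ n ∈ S, ∏ i ∈ T, ν n i) - S.card| ≤ S.card / Real.sqrt N)
    (h2 : ∀ m : ZMod N → ℕ, ∑ i, m i ≤ K0 → ∑ n ∈ S, ∏ i, ν n i ^ m i ≤ (N : ℝ) ^ (1 / 4 : ℝ) * S.card) :
    ∑ n ∈ S, (av (ν n)) ^ 2 ≤ 3 * S.card := by
  have hN1 : (1 : ℝ) ≤ (N : ℝ) := by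
    have := NeZero.one_le (n := N)
    exact_mod_cast this
  have hN0 : (0 : ℝ) < (N : ℝ) := by linarith
  have hs0 : (0 : ℝ) ≤ (S.card : ℝ) := Nat.cast_nonneg _
  have hsq : (1 : ℝ) ≤ Real.sqrt N := by
    rw [show (1 : ℝ) = Real.sqrt 1 from Real.sqrt_one.symm]
    exact Real.sqrt_le_sqrt hN1
  have hroot : (N : ℝ) ^ (1 / 4 : ℝ) ≤ (N : ℝ) := by
    calc (N : ℝ) ^ (1 / 4 : ℝ) ≤ (N : ℝ) ^ (1 : ℝ) := Real.rpow_le_rpow_of_exponent_le hN1 (by norm_num)
      _ = (N : ℝ) := Real.rpow_one _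
  have hd : ∀ i i' : ZMod N, ∑ n ∈ S, ν n i * ν n i' ≤ 2 * S.card + (if i = i' then (N : ℝ) * S.card else 0) := by
    intro i i'
    by_cases hi : i = i'
    · subst hi
      rw [if_pos rfl]
      have h3 := h2 (fun l => if l = i then 2 else 0) (by
        rw [sum_ite_eq' univ i (fun _ => 2)]
        simpa using hK)
      have h4 : ∀ n, ∏ l, ν n l ^ (if l = i then 2 else 0) = ν n i * ν n i := by
        intro n
        rw [prod_eq_single i (fun l _ hl => by rw [if_neg hl, pow_zero]) (fun h => absurd (mem_univ i) h), if_pos rfl, sq]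
      simp only [h4] at h3
      have h5 : (N : ℝ) ^ (1 / 4 : ℝ) * S.card ≤ (N : ℝ) * S.card := mul_le_mul_of_nonneg_right hroot hs0
      linarith
    · rw [if_neg hi]
      have h3 := h1 {i, i'} (by rw [card_pair hi]; exact hK)
      have h4 : ∀ n, ∏ l ∈ ({i, i'} : Finset (ZMod N)), ν n l = ν n i * ν n i' := fun n => prod_pair hi
      simp only [h4] at h3
      have h5 : (S.card : ℝ) / Real.sqrt N ≤ S.card := div_le_self hs0 hsq
      have h6 := (abs_le.mp h3).2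
      linarith
  have h3 : ∀ n, (av (ν n)) ^ 2 = (∑ i, ∑ i', ν n i * ν n i') / (N : ℝ) ^ 2 := by
    intro n
    rw [av_eq, div_pow, sq (∑ i, ν n i), sum_mul_sum]
  simp only [h3]
  rw [← sum_div, div_le_iff₀ (by positivity), sum_comm]
  have h4 : ∑ i, ∑ n ∈ S, ∑ i', ν n i * ν n i'
      ≤ ∑ i : ZMod N, ∑ i' : ZMod N, (2 * (S.card : ℝ) + (if i = i' then (N : ℝ) * S.card else 0)) := by
    refine sum_le_sum fun i _ => ?_
    rw [sum_comm]
    exact sum_le_sum fun i' _ => hd i i'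
  refine h4.trans ?_
  have h5 : ∀ i : ZMod N, ∑ i' : ZMod N, (2 * (S.card : ℝ) + (if i = i' then (N : ℝ) * S.card else 0))
      = N * (2 * S.card) + N * S.card := by
    intro i
    rw [sum_add_distrib, sum_const, card_univ, ZMod.card, nsmul_eq_mul, sum_ite_eq univ i (fun _ => (N : ℝ) * S.card),
      if_pos (mem_univ _)]
  simp only [h5]
  rw [sum_const, card_univ, ZMod.card, nsmul_eq_mul]
  nlinarith

/-- the count in terms of `cntAP` -/
theorem cnt_eq (k : ℕ) (f : ZMod N → ℝ) :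
    ∑ a : ZMod N, ∑ d : ZMod N, ∏ j ∈ range k, f (a + (j : ZMod N) * d) = (N : ℝ) ^ 2 * cntAP k f := by
  have hN1 : (1 : ℝ) ≤ (N : ℝ) := by
    have := NeZero.one_le (n := N)
    exact_mod_cast this
  have hN0 : (N : ℝ) ≠ 0 := by linarith
  unfold cntAP av
  rw [Fintype.card_prod, ZMod.card, Fintype.sum_prod_type]
  have h : ∀ a d : ZMod N, ∏ j ∈ range k, f (a + (j : ZMod N) * d) = ∏ j : Fin k, f (a + aN k N j * d) := by
    intro a d
    rw [prod_range]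
    rfl
  simp only [h]
  push_cast
  field_simp

end PROBM

open PROBM in
/-- PROB -/
theorem specPROB (hREL : SpecREL) (hMOM : SpecMOM) : ER.SpecPROB := by
  intro k hk
  refine ⟨k * 2 ^ (k + 1), ?_⟩
  intro δ hδ
  obtain ⟨η, c1, hη, hc1, N1, hR⟩ := hREL k (δ / 4) hk (by positivity)
  obtain ⟨C, hC, hM⟩ := hMOM k hk
  have hK2 : 2 ≤ k * 2 ^ (k + 1) := by
    calc 2 ≤ k := hk
      _ = k * 1 := (mul_one k).symm
      _ ≤ k * 2 ^ (k + 1) := Nat.mul_le_mul_left _ Nat.one_le_two_pow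
  set D : ℝ := (Fintype.card (Finset (Fin k × (Fin k → Bool))) : ℝ) with hD
  have hD0 : 0 ≤ D := Nat.cast_nonneg _
  set B : ℝ := 48 * D * C / (η ^ 2 * δ ^ 2) with hB
  have hB0 : 0 ≤ B := by positivity
  refine ⟨c1 * δ ^ 2 / 12, by positivity, max (max N1 k) ⌈B ^ 2⌉₊, ?_⟩
  intro N _ hN hN0 S ν f hS hf h1 h2 h3
  have hN1 : N1 ≤ N := le_trans (le_trans (le_max_left _ _) (le_max_left _ _)) hN0
  have hkN : k ≤ N := le_trans (le_trans (le_max_right _ _) (le_max_left _ _)) hN0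
  have hBN : B ≤ Real.sqrt N := by
    apply Real.le_sqrt_of_sq_le
    exact (Nat.le_ceil _).trans (by exact_mod_cast le_trans (le_max_right _ _) hN0)
  have hNpos : (0 : ℝ) < (N : ℝ) := by exact_mod_cast hN.pos
  have hsqpos : 0 < Real.sqrt N := Real.sqrt_pos.mpr hNpos
  have hs : (0 : ℝ) < (S.card : ℝ) := by exact_mod_cast hS.card_pos
  have hν : ∀ n ∈ S, ∀ i, 0 ≤ ν n i := fun n hn i => (hf n hn i).1.trans (hf n hn i).2
  have hM1 := hM N hN hkN S ν hS hν h1 h2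
  -- the bad samples
  set Bad : Finset ℕ := S.filter (fun n => ¬ LF (aN k N) (ν n) η) with hBad
  have hBadcard : η ^ 2 * (Bad.card : ℝ) ≤ D * (C * S.card / Real.sqrt N) := by
    have ha : ∀ n ∈ Bad, η ^ 2 ≤ ∑ T ∈ (univ : Finset (Finset (Fin k × (Fin k → Bool)))).filter (fun T => Adm T),
        (av (prT (aN k N) (ν n) T) - 1) ^ 2 := by
      intro n hn
      have hn2 := (mem_filter.mp hn).2
      unfold LF at hn2
      push Not at hn2
      obtain ⟨T, hT, hT2⟩ := hn2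
      have hb : η ^ 2 ≤ (av (prT (aN k N) (ν n) T) - 1) ^ 2 := by
        rw [← sq_abs (av (prT (aN k N) (ν n) T) - 1)]
        exact pow_le_pow_left₀ hη.le hT2.le 2
      refine hb.trans ?_
      exact single_le_sum (f := fun T => (av (prT (aN k N) (ν n) T) - 1) ^ 2) (fun T _ => sq_nonneg _)
        (mem_filter.mpr ⟨mem_univ T, hT⟩)
    calc η ^ 2 * (Bad.card : ℝ) = ∑ n ∈ Bad, η ^ 2 := by rw [sum_const, nsmul_eq_mul, mul_comm]
      _ ≤ ∑ n ∈ Bad, ∑ T ∈ (univ : Finset (Finset (Fin k × (Fin k → Bool)))).filter (fun T => Adm T),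
        (av (prT (aN k N) (ν n) T) - 1) ^ 2 := sum_le_sum ha
      _ ≤ ∑ n ∈ S, ∑ T ∈ (univ : Finset (Finset (Fin k × (Fin k → Bool)))).filter (fun T => Adm T),
        (av (prT (aN k N) (ν n) T) - 1) ^ 2 :=
          sum_le_sum_of_subset_of_nonneg (filter_subset _ _) (fun n _ _ => sum_nonneg fun T _ => sq_nonneg _)
      _ = ∑ T ∈ (univ : Finset (Finset (Fin k × (Fin k → Bool)))).filter (fun T => Adm T), ∑ n ∈ S,
        (av (prT (aN k N) (ν n) T) - 1) ^ 2 := sum_comm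
      _ ≤ ∑ T ∈ (univ : Finset (Finset (Fin k × (Fin k → Bool)))).filter (fun T => Adm T),
          (C * S.card / Real.sqrt N) := sum_le_sum fun T hT => hM1 T (mem_filter.mp hT).2
      _ ≤ ∑ T : Finset (Fin k × (Fin k → Bool)), (C * S.card / Real.sqrt N) :=
          sum_le_sum_of_subset_of_nonneg (filter_subset _ _) (fun T _ _ => by positivity)
      _ = D * (C * S.card / Real.sqrt N) := by rw [sum_const, nsmul_eq_mul, card_univ]
  have hBad2 : 48 * (Bad.card : ℝ) ≤ δ ^ 2 * S.card := by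
    have hb1 : 48 * D * C ≤ η ^ 2 * δ ^ 2 * Real.sqrt N := by
      have := mul_le_mul_of_nonneg_left hBN (show 0 ≤ η ^ 2 * δ ^ 2 by positivity)
      rw [hB, mul_div_cancel₀ _ (by positivity)] at this
      exact this
    have hb2 : D * (C * S.card / Real.sqrt N) * 48 ≤ η ^ 2 * δ ^ 2 * S.card := by
      rw [← mul_div_assoc, div_mul_eq_mul_div, div_le_iff₀ hsqpos]
      nlinarith [mul_le_mul_of_nonneg_right hb1 hs.le]
    have hb3 : η ^ 2 * (48 * (Bad.card : ℝ)) ≤ η ^ 2 * (δ ^ 2 * S.card) := by nlinarith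
    exact le_of_mul_le_mul_left hb3 (by positivity)
  -- second moments
  have hZ := second (k * 2 ^ (k + 1)) hK2 S ν hν h1 h2
  have hY0 : ∀ n ∈ S, 0 ≤ av (f n) := fun n hn => av_nonneg fun i => (hf n hn i).1
  have hYZ : ∀ n ∈ S, (av (f n)) ^ 2 ≤ (av (ν n)) ^ 2 := fun n hn =>
    pow_le_pow_left₀ (hY0 n hn) (av_mono fun i => (hf n hn i).2) 2
  have hY2 : ∀ S' ⊆ S, ∑ n ∈ S', (av (f n)) ^ 2 ≤ 3 * S.card := by
    intro S' hS'
    calc ∑ n ∈ S', (av (f n)) ^ 2 ≤ ∑ n ∈ S, (av (f n)) ^ 2 :=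
          sum_le_sum_of_subset_of_nonneg hS' (fun n _ _ => sq_nonneg _)
      _ ≤ ∑ n ∈ S, (av (ν n)) ^ 2 := sum_le_sum hYZ
      _ ≤ 3 * S.card := hZ
  have hYsum : δ * S.card ≤ ∑ n ∈ S, av (f n) := by
    have h4 : ∑ n ∈ S, av (f n) = (∑ n ∈ S, ∑ i, f n i) / (N : ℝ) := by
      rw [sum_div]
      exact sum_congr rfl fun n _ => av_eq (f n)
    rw [h4, le_div_iff₀ hNpos]
    linarith
  -- the contribution of the bad samples
  have hCS : ∀ S' ⊆ S, (∑ n ∈ S', av (f n)) ^ 2 ≤ (S'.card : ℝ) * (3 * S.card) := by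
    intro S' hS'
    have h4 := sum_mul_sq_le_sq_mul_sq S' (fun _ => (1 : ℝ)) (fun n => av (f n))
    simp only [one_mul, one_pow, sum_const, nsmul_eq_mul, mul_one] at h4
    exact h4.trans (mul_le_mul_of_nonneg_left (hY2 S' hS') (Nat.cast_nonneg _))
  have hBadsub : Bad ⊆ S := filter_subset _ _
  have hYbad : ∑ n ∈ Bad, av (f n) ≤ δ / 4 * S.card := by
    have h4 := hCS Bad hBadsub
    have h5 : (∑ n ∈ Bad, av (f n)) ^ 2 ≤ (δ / 4 * S.card) ^ 2 := by nlinarith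
    exact le_of_sq_le_sq h5 (by positivity)
  -- the good samples
  set G : Finset ℕ := (S \ Bad).filter (fun n => δ / 4 ≤ av (f n)) with hG
  have hGS : G ⊆ S := (filter_subset _ _).trans sdiff_subset
  have hYG : δ / 2 * S.card ≤ ∑ n ∈ G, av (f n) := by
    have h4 : ∑ n ∈ S, av (f n) = ∑ n ∈ S \ Bad, av (f n) + ∑ n ∈ Bad, av (f n) := (sum_sdiff hBadsub).symm
    have h5 : ∑ n ∈ S \ Bad, av (f n) = ∑ n ∈ G, av (f n)
        + ∑ n ∈ (S \ Bad).filter (fun n => ¬ δ / 4 ≤ av (f n)), av (f n) :=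
      (sum_filter_add_sum_filter_not _ _ _).symm
    have h6 : ∑ n ∈ (S \ Bad).filter (fun n => ¬ δ / 4 ≤ av (f n)), av (f n) ≤ δ / 4 * S.card := by
      calc ∑ n ∈ (S \ Bad).filter (fun n => ¬ δ / 4 ≤ av (f n)), av (f n)
          ≤ ∑ n ∈ (S \ Bad).filter (fun n => ¬ δ / 4 ≤ av (f n)), δ / 4 :=
            sum_le_sum fun n hn => (not_le.mp (mem_filter.mp hn).2).le
        _ = (((S \ Bad).filter (fun n => ¬ δ / 4 ≤ av (f n))).card : ℝ) * (δ / 4) := by rw [sum_const, nsmul_eq_mul]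
        _ ≤ (S.card : ℝ) * (δ / 4) := by
            apply mul_le_mul_of_nonneg_right _ (by positivity)
            exact_mod_cast card_le_card ((filter_subset _ _).trans sdiff_subset)
        _ = δ / 4 * S.card := mul_comm _ _
    linarith
  have hGcard : δ ^ 2 / 12 * S.card ≤ (G.card : ℝ) := by
    have h4 := hCS G hGS
    have h5 : (δ / 2 * S.card) ^ 2 ≤ (∑ n ∈ G, av (f n)) ^ 2 := pow_le_pow_left₀ (by positivity) hYG 2
    have h6 : (3 * (S.card : ℝ)) * (δ ^ 2 / 12 * S.card) ≤ (3 * (S.card : ℝ)) * (G.card : ℝ) := by nlinarith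
    exact le_of_mul_le_mul_left h6 (by positivity)
  -- the count
  have hcount : ∀ n ∈ S, 0 ≤ ∑ a : ZMod N, ∑ d : ZMod N, ∏ j ∈ range k, f n (a + (j : ZMod N) * d) := fun n hn =>
    sum_nonneg fun a _ => sum_nonneg fun d _ => prod_nonneg fun j _ => (hf n hn _).1
  have hcountG : ∀ n ∈ G, (N : ℝ) ^ 2 * c1 ≤ ∑ a : ZMod N, ∑ d : ZMod N, ∏ j ∈ range k, f n (a + (j : ZMod N) * d) := by
    intro n hn
    obtain ⟨hn1, hn2⟩ := mem_filter.mp hn
    obtain ⟨hn3, hn4⟩ := mem_sdiff.mp hn1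
    have hLF : LF (aN k N) (ν n) η := by
      by_contra h
      exact hn4 (mem_filter.mpr ⟨hn3, h⟩)
    have h4 := hR N hN hN1 (ν n) (f n) (hf n hn3) hLF hn2
    rw [cnt_eq]
    exact mul_le_mul_of_nonneg_left h4 (by positivity)
  calc c1 * δ ^ 2 / 12 * (N : ℝ) ^ 2 * S.card = (N : ℝ) ^ 2 * c1 * (δ ^ 2 / 12 * S.card) := by ring
    _ ≤ (N : ℝ) ^ 2 * c1 * (G.card : ℝ) := mul_le_mul_of_nonneg_left hGcard (by positivity)
    _ = ∑ n ∈ G, (N : ℝ) ^ 2 * c1 := by rw [sum_const, nsmul_eq_mul, mul_comm]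
    _ ≤ ∑ n ∈ G, ∑ a : ZMod N, ∑ d : ZMod N, ∏ j ∈ range k, f n (a + (j : ZMod N) * d) := sum_le_sum hcountG
    _ ≤ _ := sum_le_sum_of_subset_of_nonneg hGS (fun n hn _ => hcount n hn)

end

end Pool.Agent.Lib.MP_3efbeb_nt.ER.RS
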