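import Pool.Agent.Lib.MP_3efbeb_nt.ER.RS.Spec
import Pool.Agent.Lib.MP_3efbeb_nt.ER.RS.AV

/-!
# MP_3efbeb_nt, ER, RS, module REL (helper12): the relative Szemeredi theorem, assembly
-/

set_option autoImplicit false

namespace Pool.Agent.Lib.MP_3efbeb_nt.ER.RS

open Finset

noncomputable section

theorem LF_mono {k N : ℕ} [NeZero N] {a : Fin k → ZMod N} {ν : ZMod N → ℝ} {η η' : ℝ} (h : η ≤ η') (H : LF a ν η) :
    LF a ν η' := fun T hT => (H T hT).trans h

theorem Cut_mono {k N : ℕ} [NeZero N] {a : Fin k → ZMod N} {F : ZMod N → ℝ} {η η' : ℝ} (h : η ≤ η') (H : Cut a F η) :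
    Cut a F η' := fun j u h1 h2 => (H j u h1 h2).trans h

/-- the sum of the coordinates is equidistributed -/
theorem av_sum_coord {N : ℕ} [NeZero N] (m : ℕ) (hm : 1 ≤ m) (G : ZMod N → ℝ) :
    av (fun y : Fin m → ZMod N => G (∑ i, y i)) = av G := by
  obtain ⟨n, rfl⟩ : ∃ n, m = n + 1 := ⟨m - 1, by omega⟩
  rw [av_update (0 : Fin (n + 1))]
  have h : ∀ y : Fin (n + 1) → ZMod N, av (fun v => G (∑ i, Function.update y 0 v i)) = av G := by
    intro y
    have h1 : ∀ v : ZMod N, ∑ i, Function.update y 0 v i = Equiv.addRight (∑ i ∈ univ \ {0}, y i) v := by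
      intro v
      rw [Finset.sum_update_of_mem (mem_univ _)]
      rfl
    simp only [h1]
    exact av_equiv (Equiv.addRight (∑ i ∈ univ \ {0}, y i)) G
  calc av (fun y : Fin (n + 1) → ZMod N => av (fun v => G (∑ i, Function.update y 0 v i)))
      = av (fun _ : Fin (n + 1) → ZMod N => av G) := av_congr h
    _ = av G := av_const _

theorem aN_inj (k N : ℕ) (h : k ≤ N) : Function.Injective (aN k N) := by
  intro i j hij
  unfold aN at hij
  rw [ZMod.natCast_eq_natCast_iff'] at hij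
  rw [Nat.mod_eq_of_lt (lt_of_lt_of_le i.2 h), Nat.mod_eq_of_lt (lt_of_lt_of_le j.2 h)] at hij
  exact Fin.ext hij

theorem specREL (hCL : SpecCL) (hREP : SpecREP) (hDMT : SpecDMT) (hBOXB : SpecBOXB) (hVAR : SpecVAR)
    (hVARX : SpecVARX) : SpecREL := by
  intro k δ hk hδ
  obtain ⟨m, rfl⟩ : ∃ m, k = m + 1 := ⟨k - 1, by omega⟩
  have hm : 1 ≤ m := by omega
  obtain ⟨c0, hc0, N1, H1⟩ := hVAR (m + 1) (δ / 2) (by positivity)
  obtain ⟨ε1, η1, hε1, hη1, hη1', H2⟩ := hCL (m + 1) (c0 / 2) (by positivity)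
  obtain ⟨η2, hη2, H3⟩ := hDMT m (min ε1 (δ / 2)) hm (lt_min hε1 (by positivity))
  obtain ⟨η3, hη3, hη3', H4⟩ := hBOXB m η2 hη2
  refine ⟨min η1 η3, c0 / 2, lt_min hη1 hη3, by positivity, max N1 (m + 1), ?_⟩
  intro N _ hN hNN ν f hf hLF hav
  have hinj : Function.Injective (aN (m + 1) N) := aN_inj _ _ ((le_max_right _ _).trans hNN)
  have hν : ∀ i, 0 ≤ ν i := fun i => (hf i).1.trans (hf i).2
  have hB : Box m (fun i => ν i - 1) η2 := H4 N hN _ hinj ν hν (LF_mono (min_le_right _ _) hLF)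
  obtain ⟨g, hg, hgB⟩ := H3 N ν f hf hB
  have havg : δ / 2 ≤ av g := by
    have h := hgB (fun _ _ => 1) (fun _ _ _ => rfl) (fun _ _ => ⟨zero_le_one, le_refl _⟩)
    simp only [prod_const_one, mul_one] at h
    have h' : av (fun y : Fin m → ZMod N => f (∑ i, y i) - g (∑ i, y i)) = av f - av g := by
      rw [av_sub, av_sum_coord m hm f, av_sum_coord m hm g]
    rw [h'] at h
    have h2 : av f - av g ≤ δ / 2 := (le_abs_self _).trans (h.trans (min_le_right _ _))
    linarith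
  have h1 := H1 N hN ((le_max_left _ _).trans hNN) g hg havg
  have hcut : Cut (aN (m + 1) N) (fun i => f i - g i) ε1 :=
    Cut_mono (min_le_left _ _) ((hREP m N hN _ hinj _ _).1 hgB)
  have h2 := H2 N (aN (m + 1) N) ν f g hf hg (LF_mono (min_le_left _ _) hLF) hcut
  rw [hVARX (m + 1) N hN hk _ hinj f, hVARX (m + 1) N hN hk _ hinj g] at h2
  unfold cntAP at h1 ⊢
  have h3 := (abs_le.1 h2).1
  linarith

end

end Pool.Agent.Lib.MP_3efbeb_nt.ER.RS
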