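import Pool.Agent.Lib.MP_3efbeb_nt.ER.RS.Spec
import Pool.Agent.Lib.MP_3efbeb_nt.ER.RS.AV

/-!
# MP_3efbeb_nt, ER, RS: STR, the strong linear forms estimate (helper75)
-/

set_option autoImplicit false

namespace Pool.Agent.Lib.MP_3efbeb_nt.ER.RS

open Finset

theorem specSTR (hGCS : SpecGCS) (hLFX : SpecLFX) : SpecSTR := by
  classical
  intro k
  refine ⟨(2 ^ (2 ^ k + 1)) ^ 2 ^ (k - 1) * 2 ^ (2 ^ k + k * 2 ^ k), by positivity, ?_⟩
  intro N _ a ν η hν hη0 hη1 hLF j A hA hAν
  obtain ⟨hL1, hL2⟩ := hLFX k N a ν η hη0 hη1 hLF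
  have h2 : ∀ n : ℕ, (1 : ℝ) ≤ 2 ^ n := fun n => one_le_pow₀ (by norm_num)
  have hS : ∀ S, S ⊆ univ.erase j → ∀ i, i ≠ j → i ∉ S →
      av (fun X : Fin k → Bool → ZMod N => ∏ w ∈ Om S, ∏ b : Bool,
        (fun x => 1 + ν (psi a i x)) (pt X (Function.update w j b))) ≤ 2 ^ (2 ^ k + 1) := by
    intro S hS i hij hiS
    have hjS : j ∉ S := fun h => by simpa using hS h
    set T : Finset (Fin k × (Fin k → Bool)) :=
      (Om S ×ˢ (univ : Finset Bool)).image fun q => (i, Function.update q.1 j q.2) with hT
    have hOm : ∀ w ∈ Om S, ∀ l, l ∉ S → w l = false := by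
      intro w hw l hl
      by_contra hc
      exact hl (mem_Om.1 hw l (by simpa using hc))
    have hadm : Adm T := by
      intro q hq
      obtain ⟨⟨w, b⟩, hw, rfl⟩ := mem_image.1 hq
      simp only
      rw [Function.update_of_ne hij]
      exact hOm w (mem_product.1 hw).1 i hiS
    have hcard : T.card ≤ 2 ^ k := by
      have h3 : T ⊆ ({i} : Finset (Fin k)) ×ˢ (univ : Finset (Fin k → Bool)) := by
        intro q hq
        obtain ⟨⟨w, b⟩, hw, rfl⟩ := mem_image.1 hq
        simp
      have h4 := card_le_card h3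
      simpa [card_product] using h4
    have h5 : ∀ X : Fin k → Bool → ZMod N, ∏ w ∈ Om S, ∏ b : Bool,
        (fun x => 1 + ν (psi a i x)) (pt X (Function.update w j b)) =
        ∏ q ∈ T, (1 + ν (psi a q.1 (pt X q.2))) := by
      intro X
      rw [hT, prod_image, prod_product]
      rintro ⟨w, b⟩ hw ⟨w', b'⟩ hw' h
      have hw := hOm w (mem_product.1 hw).1 j hjS
      have hw' := hOm w' (mem_product.1 hw').1 j hjS
      have h6 := (Prod.mk.inj h).2
      simp only at h6
      have h7 : b = b' := by
        have := congrFun h6 j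
        simpa using this
      have h8 : w = w' := by
        funext l
        by_cases hl : l = j
        · subst hl
          rw [hw, hw']
        · have := congrFun h6 l
          rwa [Function.update_of_ne hl, Function.update_of_ne hl] at this
      rw [h7, h8]
    rw [av_congr h5]
    refine (hL1 T hadm).trans ?_
    exact pow_le_pow_right₀ (by norm_num) (by omega)
  have hG := hGCS k (ZMod N) j (fun x => ν (psi a j x) - 1) A (fun i x => 1 + ν (psi a i x))
    (2 ^ (2 ^ k + 1)) (h2 _) hA (fun i _ => ind_psi a i (fun z => 1 + ν z)) hAν hS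
  refine hG.trans ?_
  rw [mul_assoc]
  refine mul_le_mul_of_nonneg_left ?_ (by positivity)
  set T : Finset (Fin k × (Fin k → Bool)) :=
    ((univ.erase j) ×ˢ (univ : Finset (Fin k → Bool))).filter fun q => q.2 q.1 = false with hT
  have h3 : ∀ X : Fin k → Bool → ZMod N, ((∏ w ∈ Om (univ.erase j),
      (fun x => ν (psi a j x) - 1) (pt X w)) * ∏ i ∈ univ.erase j,
      ∏ w ∈ univ.filter (fun w : Fin k → Bool => w i = false),
        (fun i x => 1 + ν (psi a i x)) i (pt X w)) =
      (∏ w ∈ Om (univ.erase j), (ν (psi a j (pt X w)) - 1)) *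
        ∏ q ∈ T, (1 + ν (psi a q.1 (pt X q.2))) := by
    intro X
    congr 1
    rw [hT, prod_filter, prod_product]
    refine prod_congr rfl fun i _ => ?_
    rw [prod_filter]
  rw [av_congr h3]
  have hcard : T.card ≤ k * 2 ^ k := by
    calc T.card ≤ ((univ.erase j) ×ˢ (univ : Finset (Fin k → Bool))).card := card_filter_le _ _
      _ ≤ k * 2 ^ k := by
        rw [card_product]
        have h4 : (univ.erase j).card ≤ k := by
          have := card_le_univ (univ.erase j)
          simpa using this
        have h5 : (univ : Finset (Fin k → Bool)).card = 2 ^ k := by simp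
        rw [h5]
        gcongr
  have h6 := hL2 j T (fun q hq => (mem_filter.1 hq).2)
    (fun q hq => (mem_erase.1 (mem_product.1 (mem_filter.1 hq).1).1).1)
  refine h6.trans ?_
  gcongr
  norm_num

end Pool.Agent.Lib.MP_3efbeb_nt.ER.RS
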