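import Pool.Agent.Lib.MP_3efbeb_nt.ER.RS.Spec
import Pool.Agent.Lib.MP_3efbeb_nt.ER.RS.AV

/-!
# MP_3efbeb_nt, ER, RS: VAR (helper82)
-/

set_option autoImplicit false

namespace Pool.Agent.Lib.MP_3efbeb_nt.ER.RS

open Finset

noncomputable section

namespace VARM

/-- patterns in dense subsets of an initial segment, with bounded step -/
theorem pattern (hSZ : DH.SpecSZ) (k : ℕ) (δ : ℝ) (hδ : 0 < δ) : ∃ M : ℕ, 1 ≤ M ∧ ∀ B : Finset ℕ, B ⊆ range M →
    δ * M ≤ B.card → ∃ t e : ℕ, t < M ∧ 1 ≤ e ∧ e ≤ M ∧ ∀ h < k, t + e * h ∈ B := by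
  obtain ⟨L0, hL0⟩ := hSZ δ (range k) hδ
  refine ⟨max L0 1, le_max_right _ _, fun B hB hc => ?_⟩
  obtain ⟨t, e, he, h⟩ := hL0 (max L0 1) (le_max_left _ _) B hB hc
  rcases Nat.lt_or_ge k 1 with h0 | h1
  · exact ⟨0, 1, by omega, le_refl 1, le_max_right _ _, fun j hj => by omega⟩
  · have ht : t ∈ B := by
      have := h 0 (mem_range.2 (by omega))
      simpa using this
    have htM : t < max L0 1 := mem_range.1 (hB ht)
    rcases Nat.lt_or_ge k 2 with h2 | h2
    · refine ⟨t, 1, htM, le_refl 1, le_max_right _ _, fun j hj => ?_⟩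
      have : j = 0 := by omega
      subst this
      simpa using ht
    · have h3 := h 1 (mem_range.2 (by omega))
      have h4 := mem_range.1 (hB h3)
      exact ⟨t, e, htM, he, by omega, fun j hj => h j (mem_range.2 hj)⟩

end VARM

open Classical in
theorem specVAR (hSZ : DH.SpecSZ) : SpecVAR := by
  intro k δ0 hδ0
  set δ : ℝ := min δ0 1 with hδdef
  have hδ : 0 < δ := lt_min hδ0 one_pos
  have hδ1 : δ ≤ 1 := min_le_right _ _
  obtain ⟨M, hM, hpat⟩ := VARM.pattern hSZ k (δ / 4) (by positivity)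
  have hMr : (0 : ℝ) < M := by exact_mod_cast hM
  refine ⟨δ / (4 * M ^ 2) * (δ / 2) ^ k, by positivity, M + 1, ?_⟩
  intro N _ hN hNM g hg hav0
  have : Fact N.Prime := ⟨hN⟩
  have hav : δ ≤ av g := (min_le_left _ _).trans hav0
  have hNr : (0 : ℝ) < N := by exact_mod_cast hN.pos
  -- the set `A`
  let A : Finset (ZMod N) := univ.filter (fun x => δ / 2 ≤ g x)
  have hA : δ / 2 * N ≤ (A.card : ℝ) := by
    have h1 : δ * N ≤ ∑ x, g x := by
      unfold av at hav
      rw [ZMod.card] at hav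
      rwa [le_div_iff₀ hNr] at hav
    have h2 : ∑ x, g x ≤ ∑ x, ((if x ∈ A then (1 : ℝ) else 0) + δ / 2) := by
      refine sum_le_sum fun x _ => ?_
      by_cases hx : x ∈ A
      · rw [if_pos hx]
        have := (hg x).2
        linarith
      · rw [if_neg hx]
        have h3 : ¬ δ / 2 ≤ g x := fun h => hx (mem_filter.2 ⟨mem_univ _, h⟩)
        linarith
    have h3 : ∑ x, ((if x ∈ A then (1 : ℝ) else 0) + δ / 2) = A.card + N * (δ / 2) := by
      rw [sum_add_distrib, sum_const, card_univ, ZMod.card, nsmul_eq_mul, sum_boole]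
      congr 2
      simp
    linarith
  -- the good pairs
  let Q : Finset (ZMod N × ZMod N) := univ.filter (fun p => ∀ h < k, p.1 + (h : ZMod N) * p.2 ∈ A)
  let B : ZMod N × ZMod N → Finset ℕ := fun p => (range M).filter (fun l => p.1 + (l : ZMod N) * p.2 ∈ A)
  let G : Finset (ZMod N × ZMod N) := univ.filter (fun p => δ / 4 * M ≤ ((B p).card : ℝ))
  -- total count of the `B`
  have hsumB : ∑ p : ZMod N × ZMod N, ((B p).card : ℝ) = M * N * A.card := by
    have h1 : ∀ p, ((B p).card : ℝ) = ∑ l ∈ range M, (if p.1 + (l : ZMod N) * p.2 ∈ A then (1 : ℝ) else 0) := by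
      intro p
      rw [sum_boole]
    simp only [h1]
    rw [sum_comm]
    have h2 : ∀ l ∈ range M, ∑ p : ZMod N × ZMod N, (if p.1 + (l : ZMod N) * p.2 ∈ A then (1 : ℝ) else 0)
        = N * A.card := by
      intro l _
      rw [Fintype.sum_prod_type_right]
      have h3 : ∀ d : ZMod N, ∑ t : ZMod N, (if t + (l : ZMod N) * d ∈ A then (1 : ℝ) else 0) = A.card := by
        intro d
        rw [Fintype.sum_equiv (Equiv.addRight ((l : ZMod N) * d)) (fun t => if t + (l : ZMod N) * d ∈ A then (1 : ℝ) else 0)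
          (fun t => if t ∈ A then (1 : ℝ) else 0) (fun t => rfl), sum_boole]
        congr 2
        simp
      simp only [h3]
      rw [sum_const, card_univ, ZMod.card, nsmul_eq_mul]
    rw [sum_congr rfl h2, sum_const, card_range, nsmul_eq_mul]
    ring
  have hG : δ / 4 * N ^ 2 ≤ (G.card : ℝ) := by
    have h1 : ∑ p : ZMod N × ZMod N, ((B p).card : ℝ)
        ≤ ∑ p : ZMod N × ZMod N, ((if p ∈ G then (M : ℝ) else 0) + δ / 4 * M) := by
      refine sum_le_sum fun p _ => ?_
      by_cases hp : p ∈ G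
      · rw [if_pos hp]
        have h2 : ((B p).card : ℝ) ≤ M := by
          have : (B p).card ≤ M := (card_filter_le _ _).trans (le_of_eq (card_range M))
          exact_mod_cast this
        have : 0 ≤ δ / 4 * M := by positivity
        linarith
      · rw [if_neg hp]
        have h3 : ¬ δ / 4 * M ≤ ((B p).card : ℝ) := fun h => hp (mem_filter.2 ⟨mem_univ _, h⟩)
        linarith
    have h2 : ∑ p : ZMod N × ZMod N, ((if p ∈ G then (M : ℝ) else 0) + δ / 4 * M)
        = G.card * M + N ^ 2 * (δ / 4 * M) := by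
      rw [sum_add_distrib, sum_const, card_univ, Fintype.card_prod, ZMod.card, nsmul_eq_mul, ← sum_filter, sum_const,
        nsmul_eq_mul]
      push_cast
      congr 1
      · congr 2
        simp
      · ring
    rw [hsumB, h2] at h1
    have h3 : M * N * (δ / 2 * N) ≤ M * N * (A.card : ℝ) := by
      gcongr
    have h4 : (M : ℝ) * (δ / 4 * N ^ 2) ≤ M * G.card := by nlinarith
    exact le_of_mul_le_mul_left h4 hMr
  -- from `G` to `Q`
  have hGQ : (G.card : ℝ) ≤ M ^ 2 * Q.card := by
    have h1 : G ⊆ (range M ×ˢ Icc 1 M).biUnion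
        (fun q => univ.filter (fun p : ZMod N × ZMod N => (p.1 + (q.1 : ZMod N) * p.2, (q.2 : ZMod N) * p.2) ∈ Q)) := by
      intro p hp
      have h2 := (mem_filter.1 hp).2
      obtain ⟨t, e, ht, he, heM, h3⟩ := hpat (B p) (filter_subset _ _) h2
      rw [mem_biUnion]
      refine ⟨(t, e), by simp only [mem_product, mem_range, mem_Icc]; exact ⟨ht, he, heM⟩, ?_⟩
      refine mem_filter.2 ⟨mem_univ _, mem_filter.2 ⟨mem_univ _, fun h hh => ?_⟩⟩
      have h4 := (mem_filter.1 (h3 h hh)).2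
      have e1 : p.1 + (t : ZMod N) * p.2 + (h : ZMod N) * ((e : ZMod N) * p.2)
          = p.1 + ((t + e * h : ℕ) : ZMod N) * p.2 := by
        push_cast
        ring
      change p.1 + (t : ZMod N) * p.2 + (h : ZMod N) * ((e : ZMod N) * p.2) ∈ A
      rw [e1]
      exact h4
    have h2 : G.card ≤ ∑ q ∈ range M ×ˢ Icc 1 M, Q.card := by
      refine (card_le_card h1).trans (card_biUnion_le.trans (sum_le_sum fun q hq => ?_))
      simp only [mem_product, mem_range, mem_Icc] at hq
      refine card_le_card_of_injOn (fun p : ZMod N × ZMod N => (p.1 + (q.1 : ZMod N) * p.2, (q.2 : ZMod N) * p.2))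
        (fun p hp => (mem_filter.1 hp).2) ?_
      intro p _ p' _ h
      have h3 := congrArg Prod.snd h
      have h4 := congrArg Prod.fst h
      simp only at h3 h4
      have hq0 : (q.2 : ZMod N) ≠ 0 := by
        intro h5
        rw [ZMod.natCast_eq_zero_iff] at h5
        have := Nat.le_of_dvd (by omega) h5
        omega
      have h5 : p.2 = p'.2 := mul_left_cancel₀ hq0 h3
      rw [h5] at h4
      exact Prod.ext (add_right_cancel h4) h5
    rw [sum_const, card_product, card_range, Nat.card_Icc, smul_eq_mul, Nat.add_sub_cancel] at h2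
    rw [sq]
    exact_mod_cast h2
  -- conclusion
  have hcnt : (Q.card : ℝ) * (δ / 2) ^ k / N ^ 2 ≤ cntAP k g := by
    unfold cntAP av
    rw [Fintype.card_prod, ZMod.card]
    push_cast
    rw [← sq]
    refine div_le_div_of_nonneg_right ?_ (by positivity)
    have h1 : ∑ p ∈ Q, (δ / 2) ^ k ≤ ∑ p ∈ Q, ∏ j : Fin k, g (p.1 + aN k N j * p.2) := by
      refine sum_le_sum fun p hp => ?_
      have h2 := (mem_filter.1 hp).2
      have h3 : (δ / 2) ^ k = ∏ _j : Fin k, (δ / 2) := by rw [prod_const, card_univ, Fintype.card_fin]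
      rw [h3]
      refine prod_le_prod (fun _ _ => by positivity) fun j _ => ?_
      exact (mem_filter.1 (h2 j j.2)).2
    rw [sum_const, nsmul_eq_mul] at h1
    refine h1.trans (sum_le_sum_of_subset_of_nonneg (subset_univ _) fun p _ _ => ?_)
    exact prod_nonneg fun j _ => (hg _).1
  refine le_trans ?_ hcnt
  rw [le_div_iff₀ (by positivity)]
  have h1 : δ / (4 * (M : ℝ) ^ 2) * N ^ 2 ≤ Q.card := by
    rw [div_mul_eq_mul_div, div_le_iff₀ (by positivity)]
    nlinarith
  have h2 : (0 : ℝ) ≤ (δ / 2) ^ k := by positivity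
  calc δ / (4 * (M : ℝ) ^ 2) * (δ / 2) ^ k * N ^ 2 = δ / (4 * (M : ℝ) ^ 2) * N ^ 2 * (δ / 2) ^ k := by ring
    _ ≤ Q.card * (δ / 2) ^ k := mul_le_mul_of_nonneg_right h1 h2

end

end Pool.Agent.Lib.MP_3efbeb_nt.ER.RS
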