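import Pool.Agent.Lib.MP_3efbeb_nt.ER.RS.Spec
import Pool.Agent.Lib.MP_3efbeb_nt.ER.RS.AV

/-!
# MP_3efbeb_nt, ER, RS: VARX (helper82)
-/

set_option autoImplicit false

namespace Pool.Agent.Lib.MP_3efbeb_nt.ER.RS

open Finset

noncomputable section

namespace VARXM

/-- a surjective homomorphism maps the uniform mean to the uniform mean -/
theorem av_hom {A B : Type} [AddCommGroup A] [AddCommGroup B] [Fintype A] [Fintype B]
    (φ : A →+ B) (hφ : Function.Surjective φ) (F : B → ℝ) : av (fun x => F (φ x)) = av F := by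
  classical
  have h1 : ∑ x, F (φ x) = ∑ b, ((univ.filter (fun x => φ x = b)).card : ℝ) * F b := by
    rw [← Finset.sum_fiberwise (s := univ) (g := φ) (f := fun x => F (φ x))]
    refine sum_congr rfl fun b _ => ?_
    have h : ∀ x ∈ univ.filter (fun x => φ x = b), F (φ x) = F b := by
      intro x hx
      rw [(mem_filter.1 hx).2]
    rw [sum_congr rfl h, sum_const, nsmul_eq_mul]
  have h2 : ∀ b, (univ.filter (fun x => φ x = b)).card = (univ.filter (fun x => φ x = 0)).card := by
    intro b
    obtain ⟨x0, hx0⟩ := hφ b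
    refine Finset.card_bij (fun x _ => x - x0) ?_ ?_ ?_
    · intro x hx
      simp only [mem_filter, mem_univ, true_and] at hx ⊢
      rw [map_sub, hx, hx0, sub_self]
    · intro x _ y _ h
      exact sub_left_injective h
    · intro y hy
      simp only [mem_filter, mem_univ, true_and] at hy
      exact ⟨y + x0, by simp [hy, hx0], by abel⟩
  have h3 : (Fintype.card A : ℝ)
      = (Fintype.card B : ℝ) * ((univ.filter (fun x => φ x = 0)).card : ℝ) := by
    have h := Finset.card_eq_sum_card_fiberwise (f := φ) (s := (univ : Finset A)) (t := (univ : Finset B))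
      (fun x _ => by simp)
    rw [Finset.sum_congr rfl (fun b _ => h2 b), Finset.sum_const, smul_eq_mul, Finset.card_univ,
      Finset.card_univ] at h
    exact_mod_cast h
  have h0 : (0 : ℝ) < ((univ.filter (fun x => φ x = 0)).card : ℝ) := by
    have : 0 < (univ.filter (fun x => φ x = 0)).card := Finset.card_pos.2 ⟨0, by simp⟩
    exact_mod_cast this
  unfold av
  rw [h1, Finset.sum_congr rfl (fun b _ => by rw [h2 b]), ← Finset.mul_sum, h3, mul_comm (Fintype.card B : ℝ),
    mul_div_mul_left _ _ (ne_of_gt h0)]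

end VARXM

theorem specVARX : SpecVARX := by
  intro k N _ hN hk a ha g
  have : Fact N.Prime := ⟨hN⟩
  let φ : (Fin k → ZMod N) →+ ZMod N × ZMod N :=
    { toFun := fun x => (- ∑ i, a i * x i, ∑ i, x i)
      map_zero' := by simp
      map_add' := fun x y => by
        ext
        · simp only [Pi.add_apply, mul_add, sum_add_distrib, Prod.fst_add]; ring
        · simp only [Pi.add_apply, sum_add_distrib, Prod.snd_add] }
  have hφ : Function.Surjective φ := by
    rintro ⟨t, e⟩
    let i0 : Fin k := ⟨0, by omega⟩
    let i1 : Fin k := ⟨1, by omega⟩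
    have h01 : i0 ≠ i1 := by
      intro h
      have := congrArg Fin.val h
      simp [i0, i1] at this
    have hd : a i0 - a i1 ≠ 0 := sub_ne_zero.2 (fun h => h01 (ha h))
    let v : ZMod N := (t + a i0 * e) / (a i0 - a i1)
    have hv : v * (a i0 - a i1) = t + a i0 * e := div_mul_cancel₀ _ hd
    refine ⟨Pi.single i0 (e - v) + Pi.single i1 v, ?_⟩
    have e1 : ∑ i, (Pi.single i0 (e - v) + Pi.single i1 v : Fin k → ZMod N) i = e := by
      simp only [Pi.add_apply, sum_add_distrib, Finset.sum_pi_single', Finset.mem_univ, if_true]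
      simp
    have e2 : ∑ i, a i * (Pi.single i0 (e - v) + Pi.single i1 v : Fin k → ZMod N) i
        = a i0 * (e - v) + a i1 * v := by
      simp only [Pi.add_apply, mul_add, sum_add_distrib, Pi.single_apply, mul_ite, mul_zero,
        Finset.sum_ite_eq', Finset.mem_univ, if_true]
    change (- ∑ i, a i * (Pi.single i0 (e - v) + Pi.single i1 v : Fin k → ZMod N) i,
      ∑ i, (Pi.single i0 (e - v) + Pi.single i1 v : Fin k → ZMod N) i) = (t, e)
    rw [e1, e2]
    ext
    · change - (a i0 * (e - v) + a i1 * v) = t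
      linear_combination hv
    · rfl
  have h := VARXM.av_hom φ hφ (fun te : ZMod N × ZMod N => ∏ j, g (te.1 + a j * te.2))
  rw [← h]
  refine av_congr fun x => prod_congr rfl fun j _ => ?_
  congr 1
  change ∑ i, (a j - a i) * x i = - ∑ i, a i * x i + a j * ∑ i, x i
  rw [mul_sum, ← sum_neg_distrib, ← sum_add_distrib]
  exact sum_congr rfl fun i _ => by ring

end

end Pool.Agent.Lib.MP_3efbeb_nt.ER.RS
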