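import Mathlib
import Pool.Agent.Lib.MP_3efbeb_nt.DH.Spec

/-!
# MP_3efbeb_nt, ER, relative Szemeredi theorem: definitions (helper12)

Means over finite types, the forms `psi`, the doubled variables `X : Fin k → Bool → V`, the linear forms condition `LF`,
the norms `Box` and `Cut`.
-/

set_option autoImplicit false

namespace Pool.Agent.Lib.MP_3efbeb_nt.ER.RS

open Finset

noncomputable section

/-- mean over a finite type -/
def av {α : Type} [Fintype α] (f : α → ℝ) : ℝ := (∑ x, f x) / (Fintype.card α : ℝ)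

/-- `F` does not depend on the coordinate `i` -/
def Ind {k : ℕ} {V β : Type} (i : Fin k) (F : (Fin k → V) → β) : Prop :=
  ∀ (x : Fin k → V) (v : V), F (Function.update x i v) = F x

/-- the corner `w` of the doubled point `X` -/
def pt {k : ℕ} {V : Type} (X : Fin k → Bool → V) (w : Fin k → Bool) : Fin k → V := fun i => X i (w i)

/-- the corner `false` -/
def z0 {k : ℕ} : Fin k → Bool := fun _ => false

/-- the corner whose coordinates outside `j` are `false`, coordinate `j` is `b` -/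
def ej {k : ℕ} (j : Fin k) (b : Bool) : Fin k → Bool := Function.update z0 j b

/-- the corners that are `true` only in `S` -/
def Om {k : ℕ} (S : Finset (Fin k)) : Finset (Fin k → Bool) := univ.filter (fun w => ∀ i, w i = true → i ∈ S)

/-- exchange the two copies of the coordinate `i` -/
def sw {k : ℕ} {V : Type} (i : Fin k) (X : Fin k → Bool → V) : Fin k → Bool → V :=
  Function.update X i (fun b => X i (!b))

/-- the linear form number `j`: it does not contain `x j` -/
def psi {k N : ℕ} (a : Fin k → ZMod N) (j : Fin k) (x : Fin k → ZMod N) : ZMod N := ∑ i, (a j - a i) * x i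

/-- admissible sets of pairs (form, corner) -/
def Adm {k : ℕ} (T : Finset (Fin k × (Fin k → Bool))) : Prop := ∀ q ∈ T, q.2 q.1 = false

/-- the product of the values of `ν` at the forms in `T` -/
def prT {k N : ℕ} (a : Fin k → ZMod N) (ν : ZMod N → ℝ) (T : Finset (Fin k × (Fin k → Bool)))
    (X : Fin k → Bool → ZMod N) : ℝ := ∏ q ∈ T, ν (psi a q.1 (pt X q.2))

/-- the linear forms condition -/
def LF {k N : ℕ} [NeZero N] (a : Fin k → ZMod N) (ν : ZMod N → ℝ) (η : ℝ) : Prop :=
  ∀ T : Finset (Fin k × (Fin k → Bool)), Adm T → |av (prT a ν T) - 1| ≤ η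

/-- cut norm `≤ ε`, in `m` variables, canonical form -/
def Box {N : ℕ} [NeZero N] (m : ℕ) (F : ZMod N → ℝ) (ε : ℝ) : Prop :=
  ∀ u : Fin m → (Fin m → ZMod N) → ℝ, (∀ i, Ind i (u i)) → (∀ i y, 0 ≤ u i y ∧ u i y ≤ 1) →
    |av (fun y : Fin m → ZMod N => F (∑ i, y i) * ∏ i, u i y)| ≤ ε

/-- cut norm `≤ ε` for each of the forms `psi a j` -/
def Cut {k N : ℕ} [NeZero N] (a : Fin k → ZMod N) (F : ZMod N → ℝ) (ε : ℝ) : Prop :=
  ∀ (j : Fin k) (u : Fin k → (Fin k → ZMod N) → ℝ), (∀ i, Ind i (u i)) → (∀ i x, 0 ≤ u i x ∧ u i x ≤ 1) →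
    |av (fun x : Fin k → ZMod N => F (psi a j x) * ∏ i ∈ univ.erase j, u i x)| ≤ ε

/-- the function on `ZMod N` defined by a family `u`: mean over the fibre of the sum -/
def phi {N : ℕ} [NeZero N] (m : ℕ) (u : Fin m → (Fin m → ZMod N) → ℝ) (b : ZMod N) : ℝ :=
  (∑ y ∈ univ.filter (fun y : Fin m → ZMod N => ∑ i, y i = b), ∏ i, u i y) / (N : ℝ) ^ (m - 1)

/-- the steps of the progression: `a j = j` -/
def aN (k N : ℕ) (j : Fin k) : ZMod N := ((j : ℕ) : ZMod N)

/-- the count of `k`-term progressions -/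
def cntAP {N : ℕ} [NeZero N] (k : ℕ) (f : ZMod N → ℝ) : ℝ :=
  av (fun te : ZMod N × ZMod N => ∏ j : Fin k, f (te.1 + aN k N j * te.2))

end

end Pool.Agent.Lib.MP_3efbeb_nt.ER.RS
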