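import Pool.Agent.Lib.MP_3efbeb_nt.ER.RS.Spec
import Pool.Agent.Lib.MP_3efbeb_nt.ER.RS.AV

/-!
# MP_3efbeb_nt, ER, RS, module REP (helper41): the norms `Box` and `Cut` are the same
-/

set_option autoImplicit false

namespace Pool.Agent.Lib.MP_3efbeb_nt.ER.RS

open Finset

noncomputable section

namespace REPM

variable {m N : ℕ} [NeZero N]

/-- the change of variables `(t, y) ↦ x` -/
def E (a : Fin (m + 1) → ZMod N) (j : Fin (m + 1)) (q : ZMod N × (Fin m → ZMod N)) : Fin (m + 1) → ZMod N :=
  j.insertNth q.1 (fun i => (a j - a (j.succAbove i))⁻¹ * q.2 i)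

omit [NeZero N] in
theorem E_self (a : Fin (m + 1) → ZMod N) (j : Fin (m + 1)) (q : ZMod N × (Fin m → ZMod N)) : E a j q j = q.1 := by
  unfold E
  exact Fin.insertNth_apply_same _ _ _

omit [NeZero N] in
theorem E_succAbove (a : Fin (m + 1) → ZMod N) (j : Fin (m + 1)) (q : ZMod N × (Fin m → ZMod N)) (i : Fin m) :
    E a j q (j.succAbove i) = (a j - a (j.succAbove i))⁻¹ * q.2 i := by
  unfold E
  exact Fin.insertNth_apply_succAbove _ _ _ _

omit [NeZero N] in
theorem sub_ne (a : Fin (m + 1) → ZMod N) (ha : Function.Injective a) (j : Fin (m + 1)) (i : Fin m) :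
    a j - a (j.succAbove i) ≠ 0 := by
  intro h
  exact (Fin.succAbove_ne j i) (ha (sub_eq_zero.mp h)).symm

/-- the change of variables is a bijection -/
def EE (hN : N.Prime) (a : Fin (m + 1) → ZMod N) (ha : Function.Injective a) (j : Fin (m + 1)) :
    (ZMod N × (Fin m → ZMod N)) ≃ (Fin (m + 1) → ZMod N) where
  toFun q := E a j q
  invFun x := (x j, fun i => (a j - a (j.succAbove i)) * x (j.succAbove i))
  left_inv := by
    have : Fact N.Prime := ⟨hN⟩
    rintro ⟨t, y⟩
    refine Prod.ext ?_ ?_
    · exact E_self a j (t, y)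
    · funext i
      show (a j - a (j.succAbove i)) * E a j (t, y) (j.succAbove i) = y i
      rw [E_succAbove]
      show (a j - a (j.succAbove i)) * ((a j - a (j.succAbove i))⁻¹ * y i) = y i
      rw [← mul_assoc, mul_inv_cancel₀ (sub_ne a ha j i), one_mul]
  right_inv := by
    have : Fact N.Prime := ⟨hN⟩
    intro x
    funext i
    show E a j (x j, fun i => (a j - a (j.succAbove i)) * x (j.succAbove i)) i = x i
    rcases Fin.eq_self_or_eq_succAbove j i with h | ⟨i', h⟩
    · rw [h, E_self]
    · rw [h, E_succAbove]
      show (a j - a (j.succAbove i'))⁻¹ * ((a j - a (j.succAbove i')) * x (j.succAbove i')) = x (j.succAbove i')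
      rw [← mul_assoc, inv_mul_cancel₀ (sub_ne a ha j i'), one_mul]

omit [NeZero N] in
/-- the form in the new variables -/
theorem psi_E (hN : N.Prime) (a : Fin (m + 1) → ZMod N) (ha : Function.Injective a) (j : Fin (m + 1))
    (t : ZMod N) (y : Fin m → ZMod N) : psi a j (E a j (t, y)) = ∑ i, y i := by
  have : Fact N.Prime := ⟨hN⟩
  unfold psi
  rw [Fin.sum_univ_succAbove _ j, sub_self, zero_mul, zero_add]
  refine sum_congr rfl fun i _ => ?_
  rw [E_succAbove]
  show (a j - a (j.succAbove i)) * ((a j - a (j.succAbove i))⁻¹ * y i) = y i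
  rw [← mul_assoc, mul_inv_cancel₀ (sub_ne a ha j i), one_mul]

omit [NeZero N] in
/-- resampling in the new variables -/
theorem E_update (a : Fin (m + 1) → ZMod N) (j : Fin (m + 1)) (t : ZMod N) (y : Fin m → ZMod N) (i : Fin m) (v : ZMod N) :
    E a j (t, Function.update y i v)
      = Function.update (E a j (t, y)) (j.succAbove i) ((a j - a (j.succAbove i))⁻¹ * v) := by
  funext l
  rcases Fin.eq_self_or_eq_succAbove j l with h | ⟨i', h⟩
  · rw [h, E_self, Function.update_of_ne (Fin.succAbove_ne j i).symm, E_self]
  · rw [h, E_succAbove]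
    by_cases hi : i' = i
    · subst hi
      rw [Function.update_self]
      show (a j - a (j.succAbove i'))⁻¹ * Function.update y i' v i' = _
      rw [Function.update_self]
    · rw [Function.update_of_ne (fun h' => hi (Fin.succAbove_right_injective h')), E_succAbove]
      show (a j - a (j.succAbove i'))⁻¹ * Function.update y i v i' = _
      rw [Function.update_of_ne hi]

omit [NeZero N] in
/-- products over the indices different from `j` -/
theorem prod_erase (j : Fin (m + 1)) (f : Fin (m + 1) → ℝ) :
    ∏ i ∈ univ.erase j, f i = ∏ i : Fin m, f (j.succAbove i) := by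
  have h : (univ : Finset (Fin (m + 1))).erase j = (univ : Finset (Fin m)).map j.succAboveEmb := by
    ext l
    simp only [mem_erase, mem_univ, and_true, mem_map, true_and, Fin.succAboveEmb_apply]
    constructor
    · intro hl
      rcases Fin.eq_self_or_eq_succAbove j l with h | ⟨i', h⟩
      · exact absurd h hl
      · exact ⟨i', h.symm⟩
    · rintro ⟨i', h⟩
      rw [← h]
      exact Fin.succAbove_ne j i'
  rw [h, prod_map]
  rfl

/-- the mean in `Cut` in the new variables -/
theorem av_cut (hN : N.Prime) (a : Fin (m + 1) → ZMod N) (ha : Function.Injective a) (j : Fin (m + 1))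
    (F : ZMod N → ℝ) (u : Fin (m + 1) → (Fin (m + 1) → ZMod N) → ℝ) :
    av (fun x : Fin (m + 1) → ZMod N => F (psi a j x) * ∏ i ∈ univ.erase j, u i x)
      = av (fun t : ZMod N => av (fun y : Fin m → ZMod N =>
          F (∑ i, y i) * ∏ i : Fin m, u (j.succAbove i) (E a j (t, y)))) := by
  rw [← av_equiv (EE hN a ha j), av_prod]
  refine av_congr fun t => av_congr fun y => ?_
  show F (psi a j (E a j (t, y))) * ∏ i ∈ univ.erase j, u i (E a j (t, y)) = _
  rw [psi_E hN a ha, prod_erase]

end REPM

open REPM in
/-- REP -/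
theorem specREP : SpecREP := by
  intro m N _ hN a ha F ε
  constructor
  · intro hB j u hu hu1
    rw [av_cut hN a ha]
    have h : ∀ t : ZMod N, |av (fun y : Fin m → ZMod N =>
        F (∑ i, y i) * ∏ i : Fin m, u (j.succAbove i) (E a j (t, y)))| ≤ ε := by
      intro t
      refine hB (fun i y => u (j.succAbove i) (E a j (t, y))) ?_ (fun i y => hu1 _ _)
      intro i y v
      show u (j.succAbove i) (E a j (t, Function.update y i v)) = u (j.succAbove i) (E a j (t, y))
      rw [E_update]
      exact hu _ _ _
    calc _ ≤ av (fun _ : ZMod N => ε) := abs_av_le_of h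
      _ = ε := av_const ε
  · intro hC u hu hu1
    let u' : Fin (m + 1) → (Fin (m + 1) → ZMod N) → ℝ :=
      Fin.cons (α := fun _ => (Fin (m + 1) → ZMod N) → ℝ) (fun _ => 1)
        (fun i x => u i (fun l => (a 0 - a l.succ) * x l.succ))
    have h0 : ∀ x, u' 0 x = 1 := fun x => rfl
    have hs : ∀ i x, u' (Fin.succ i) x = u i (fun l => (a 0 - a l.succ) * x l.succ) := fun i x => rfl
    have h1 := hC 0 u' (by
      intro i
      refine Fin.cases ?_ (fun i => ?_) i
      · intro x v
        rw [h0, h0]
      · intro x v
        rw [hs, hs]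
        have : (fun l : Fin m => (a 0 - a l.succ) * Function.update x i.succ v l.succ)
            = Function.update (fun l : Fin m => (a 0 - a l.succ) * x l.succ) i ((a 0 - a i.succ) * v) := by
          funext l
          by_cases hl : l = i
          · subst hl; simp
          · rw [Function.update_of_ne hl, Function.update_of_ne (fun h => hl (Fin.succ_injective _ h))]
        rw [this]
        exact hu i _ _) (by
      intro i
      refine Fin.cases ?_ (fun i => ?_) i
      · intro x
        rw [h0]
        exact ⟨zero_le_one, le_refl _⟩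
      · intro x
        rw [hs]
        exact hu1 _ _)
    rw [av_cut hN a ha] at h1
    have h2 : ∀ (t : ZMod N) (y : Fin m → ZMod N),
        (F (∑ i, y i) * ∏ i : Fin m, u' ((0 : Fin (m + 1)).succAbove i) (E a 0 (t, y)))
          = F (∑ i, y i) * ∏ i, u i y := by
      intro t y
      congr 1
      refine prod_congr rfl fun i _ => ?_
      rw [Fin.succAbove_zero, hs]
      congr 1
      funext l
      have h3 := congrArg Prod.snd ((EE hN a ha 0).left_inv (t, y))
      have h4 := congrFun h3 l
      exact h4
    simp only [h2] at h1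
    rwa [av_const] at h1

end

end Pool.Agent.Lib.MP_3efbeb_nt.ER.RS
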