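import Pool.Agent.Lib.MP_3efbeb_nt.ER.Defs
import Pool.Agent.Lib.MP_3efbeb_nt.ER.RS.Defs

/-!
# MP_3efbeb_nt, ER, RS: the relative Szemeredi theorem (Specs with proofs, helper12)

Everything is finite. Notation of `RS/Defs.lean`: `av` mean over a finite type, `X : Fin k → Bool → V` doubled variables,
`pt X w` the corner `w`, `z0 = (false, …)`, `ej j b = (false, …, b, …)` (`b` at `j`), `Om S` corners that are `true` only
in `S`, `psi a j x = ∑ i, (a j - a i) * x i` (does not contain `x j`). `RS/AV.lean` (proved): `av_add av_sub av_mul_left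
av_mul_right av_const av_sum av_mono av_nonneg abs_av_le av_equiv av_prod av_comm av_mul_av av_cs av_cs_weight av_sq_le
av_update` (resampling one coordinate) `av_coord av_pull av_pt av_dbl psi_update ind_psi mem_Om pt_update pt_sw`.

Modules (arrows = hypotheses of the theorem that proves it):
 CS1; GCS (CS1); LFX; STR (GCS, LFX); CON; CLA (CON); CL (STR, CLA); REP; DMT (helper53); BOXB (STR, REP);
 VAR (DH.SpecSZ); VARX; REL (CL, REP, DMT, BOXB, VAR, VARX); GEN; MOM (GEN); PROB (REL, MOM).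
Each module `XXX` is a file `RS/XXX.lean` with `theorem specXXX : SpecXXX` or `theorem specXXX (h : SpecYYY) … : SpecXXX`.
-/

set_option autoImplicit false

namespace Pool.Agent.Lib.MP_3efbeb_nt.ER.RS

open Finset

noncomputable section

/-! ## CS1, GCS: the weighted Gowers-Cauchy-Schwarz inequality -/

/-- CS1. One step of Cauchy-Schwarz. `U`, `W` do not depend on `X i`, `R` depends on `X i` only through `X i false`.

PROOF. Put `r X := av (fun v : V => R (update X i (fun _ => v)))`; it does not depend on `X i`. Resample the coordinate `i`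
of `X` (`av_update` with value type `Bool → V`): `av (U * R) = av_X U X * av_(c : Bool → V) R (update X i c)`, and
`R (update X i c) = R (update X i (fun _ => c false))`, so the inner mean is `r X` (`av_coord` for `Bool → V`, or the
equivalence `(Bool → V) ≃ V × V`). So `av (U R) = av (U r)` and `|av (U r)| ≤ av (W |r|)`. By `av_cs_weight`
`(av (W |r|))^2 ≤ av W * av (W r^2)`. Finally `av (W * R * R∘sw) = av_X W X * av_c R (update X i c) * R (sw i (update X i c))`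
(`av_update`; `sw i (update X i c) = update X i (fun b => c (!b))`), and the inner mean is
`av_c R (update X i (fun _ => c false)) * R (update X i (fun _ => c true)) = (r X)^2` by `av_mul_av` and the equivalence
`(Bool → V) ≃ V × V`. -/
def SpecCS1 : Prop := ∀ (k : ℕ) (V : Type) [Fintype V] [Nonempty V] (i : Fin k) (U W R : (Fin k → Bool → V) → ℝ),
  (∀ X c, U (Function.update X i c) = U X) → (∀ X c, W (Function.update X i c) = W X) →
  (∀ X (c c' : Bool → V), c false = c' false → R (Function.update X i c) = R (Function.update X i c')) →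
  (∀ X, |U X| ≤ W X) →
  (av (fun X => U X * R X)) ^ 2 ≤ av W * av (fun X => W X * (R X * R (sw i X)))

/-- GCS. `F` is arbitrary (it may depend on all coordinates), `A i b` and the weight `v i` do not depend on the coordinate
`i`, `|A i b| ≤ v i`.

PROOF. For `S ⊆ univ.erase j` let `Q S X` be the product of
 (1) `∏ w ∈ Om S, F (pt X w)`,
 (2) `∏ i ∈ S, ∏ w ∈ Om (S.erase i), ∏ b, v i (pt X (update w j b))`,
 (3) `∏ i ∈ (univ.erase j) \ S, ∏ w ∈ Om S, ∏ b, A i b (pt X (update w j b))`,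
and `P S i X := ∏ w ∈ Om S, ∏ b, v i (pt X (update w j b))`.
STEP: for `i ∉ S`, `i ≠ j`: `(av (Q S))^2 ≤ av (P S i) * av (Q (insert i S))`. Apply CS1 with this `i`,
`U X = ∏ w ∈ Om S, ∏ b, A i b (pt X (update w j b))`, `W = P S i`, `R` = the product of all the other factors of `Q S`:
 * `U`, `W` do not depend on `X i`: `pt (update X i c) w' = update (pt X w') i (c (w' i))` (`pt_update`) and `Ind i`;
 * all corners in `R` have `w i = false` (`w ∈ Om S`, `i ∉ S`, `i ≠ j`), so `R` uses `X i false` only (`pt_update`);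
 * `W * R * R∘sw = Q (insert i S)`: `pt (sw i X) w = pt X (update w i true)` for `w i = false` (`pt_sw`), and
   `Om (insert i S)` is the disjoint union of `Om S` and its image under `w ↦ update w i true` (and `update w j b`,
   `update · i true` commute as `i ≠ j`); for `i' ∈ S`: `(insert i S).erase i' = insert i (S.erase i')`; the factor (2) of
   `Q (insert i S)` for the new index `i` is `∏ w ∈ Om ((insert i S).erase i)`, `(insert i S).erase i = S`, i.e. `P S i = W`.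
So `|av (Q S)|^2 ≤ B * |av (Q (insert i S))|` (`0 ≤ av (P S i) ≤ B`). INDUCTION on the number `l` of elements of
`(univ.erase j) \ S`: `|av (Q S)|^(2^l) ≤ B^(2^l) * |av (Q (univ.erase j))|` : for `l = 0` trivial; step:
`|av Q_S|^(2^(l+1)) = (|av Q_S|^2)^(2^l) ≤ B^(2^l) |av Q_(insert)|^(2^l) ≤ B^(2^l) B^(2^l) |av Q_full|`.
`Q ∅` is the left side (`Om ∅ = {z0}`, `update z0 j b = ej j b`), with `l = k - 1`. `Q (univ.erase j)`: (3) is empty, and
`∏ w ∈ Om ((univ.erase j).erase i), ∏ b, v i (pt X (update w j b)) = ∏ w with w i = false, v i (pt X w)`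
(`(w, b) ↦ update w j b` is a bijection of `Om ((univ.erase j).erase i) × Bool` onto `{w | w i = false}`). -/
def SpecGCS : Prop := ∀ (k : ℕ) (V : Type) [Fintype V] [Nonempty V] (j : Fin k) (F : (Fin k → V) → ℝ)
  (A : Fin k → Bool → (Fin k → V) → ℝ) (v : Fin k → (Fin k → V) → ℝ) (B : ℝ), 1 ≤ B →
  (∀ i, i ≠ j → ∀ b, Ind i (A i b)) → (∀ i, i ≠ j → Ind i (v i)) → (∀ i, i ≠ j → ∀ b x, |A i b x| ≤ v i x) →
  (∀ S, S ⊆ univ.erase j → ∀ i, i ≠ j → i ∉ S →
    av (fun X : Fin k → Bool → V => ∏ w ∈ Om S, ∏ b : Bool, v i (pt X (Function.update w j b))) ≤ B) →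
  |av (fun X : Fin k → Bool → V => F (pt X z0) * ∏ i ∈ univ.erase j, ∏ b : Bool, A i b (pt X (ej j b)))| ^ 2 ^ (k - 1)
    ≤ B ^ 2 ^ (k - 1) * |av (fun X : Fin k → Bool → V => (∏ w ∈ Om (univ.erase j), F (pt X w)) *
        ∏ i ∈ univ.erase j, ∏ w ∈ univ.filter (fun w : Fin k → Bool => w i = false), v i (pt X w))|

/-! ## LFX, STR: consequences of the linear forms condition -/

/-- LFX. Expansion of products.

PROOF. Write `V q := ν (psi a q.1 (pt X q.2))`. (1) `∏ q ∈ T, (1 + V q) = ∑ T' ∈ T.powerset, ∏ q ∈ T', V q`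
(`Finset.prod_one_add` / `prod_add`), every subset of an admissible set is admissible, so the mean is
`≤ 2^|T| (1 + η) ≤ 2^(|T|+1)`. (2) Let `O = Om (univ.erase j)`: nonempty (it contains `z0`), its members have `w j = false`,
`|O| ≤ 2^k`. `∏ w ∈ O, (V (j,w) - 1) = ∑ E ∈ O.powerset, (-1)^(|O| - |E|) ∏ w ∈ E, V (j, w)` (`Finset.prod_add` with the
constant `-1`). Times (1): the product is `∑_E ∑_(T' ⊆ T) (-1)^(|O|-|E|) prT a ν (E.image (j, ·) ∪ T') X`, the union is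
disjoint (no `q ∈ T` has `q.1 = j`) and admissible. Each mean is `1 + θ`, `|θ| ≤ η`. The main terms add up to
`(∑_E (-1)^(|O|-|E|)) 2^|T| = (1 - 1)^|O| 2^|T| = 0`, the errors to at most `2^|O| 2^|T| η ≤ 2^(2^k + |T|) η`. -/
def SpecLFX : Prop := ∀ (k N : ℕ) [NeZero N] (a : Fin k → ZMod N) (ν : ZMod N → ℝ) (η : ℝ), 0 ≤ η → η ≤ 1 → LF a ν η →
  (∀ T : Finset (Fin k × (Fin k → Bool)), Adm T →
    av (fun X : Fin k → Bool → ZMod N => ∏ q ∈ T, (1 + ν (psi a q.1 (pt X q.2)))) ≤ 2 ^ (T.card + 1)) ∧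
  ∀ (j : Fin k) (T : Finset (Fin k × (Fin k → Bool))), Adm T → (∀ q ∈ T, q.1 ≠ j) →
    |av (fun X : Fin k → Bool → ZMod N => (∏ w ∈ Om (univ.erase j), (ν (psi a j (pt X w)) - 1)) *
      ∏ q ∈ T, (1 + ν (psi a q.1 (pt X q.2))))| ≤ 2 ^ (2 ^ k + T.card) * η

/-- STR. The strong linear forms estimate: `ν - 1` at one form is orthogonal to all products of functions bounded by
`1 + ν` at the other forms.

PROOF. GCS with `V = ZMod N`, `F x = ν (psi a j x) - 1`, `v i x = 1 + ν (psi a i x)` (`ind_psi`), `B = 2^(2^k + 1)`: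
`∏ w ∈ Om S, ∏ b, v i (pt X (update w j b)) = ∏ q ∈ T, (1 + ν (psi a q.1 (pt X q.2)))` with `T` the image of `Om S × Bool`
under `(w, b) ↦ (i, update w j b)`, injective as `w j = false` on `Om S` (`j ∉ S`); `T` is admissible (`w i = false` as
`i ∉ S`, `i ≠ j`), `|T| ≤ 2^k` (all its members are `(i, w')`), so its mean is `≤ 2^(2^k+1)` by LFX (1). The mean on the
right of GCS is LFX (2) with `T = {(i, w) | i ≠ j, w i = false}`, `|T| ≤ k 2^k`. So `C = B^(2^(k-1)) 2^(2^k + k 2^k)`. -/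
def SpecSTR : Prop := ∀ k : ℕ, ∃ C : ℝ, 0 ≤ C ∧ ∀ (N : ℕ) [NeZero N] (a : Fin k → ZMod N) (ν : ZMod N → ℝ) (η : ℝ),
  (∀ i, 0 ≤ ν i) → 0 ≤ η → η ≤ 1 → LF a ν η → ∀ (j : Fin k) (A : Fin k → Bool → (Fin k → ZMod N) → ℝ),
  (∀ i, i ≠ j → ∀ b, Ind i (A i b)) → (∀ i, i ≠ j → ∀ b x, |A i b x| ≤ 1 + ν (psi a i x)) →
  |av (fun X : Fin k → Bool → ZMod N => (ν (psi a j (pt X z0)) - 1) *
    ∏ i ∈ univ.erase j, ∏ b : Bool, A i b (pt X (ej j b)))| ^ 2 ^ (k - 1) ≤ C * η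

/-! ## CON, CLA, CL: the counting lemma -/

/-- CON. The mean over the coordinate `j` of the product of the other `ν`'s is close to `1` in mean square.

PROOF. `ν' x := av_v ∏ i ∈ I, ν (psi a i (update x j v))`. `av ν' = av_x ∏ i ∈ I, ν (psi a i x)` (`av_update`)
`= av (prT a ν (I.image (·, z0)))` (`av_pt`), within `η` of `1`. `av ν'^2 = av_X (∏ i ∈ I, ν (psi a i (pt X z0)))
(∏ i ∈ I, ν (psi a i (pt X (ej j true))))` by `av_dbl` with `K = 1`, `= av (prT a ν T)`, `T = I × {z0, ej j true}`, of size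
`2 |I|`, admissible: `ej j true i = false` for `i ≠ j`, and `j ∉ I`. So within `η` of `1`. Hence
`av (ν' - 1)^2 = av ν'^2 - 2 av ν' + 1 ≤ (1 + η) - 2 (1 - η) + 1 = 3 η`. -/
def SpecCON : Prop := ∀ (k N : ℕ) [NeZero N] (a : Fin k → ZMod N) (ν : ZMod N → ℝ) (η : ℝ), LF a ν η →
  ∀ (j : Fin k) (I : Finset (Fin k)), j ∉ I →
  av (fun x : Fin k → ZMod N => (av (fun v => ∏ i ∈ I, ν (psi a i (Function.update x j v))) - 1) ^ 2) ≤ 3 * η

/-- families of functions with values in `[0, 1]`, the `i`-th one independent of the `i`-th coordinate -/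
def Dn {k N : ℕ} (u : Fin k → (Fin k → ZMod N) → ℝ) : Prop :=
  (∀ i, Ind i (u i)) ∧ ∀ i x, 0 ≤ u i x ∧ u i x ≤ 1

/-- the count with the functions `u i` at the places `i ∈ D` and `f` at the others -/
def cnt {k N : ℕ} [NeZero N] (a : Fin k → ZMod N) (D : Finset (Fin k)) (u : Fin k → (Fin k → ZMod N) → ℝ)
    (f : ZMod N → ℝ) : ℝ :=
  av (fun x : Fin k → ZMod N => (∏ i ∈ D, u i x) * ∏ i ∈ univ \ D, f (psi a i x))

/-- CLA. One step of the counting lemma (densification).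

PROOF. Let `I = univ \ insert j D` and, for `h ∈ {f, g}`,
`h' x := av_v (∏ i ∈ D, u i (update x j v)) * ∏ i ∈ I, h (psi a i (update x j v))`. `f'`, `g'` are `Ind j`, `0 ≤ g' ≤ 1`,
`0 ≤ f' ≤ ν'`, `ν' x := av_v ∏ i ∈ I, ν (psi a i (update x j v))`.
(1) For `K` with `Ind j K`: `av_x K x * h' x = av_x K x * (∏ i ∈ D, u i x) * ∏ i ∈ I, h (psi a i x)` (`av_pull`). With
`K = h (psi a j ·)` (`psi_update`): `cnt a D u h = av_x h (psi a j x) * h' x` (`univ \ D = insert j I`). So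
`cnt f - cnt g = av f(psi_j) (f' - g') + av (f - g)(psi_j) g'`.
(2) `|av (f-g)(psi_j) g'| = |av_x (f - g)(psi a j x) * ∏ i ∈ univ.erase j, u' i x| ≤ ε` by `Cut`, `u' i = u i` for `i ∈ D`,
`u' i x = g (psi a i x)` for the others (`ind_psi`).
(3) Let `F = f' - g'`. `(av f(psi_j) F)^2 ≤ (av ν(psi_j)) * av ν(psi_j) F^2` (`|f| ≤ ν`, `av_cs_weight` with `W = ν(psi_j)`
applied to `|F|`), `av ν(psi_j) ≤ 1 + η ≤ 2` (LF with `T = {(j, z0)}`, `av_pt`).
(4) `av ν(psi_j) F^2 = av F^2 + av (ν(psi_j) - 1) F^2` and `|av (ν(psi_j) - 1) F^2| ≤ 4 β`: `F^2 = f'f' - f'g' - g'f' + g'g'`,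
and for `p', q' ∈ {f', g'}` by `av_dbl` (`K = ν(psi_j) - 1`) `av (ν(psi_j) - 1) p' q' = av_X (ν(psi a j (pt X z0)) - 1) *
P (pt X z0) * Q (pt X (ej j true))`, `P x = (∏ i ∈ D, u i x) * ∏ i ∈ I, p (psi a i x)`, same for `Q`; this is the mean in the
hypothesis `hβ` with `A i false = u i` (`i ∈ D`) or `p (psi a i ·)` (`i ∈ I`), `A i true` the same with `q` (`ej j false = z0`);
`|A i b x| ≤ 1 + ν (psi a i x)` since `0 ≤ u, g ≤ 1`, `0 ≤ f ≤ ν`.
(5) `s := av F^2 ≤ 4 e + 3 η`. Let `f^ = min f' 1` (`Ind j`, in `[0,1]`). `0 ≤ f' - f^ ≤ |ν' - 1|`. So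
`s = av F (f^ - g') + av F (f' - f^)`; by `av_cs` and CON `|av F (f' - f^)| ≤ sqrt (s * 3 η) ≤ s/2 + 3 η / 2`. And
`av F (f^ - g') = (av f' f^ - av g' f^) - (av f' g' - av g' g')`; by (1) with `K = f^` resp. `K = g'` these two
differences are `cnt a (insert j D) (update u j K) f - cnt a (insert j D) (update u j K) g`, each `≤ e` in absolute value
by the hypothesis `he` (`univ \ insert j D = I`). So `s ≤ 2 e + s/2 + 3 η / 2`.
Together `|cnt f - cnt g| ≤ ε + sqrt (2 (4 e + 3 η + 4 β))`. -/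
def SpecCLA : Prop := ∀ (k N : ℕ) [NeZero N] (a : Fin k → ZMod N) (ν f g : ZMod N → ℝ) (η ε β e : ℝ),
  (∀ i, 0 ≤ f i ∧ f i ≤ ν i) → (∀ i, 0 ≤ g i ∧ g i ≤ 1) → 0 ≤ η → η ≤ 1 → LF a ν η → Cut a (fun i => f i - g i) ε →
  (∀ (j : Fin k) (A : Fin k → Bool → (Fin k → ZMod N) → ℝ),
    (∀ i, i ≠ j → ∀ b, Ind i (A i b)) → (∀ i, i ≠ j → ∀ b x, |A i b x| ≤ 1 + ν (psi a i x)) →
    |av (fun X : Fin k → Bool → ZMod N => (ν (psi a j (pt X z0)) - 1) *
      ∏ i ∈ univ.erase j, ∏ b : Bool, A i b (pt X (ej j b)))| ≤ β) →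
  ∀ (D : Finset (Fin k)) (j : Fin k), j ∉ D →
  (∀ u, Dn u → |cnt a (insert j D) u f - cnt a (insert j D) u g| ≤ e) →
  ∀ u, Dn u → |cnt a D u f - cnt a D u g| ≤ ε + Real.sqrt (8 * e + 6 * η + 8 * β)

/-- CL. The relative counting lemma.

PROOF. By induction on `l ≤ k` (`STATEMENT(l)`: for every `τ > 0` there are `ε, η > 0` such that for all data with
`LF a ν η`, `Cut a (f - g) ε`, all `D` with `|univ \ D| = l` and all `Dn u`: `|cnt a D u f - cnt a D u g| ≤ τ`; note that both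
hypotheses become stronger when `ε`, `η` become smaller). `l = 0`: both counts are equal. Step: given `τ`, take
`e = τ^2 / 128`, `ε ≤ τ / 2` and `≤ ε(l, e)`, `η ≤ η(l, e)`, `η ≤ 1`, `6 η ≤ τ^2 / 16`, `(C η)^(1 / 2^(k-1)) ≤ τ^2 / 128 =: β`
(`C` of STR: `|..|^(2^(k-1)) ≤ C η ≤ β^(2^(k-1))` gives `|..| ≤ β`, `pow_le_pow_left` backwards: `lt_of_pow_lt_pow_left` /
`abs_le_of_sq_le`..), then CLA for any `j ∉ D`: `8 e + 6 η + 8 β ≤ τ^2 (1/16 + 1/16 + 1/16) ≤ τ^2 / 4`, so the bound is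
`≤ τ/2 + τ/2`. The case `k = 0`: trivial (`D = univ = ∅`). CL is the case `D = ∅`, `l = k`, any `u` (e.g. `u = 0`). -/
def SpecCL : Prop := ∀ (k : ℕ) (τ : ℝ), 0 < τ → ∃ ε η : ℝ, 0 < ε ∧ 0 < η ∧ η ≤ 1 ∧ ∀ (N : ℕ) [NeZero N]
  (a : Fin k → ZMod N) (ν f g : ZMod N → ℝ), (∀ i, 0 ≤ f i ∧ f i ≤ ν i) → (∀ i, 0 ≤ g i ∧ g i ≤ 1) → LF a ν η →
  Cut a (fun i => f i - g i) ε →
  |av (fun x : Fin k → ZMod N => ∏ j, f (psi a j x)) - av (fun x : Fin k → ZMod N => ∏ j, g (psi a j x))| ≤ τ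

/-! ## REP, DMT, BOXB: the cut norm and the dense model -/

/-- REP. `Box` and `Cut` are the same.

PROOF. Fix `j : Fin (m+1)`. For `x : Fin (m+1) → ZMod N` let `y i' = (a j - a (j.succAbove i')) * x (j.succAbove i')`,
`i' : Fin m`. Then `psi a j x = ∑ i', y i'` (`Fin.sum_univ_succAbove`, the term `i = j` is `0`), `a j - a (j.succAbove i') ≠ 0`
(injectivity) is invertible (`N` prime), so `x ↦ (x j, y)` is a bijection onto `ZMod N × (Fin m → ZMod N)`
(`Fin.insertNthEquiv` / `Fin.consEquiv` composed with multiplications by units).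
(→) Given `u` for `Cut` and `j`: for each value `t` of `x j`, `F (psi a j x) * ∏ i ≠ j, u i x = F (∑ y) * ∏ i', u~ i' y` with
`u~ i' y = u (j.succAbove i') (x(t, y))`, independent of `y i'`, in `[0,1]`; by `Box` the mean over `y` is `≤ ε` in absolute
value for every `t`; average over `t` (`av_equiv`, `av_prod`, `abs_av_le_of`).
(←) Given `u` for `Box`, take `j = Fin.last m` (or `0`) and `u' (j.succAbove i') x = u i' (y x)`, `u' j = 1`; then the mean in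
`Cut` is the mean in `Box` (`av_equiv`, `av_prod`, the mean over `x j` is trivial). -/
def SpecREP : Prop := ∀ (m N : ℕ) [NeZero N], N.Prime → ∀ (a : Fin (m + 1) → ZMod N), Function.Injective a →
  ∀ (F : ZMod N → ℝ) (ε : ℝ), Box m F ε ↔ Cut a F ε

/-- DMT (helper53). The dense model theorem.

PROOF. `<F, G> := av (F * G)` on `ZMod N → ℝ`. (PHI) `<F, phi m u> = av_y F (∑ y) ∏ u` and `0 ≤ phi m u ≤ 1` (each fibre has
`N^(m-1)` elements). (PRD) `Box m F t` implies `|<F, phi u * phi u'>| ≤ t`: substitute `y' = y + s`, `∑ s = 0`, in the second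
factor: it is the mean over such `s` of `<F, phi (u * u'(· + s))>`. (SEP) Suppose no `g` works. `C = {h | ∃ g, 0 ≤ g ≤ 1,
∃ e < ε, Box (h - g) e}` is convex, open (`|h - h'| ≤ d` pointwise implies `Box (h' - g) (e + d)`), `f ∉ C`; so there is
`ψ` with `<h, ψ> < <f, ψ>` on `C` (`geometric_hahn_banach_open_point`). `M := sup {<h, ψ> | Box h 1}` is finite (scale `h`
by `ε/2`, `g = 0`) and `> 0` (`ψ ≠ 0`); replace `ψ` by `ψ / M`: `|<h, ψ>| ≤ t` whenever `Box h t`. (POW) `|<F, ψ^K>| ≤ t` for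
`K ≥ 1` whenever `Box F t`: induction, `<F, ψ^(K+1)> = <F ψ^K, ψ>`, and `Box (F ψ^K) t` because `|<F ψ^K, phi u>| =
|<F phi u, ψ^K>| ≤ t`, as `Box (F phi u) t` by PRD. `|ψ| ≤ 1`: `h` = point mass. (END) `ε ≤ <ν - 1, ψ+>`: take
`h = 1[ψ ≥ 0] + h'`, `Box h' e`, `e → ε`: `<ψ+, 1> + ε ≤ <f, ψ> ≤ <ν, ψ+>`. Polynomial `P` within `ε/8` of `max(t, 0)` on
`[-1,1]`: `|<ν - 1, P(ψ)>| ≤ (∑ |coeff|) η`, `|<ν - 1, ψ+ - P(ψ)>| ≤ (ε/8) (2 + η)`: contradiction for small `η`. -/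
def SpecDMT : Prop := ∀ (m : ℕ) (ε : ℝ), 1 ≤ m → 0 < ε → ∃ η : ℝ, 0 < η ∧ ∀ (N : ℕ) [NeZero N] (ν f : ZMod N → ℝ),
  (∀ i, 0 ≤ f i ∧ f i ≤ ν i) → Box m (fun i => ν i - 1) η →
  ∃ g : ZMod N → ℝ, (∀ i, 0 ≤ g i ∧ g i ≤ 1) ∧ Box m (fun i => f i - g i) ε

/-- BOXB. The linear forms condition makes the cut norm of `ν - 1` small.

PROOF. Let `k = m + 1`, `C` from STR, `η ≤ 1` with `C η ≤ ε^(2^(k-1))`. By REP it is enough to show `Cut a (ν - 1) ε`. Given
`j`, `u`: STR with `A i false = u i`, `A i true = 1` (`|..| ≤ 1 ≤ 1 + ν`): the mean is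
`av_X (ν (psi a j (pt X z0)) - 1) * ∏ i ≠ j, u i (pt X z0) = av_x (ν (psi a j x) - 1) * ∏ i ≠ j, u i x` (`ej j false = z0`,
`av_pt`), and `|..|^(2^(k-1)) ≤ C η ≤ ε^(2^(k-1))`. -/
def SpecBOXB : Prop := ∀ (m : ℕ) (ε : ℝ), 0 < ε → ∃ η : ℝ, 0 < η ∧ η ≤ 1 ∧ ∀ (N : ℕ) [NeZero N], N.Prime →
  ∀ (a : Fin (m + 1) → ZMod N), Function.Injective a → ∀ ν : ZMod N → ℝ, (∀ i, 0 ≤ ν i) → LF a ν η →
  Box m (fun i => ν i - 1) ε

/-! ## VAR, VARX, REL -/

/-- VAR (from `DH.SpecSZ`). Varnavides.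

PROOF. WLOG `δ ≤ 1`. Let `A = {x | δ/2 ≤ g x}`; `δ N ≤ ∑ g ≤ |A| + (δ/2) N`, so `|A| ≥ (δ/2) N`. Let `M ≥ 1` be so large that
every subset of `range M` with at least `(δ/4) M` elements contains `t' + e' j`, `j < k`, for some `t'`, `e' ≥ 1`
(`DH.SpecSZ (δ/4) (range k)`); then `t' < M` (if `k ≥ 1`; `k = 0` is trivial: the count is `1`) and, if `k ≥ 2`, `e' < M`;
if `k = 1` replace `e'` by `1`. Let `N > M`, `N0 = M + 1`. For `(t, d) ∈ (ZMod N)^2` let `B(t,d) = {l < M | t + l d ∈ A}`. For fixed `l` and `d`,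
`t ↦ t + l d` is a bijection, so the mean of `|B(t,d)| / M` over `(t, d)` is `|A| / N ≥ δ/2`; so `|B(t,d)| ≥ (δ/4) M` for at
least `(δ/4) N^2` pairs (otherwise the mean is `< δ/4 + δ/4`). For each of these there are `t', e' < M`, `1 ≤ e'` with
`(t + t' d) + (e' d) j ∈ A` for all `j < k`. So for some `(t', e')` (at most `M^2` possibilities) at least
`(δ/4) N^2 / M^2` pairs `(t, d)` have this property; `(t, d) ↦ (t + t' d, e' d)` is injective (`N` prime, `1 ≤ e' < N`). So at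
least `(δ / (4 M^2)) N^2` pairs `(t, e)` have `t + j e ∈ A`, `j < k`, and `c = (δ / (4 M^2)) (δ/2)^k`. -/
def SpecVAR : Prop := ∀ (k : ℕ) (δ : ℝ), 0 < δ → ∃ c : ℝ, 0 < c ∧ ∃ N0 : ℕ, ∀ (N : ℕ) [NeZero N], N.Prime → N0 ≤ N →
  ∀ g : ZMod N → ℝ, (∀ i, 0 ≤ g i ∧ g i ≤ 1) → δ ≤ av g → c ≤ cntAP k g

/-- VARX. The mean over `x` in the forms `psi` is the mean over progressions.

PROOF. `psi a j x = t + a j * e` with `e = ∑ i, x i`, `t = - ∑ i, a i * x i`. The linear map `x ↦ (t, e)`,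
`(Fin k → ZMod N) → ZMod N × ZMod N`, is surjective: with `i0 ≠ i1` (`k ≥ 2`) and `a i0 ≠ a i1` the values at the vectors
supported on `i0, i1` are everything (`2 × 2` determinant `a i1 - a i0 ≠ 0`, `N` prime). All fibres of a surjective
homomorphism have the same size (`k`-point count `N^(k-2)`; e.g. translate the fibre by a preimage, or exhibit the bijection
`x ↦ ((t, e), (x i)_(i ≠ i0, i1))`), so `av_x G (t x, e x) = av_(t,e) G (t, e)`. -/
def SpecVARX : Prop := ∀ (k N : ℕ) [NeZero N], N.Prime → 2 ≤ k → ∀ (a : Fin k → ZMod N), Function.Injective a →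
  ∀ g : ZMod N → ℝ, av (fun x : Fin k → ZMod N => ∏ j, g (psi a j x))
    = av (fun te : ZMod N × ZMod N => ∏ j, g (te.1 + a j * te.2))

/-- REL. The relative Szemeredi theorem (for progressions).

PROOF. WLOG `δ ≤ 1`. `k = m + 1`, `m ≥ 1`; `N0 > k` makes `aN k N` injective (`ZMod.natCast_eq_natCast_iff'`, `j < k ≤ N`).
`c0, N1` from VAR for `δ/2`; `ε1, η1` from CL for `τ = c0 / 2`; `ε = min ε1 (δ/2)`; `η2` from DMT for `(m, ε)`; `η3` from
BOXB for `(m, η2)`; `η = min η1 η3`, `c = c0 / 2`. (LF for `η` implies LF for `η1`, `η3`.) Given `ν, f`: `Box m (ν - 1) η2`,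
so there is `g : ZMod N → [0,1]` with `Box m (f - g) ε`. `Box` with `u = 1`: `|av_y (f - g)(∑ y)| ≤ ε`, and the sum of `m ≥ 1`
coordinates is equidistributed, so `|av f - av g| ≤ ε ≤ δ/2`: `av g ≥ δ/2`. (`av_y G (∑ y) = av G` for `m ≥ 1`: resample
one coordinate, `av_update`, and translate, `av_equiv`.) By VAR `cntAP k g ≥ c0`. By REP `Cut (f - g) ε`, so `Cut .. ε1`; by CL
and VARX (both for `f` and `g`) `|cntAP k f - cntAP k g| ≤ c0 / 2`. -/
def SpecREL : Prop := ∀ (k : ℕ) (δ : ℝ), 2 ≤ k → 0 < δ → ∃ η c : ℝ, 0 < η ∧ 0 < c ∧ ∃ N0 : ℕ, ∀ (N : ℕ) [NeZero N],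
  N.Prime → N0 ≤ N → ∀ ν f : ZMod N → ℝ, (∀ i, 0 ≤ f i ∧ f i ≤ ν i) → LF (aN k N) ν η → δ ≤ av f → c ≤ cntAP k f

/-! ## GEN, MOM, PROB: from moments over a sample space to the linear forms condition for most samples -/

/-- GEN. Two different forms rarely take the same value.

PROOF. (a) `X ↦ psi a q.1 (pt X q.2) - psi a q'.1 (pt X q'.2)` is a linear form in the `2k` variables `X i b` with a nonzero
coefficient `κ` at some `(i, b)`: if `q.1 ≠ q'.1` take `i = q.1`, `b = q'.2 i` (coefficient `0` in the first form, since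
`a i - a i = 0`; `a q'.1 - a i ≠ 0` in the second); if `q.1 = q'.1 = j` take `i` with `q.2 i ≠ q'.2 i` (so `i ≠ j`, both are
`false` at `j`), `b = q.2 i`: coefficient `a j - a i ≠ 0` in the first and `0` in the second. Resample `X i` (`av_update` for
`Bool → ZMod N`), then its component `b` (or use the bijection of `Bool → ZMod N` that adds `s` at `b`): for fixed other
variables the form is `κ * v + const`, which vanishes for exactly one `v`; so the mean of the indicator is `1 / N`.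
(b) Fix `X` and use that `X' ↦ psi a q'.1 (pt X' q'.2)` is equidistributed (some coefficient `a q'.1 - a i ≠ 0`, `i ≠ q'.1`
exists as `k ≥ 2`). -/
def SpecGEN : Prop := ∀ (k N : ℕ) [NeZero N], N.Prime → 2 ≤ k → ∀ (a : Fin k → ZMod N), Function.Injective a →
  (∀ q q' : Fin k × (Fin k → Bool), q ≠ q' → q.2 q.1 = false → q'.2 q'.1 = false →
    av (fun X : Fin k → Bool → ZMod N => if psi a q.1 (pt X q.2) = psi a q'.1 (pt X q'.2) then (1 : ℝ) else 0)
      ≤ 1 / N) ∧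
  ∀ q q' : Fin k × (Fin k → Bool), av (fun X : Fin k → Bool → ZMod N => av (fun X' : Fin k → Bool → ZMod N =>
    if psi a q.1 (pt X q.2) = psi a q'.1 (pt X' q'.2) then (1 : ℝ) else 0)) ≤ 1 / N

/-- MOM. For each admissible `T` the linear forms average is close to `1` in mean square over the sample space.

PROOF. Let `K = k 2^k`, so `|T| ≤ K`, `K0 = k 2^(k+1) = 2 K`, `s = |S|`, `E_n = s⁻¹ ∑_n`. For a finite family of forms values
`y_q ∈ ZMod N` (`q ∈ T`): `∏ q ∈ T, ν n (y_q) = ∏ i, ν n i ^ m i`, `m i = |{q | y_q = i}|`, `∑ m = |T|`; so `E_n` of it is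
`≤ N^(1/4)` (and `≥ 0`), and if the `y_q` are distinct it is `∏ i ∈ image, ν n i`, so `E_n` of it is within `1/sqrt N` of `1`.
(A) `E_n av_X prT(X) = av_X E_n prT(X)`: by GEN (a) and the union bound the proportion of `X` with two equal values is
`≤ K^2 / N`. So `|av_X E_n prT - 1| ≤ 1/sqrt N + (K^2/N) (N^(1/4) + 1) ≤ (1 + 2 K^2) / sqrt N` (`N^(1/4) ≤ N^(1/2)`, `1 ≤ N^(1/2)`).
(B) `E_n (av_X prT)^2 = av_X av_X' E_n prT(X) prT(X')`: `2 |T| ≤ 2 K = K0` values; two equal ones for a proportion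
`≤ (2K)^2 / N` of the `(X, X')` (GEN (a) inside `X`, inside `X'`; GEN (b) between them); so it is within
`(1 + 8 K^2) / sqrt N` of `1`.
(C) `E_n (av prT - 1)^2 = (B) - 2 (A) + 1 ≤ (1 + 8 K^2 + 2 + 4 K^2) / sqrt N`. So `C = 3 + 12 K^2`. -/
def SpecMOM : Prop := ∀ k : ℕ, 2 ≤ k → ∃ C : ℝ, 0 ≤ C ∧ ∀ (N : ℕ) [NeZero N], N.Prime → k ≤ N →
  ∀ (S : Finset ℕ) (ν : ℕ → ZMod N → ℝ), S.Nonempty → (∀ n ∈ S, ∀ i, 0 ≤ ν n i) →
  (∀ T : Finset (ZMod N), T.card ≤ k * 2 ^ (k + 1) → |(∑ n ∈ S, ∏ i ∈ T, ν n i) - S.card| ≤ S.card / Real.sqrt N) →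
  (∀ m : ZMod N → ℕ, ∑ i, m i ≤ k * 2 ^ (k + 1) →
    ∑ n ∈ S, ∏ i, ν n i ^ m i ≤ (N : ℝ) ^ (1 / 4 : ℝ) * S.card) →
  ∀ T : Finset (Fin k × (Fin k → Bool)), Adm T →
    ∑ n ∈ S, (av (prT (aN k N) (ν n) T) - 1) ^ 2 ≤ C * S.card / Real.sqrt N

/-! PROB. `theorem specPROB (hREL : SpecREL) (hMOM : SpecMOM) : ER.SpecPROB`.

PROOF. `K0 = k 2^(k+1)` (`≥ 2`). WLOG `δ ≤ 1`. `η, c1, N1` from REL for `δ/4`, `C` from MOM. Write `s = |S|`. Let
`Bad = {n ∈ S | ¬ LF (aN k N) (ν n) η}`; for `n ∈ Bad` some admissible `T` has `(av prT - 1)^2 > η^2`, so by MOM, summing over the at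
most `2^(k 2^k)` sets `T` (all finsets of `Fin k × (Fin k → Bool)`): `|Bad| ≤ ρ s`, `ρ = 2^(k 2^k) C / (η^2 sqrt N)`; let `N0` be so
large that `3 ρ ≤ δ^2 / 16`. Let `Y n = av (f n)`, `Z n = av (ν n)`, `0 ≤ Y ≤ Z`. `∑_n Z n ^2 = N^-2 ∑_(i,i') ∑_n ν n i ν n i'
≤ ((1 + 1/sqrt N) + N^-1 N^(1/4)) s ≤ 3 s` (M1 for `T = {i, i'}`, `i ≠ i'`; M2 for `m = 2 δ_i`). So
`∑_(n ∈ Bad) Y ≤ sqrt (|Bad| ∑ Y^2) ≤ sqrt (3 ρ) s ≤ (δ/4) s`. With `∑ Y ≥ δ s`: `∑_(n ∈ S \ Bad) Y ≥ (3δ/4) s`. Let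
`G = {n ∈ S \ Bad | Y n ≥ δ/4}`: `∑_(n ∈ G) Y ≥ (δ/2) s`, and by Cauchy-Schwarz `(δ/2)^2 s^2 ≤ |G| ∑ Y^2 ≤ 3 s |G|`, so
`|G| ≥ (δ^2/12) s`. For `n ∈ G` REL (with `ν n`, `f n`) gives `cntAP k (f n) ≥ c1`, i.e.
`∑_a ∑_d ∏_(j < k) f n (a + j d) ≥ c1 N^2` (`av_prod`, `Fin.prod_univ_eq_prod_range`); the other `n` contribute `≥ 0`. So
`c = c1 δ^2 / 12`. -/

end

end Pool.Agent.Lib.MP_3efbeb_nt.ER.RS
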